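import Pool.Agent.Helper509.AH.Dep

/-! Consequences for operators: asymptotic commutation. -/

namespace Pool.Agent.Helper509.AH

open Filter Topology

variable {E : Type*} [NormedAddCommGroup E] [NormedSpace ℂ E]
variable {X : Type*} [NormedAddCommGroup X] [NormedSpace ℂ X]
variable {D : Nodes E} {V U : ℕ → Submodule ℂ E} {ok : ℕ → (E →L[ℂ] E) → Prop}
variable {isB : ℕ → Prop} {Y0 Z : Submodule ℂ X}

/-- The kit of operators on the coordinate space. -/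
structure Kit (V U : ℕ → Submodule ℂ E) (ok : ℕ → (E →L[ℂ] E) → Prop) (f0 : E →L[ℂ] ℂ)
    (R : Set (E →L[ℂ] E)) (K : ℕ → Set (E →L[ℂ] E)) : Prop where
  mono : Monotone V
  monoU : Monotone U
  UV : ∀ n, U n ≤ V n
  VU : ∀ m, ∃ M, V m ≤ U M
  fin : ∀ n, FiniteDimensional ℂ (V n)
  f0_norm : ‖f0‖ ≤ 1
  ok_zero : ∀ η, ok η 0
  ok_R : ∀ η, ∀ r ∈ R, ok η r
  ok_RK : ∀ η, ∀ r ∈ R, ∀ k ∈ K η, ok η (r.comp k)
  norm_R : ∀ r ∈ R, ‖r‖ ≤ 1 / 2
  norm_K : ∀ η, ∀ k ∈ K η, ‖k‖ ≤ 1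
  map_R : ∀ r ∈ R, ∀ m, ∃ M, ∀ v ∈ V m, r v ∈ V M
  map_K : ∀ η, ∀ k ∈ K η, ∃ M, ∀ v ∈ V η, k v ∈ V M
  norming : ∀ m, ∀ v ∈ V m, ∃ r ∈ R, ‖v‖ / 4 ≤ (f0 (r v)).re
  id_K : ∀ η, ContinuousLinearMap.id ℂ E ∈ K η

/-- The properties of the space of finitely supported vectors which are used. -/
structure Win (B : BD D V X) (U : ℕ → Submodule ℂ E) (isB : ℕ → Prop) (Y0 : Submodule ℂ X) :
    Prop where
  sv_mem : ∀ γ, isB γ → γ ≠ 0 → ∀ h ∈ U γ, ∀ x, B.P γ x = 0 → B.P (γ + 1) x = x →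
    B.co γ x = h → x ∈ Y0
  fin : ∀ x ∈ Y0, ∃ q, B.P q x = x
  split : ∀ (l N q : ℕ) (x : X), x ∈ Y0 → Even N → B.P N x = 0 → B.P q x = x → ∃ x1 ∈ Y0,
    B.P q x1 = x1 ∧ (∀ γ < q, B.co γ x1 = 0 ∨ B.co γ x1 = B.co γ x) ∧
    (∀ γ < q, γ ≠ 0 → D.wt γ < N → D.wt γ < l → B.co γ x1 = B.co γ x) ∧
    (∀ γ < q, γ ≠ 0 → D.wt γ < N → l ≤ D.wt γ → B.co γ x1 = 0)
  wt : ∀ l N, ∃ γ, N ≤ γ ∧ γ ≠ 0 ∧ isB γ ∧ l ≤ D.wt γ

namespace BD

variable {B : BD D V X} {C δ : ℝ} {f0 : E →L[ℂ] ℂ}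
variable {R : Set (E →L[ℂ] E)} {K : ℕ → Set (E →L[ℂ] E)}

lemma eq_zero_of_co {q : ℕ} {x : X} (B : BD D V X) (hq : B.P q x = x)
    (h : ∀ γ < q, B.co γ x = 0) : x = 0 := by
  have := B.norm_P_le q x 0 le_rfl fun γ hγ => by rw [h γ hγ, norm_zero]
  rw [hq, mul_zero] at this
  exact norm_le_zero_iff.1 this

lemma P_eq_zero_of_co {q : ℕ} {x : X} (B : BD D V X)
    (h : ∀ γ < q, B.co γ x = 0) : B.P q x = 0 := by
  have := B.norm_P_le q x 0 le_rfl fun γ hγ => by rw [h γ hγ, norm_zero]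
  rw [mul_zero] at this
  exact norm_le_zero_iff.1 this

lemma exists_sv (B : BD D V X) (γ : ℕ) (hγ : γ ≠ 0) (h : E) (hh : h ∈ V γ) :
    ∃ x : X, B.P γ x = 0 ∧ B.P (γ + 1) x = x ∧ B.co γ x = h ∧ ‖x‖ ≤ 2 * ‖h‖ := by
  classical
  obtain ⟨x, hx1, hx2⟩ := B.lift (γ + 1) (fun i => if i = γ then h else 0)
    (fun i => by
      by_cases hi : i = γ
      · simp only [hi, if_true]; exact hh
      · simp only [hi, if_false]; exact Submodule.zero_mem _)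
    (by simp [Ne.symm hγ])
  have h0 : ∀ δ < γ, B.co δ x = 0 := fun δ hδ => by
    rw [hx2 δ (by omega)]; simp [hδ.ne]
  have h1 : B.co γ x = h := by rw [hx2 γ (by omega)]; simp
  refine ⟨x, B.P_eq_zero_of_co h0, hx1, h1, ?_⟩
  have := B.norm_P_le (γ + 1) x ‖h‖ (norm_nonneg _) (fun δ hδ => by
    rcases Nat.lt_succ_iff_lt_or_eq.1 hδ with h' | h'
    · rw [h0 δ h', norm_zero]; exact norm_nonneg _
    · rw [h', h1])
  rwa [hx1] at this

open Classical in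
/-- the vector with the single coordinate `h` at `γ` -/
noncomputable def sv (B : BD D V X) (γ : ℕ) (h : E) : X :=
  if H : γ ≠ 0 ∧ h ∈ V γ then (B.exists_sv γ H.1 h H.2).choose else 0

lemma sv_spec (B : BD D V X) {γ : ℕ} (hγ : γ ≠ 0) {h : E} (hh : h ∈ V γ) :
    B.P γ (B.sv γ h) = 0 ∧ B.P (γ + 1) (B.sv γ h) = B.sv γ h ∧ B.co γ (B.sv γ h) = h ∧
      ‖B.sv γ h‖ ≤ 2 * ‖h‖ := by
  unfold sv
  rw [dif_pos ⟨hγ, hh⟩]
  exact (B.exists_sv γ hγ h hh).choose_spec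

lemma sv_unique (B : BD D V X) {γ : ℕ} (hγ : γ ≠ 0) {h : E} (hh : h ∈ V γ) {x : X}
    (h1 : B.P γ x = 0) (h2 : B.P (γ + 1) x = x) (h3 : B.co γ x = h) : x = B.sv γ h := by
  obtain ⟨g1, g2, g3, -⟩ := B.sv_spec hγ hh
  rw [← sub_eq_zero]
  refine B.eq_zero_of_co (q := γ + 1) (by rw [map_sub, h2, g2]) fun δ hδ => ?_
  rw [map_sub]
  rcases Nat.lt_succ_iff_lt_or_eq.1 hδ with h' | h'
  · rw [B.co_of_P_zero h1 h', B.co_of_P_zero g1 h', sub_zero]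
  · rw [h', h3, g3, sub_self]

lemma sv_add (B : BD D V X) {γ : ℕ} (hγ : γ ≠ 0) {h h' : E} (hh : h ∈ V γ) (hh' : h' ∈ V γ) :
    B.sv γ (h + h') = B.sv γ h + B.sv γ h' := by
  obtain ⟨g1, g2, g3, -⟩ := B.sv_spec hγ hh
  obtain ⟨k1, k2, k3, -⟩ := B.sv_spec hγ hh'
  refine (B.sv_unique hγ (Submodule.add_mem _ hh hh') ?_ ?_ ?_).symm
  · rw [map_add, g1, k1, add_zero]
  · rw [map_add, g2, k2]
  · rw [map_add, g3, k3]

lemma sv_smul (B : BD D V X) {γ : ℕ} (hγ : γ ≠ 0) {h : E} (c : ℂ) (hh : h ∈ V γ) :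
    B.sv γ (c • h) = c • B.sv γ h := by
  obtain ⟨g1, g2, g3, -⟩ := B.sv_spec hγ hh
  refine (B.sv_unique hγ (Submodule.smul_mem _ c hh) ?_ ?_ ?_).symm
  · rw [map_smul, g1, smul_zero]
  · rw [map_smul, g2]
  · rw [map_smul, g3]

lemma RV_sv (B : BD D V X) (hD : D.Ok V ok) {γ : ℕ} (hγ : γ ≠ 0) {h : E} (hh : h ∈ V γ)
    {M : ℝ} (hM : ‖h‖ ≤ M) : B.RV (6 * M) (D.wt γ) (γ + 1) (B.sv γ h) := by
  obtain ⟨g1, g2, g3, g4⟩ := B.sv_spec hγ hh
  have hM0 : 0 ≤ M := (norm_nonneg _).trans hM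
  have hw := hD.wt_le γ hγ
  refine ⟨by omega, B.P_of_P_zero g1 hw, g2, by linarith, ?_⟩
  intro γ1 hγ1 hw1
  have := B.local_weight hD (q := γ + 1) (w := D.wt γ1) g2 (fun γ2 h1 h2 h3 => by
    rcases Nat.lt_succ_iff_lt_or_eq.1 h1 with h' | h'
    · exact B.co_of_P_zero g1 h'
    · rw [h'] at h3; omega) γ1 hγ1 rfl
  refine this.trans ?_
  have hβ := β_pos (D.wt γ1)
  have h2 : 3 * β (D.wt γ1) * ‖B.sv γ h‖ ≤ 3 * β (D.wt γ1) * (2 * M) := by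
    gcongr; linarith
  linarith

open Classical in
/-- The diagonal part of `T`. -/
noncomputable def F (B : BD D V X) (T : Z →L[ℂ] X) (γ : ℕ) (h : E) : E :=
  if H : B.sv γ h ∈ Z then B.co γ (T ⟨B.sv γ h, H⟩) else 0

lemma F_mem (B : BD D V X) (T : Z →L[ℂ] X) (γ : ℕ) (h : E) : B.F T γ h ∈ V γ := by
  unfold F
  split_ifs
  · exact B.co_mem γ _
  · exact Submodule.zero_mem _

lemma sv_mem (hW : Win B U isB Y0) (hUV : ∀ n, U n ≤ V n) {γ : ℕ} (hB : isB γ) (hγ : γ ≠ 0)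
    {h : E} (hh : h ∈ U γ) : B.sv γ h ∈ Y0 := by
  obtain ⟨g1, g2, g3, g4⟩ := B.sv_spec hγ (hUV γ hh)
  exact hW.sv_mem γ hB hγ h hh _ g1 g2 g3

lemma F_eq (B : BD D V X) (T : Z →L[ℂ] X) {γ : ℕ} {h : E} (H : B.sv γ h ∈ Z) :
    B.F T γ h = B.co γ (T ⟨B.sv γ h, H⟩) := by
  unfold F; rw [dif_pos H]

lemma norm_F (hK : Kit V U ok f0 R K) (T : Z →L[ℂ] X)
    {γ : ℕ} (hγ : γ ≠ 0) {h : E} (hh : h ∈ U γ) :
    ‖B.F T γ h‖ ≤ 2 * ‖T‖ * ‖h‖ := by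
  unfold F
  split_ifs with H
  · refine (B.norm_co _ _).trans ((T.le_opNorm _).trans ?_)
    have := (B.sv_spec hγ (hK.UV γ hh)).2.2.2
    calc ‖T‖ * ‖(⟨B.sv γ h, H⟩ : Z)‖ ≤ ‖T‖ * (2 * ‖h‖) := by gcongr; exact this
      _ = _ := by ring
  · rw [norm_zero]; positivity

lemma F_add (hK : Kit V U ok f0 R K) (hW : Win B U isB Y0) (hZ : Y0 ≤ Z) (T : Z →L[ℂ] X)
    {γ : ℕ} (hB : isB γ) (hγ : γ ≠ 0) {h h' : E} (hh : h ∈ U γ)
    (hh' : h' ∈ U γ) : B.F T γ (h + h') = B.F T γ h + B.F T γ h' := by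
  rw [B.F_eq T (hZ (sv_mem hW hK.UV hB hγ hh)), B.F_eq T (hZ (sv_mem hW hK.UV hB hγ hh')),
    B.F_eq T (hZ (sv_mem hW hK.UV hB hγ (Submodule.add_mem _ hh hh'))), ← map_add, ← map_add]
  congr 2
  apply Subtype.ext
  exact B.sv_add hγ (hK.UV _ hh) (hK.UV _ hh')

lemma F_smul (hK : Kit V U ok f0 R K) (hW : Win B U isB Y0) (hZ : Y0 ≤ Z) (T : Z →L[ℂ] X)
    {γ : ℕ} (hB : isB γ) (hγ : γ ≠ 0) {h : E} (c : ℂ) (hh : h ∈ U γ) :
    B.F T γ (c • h) = c • B.F T γ h := by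
  rw [B.F_eq T (hZ (sv_mem hW hK.UV hB hγ hh)),
    B.F_eq T (hZ (sv_mem hW hK.UV hB hγ (Submodule.smul_mem _ c hh))), ← map_smul, ← map_smul]
  congr 2
  apply Subtype.ext
  exact B.sv_smul hγ c (hK.UV _ hh)

/-- The comparison supply. -/
lemma compare (hD : D.Ok V ok) (hK : Kit V U ok f0 R K)
    (hW : Win B U isB Y0) (hZ : Y0 ≤ Z) (T : Z →L[ℂ] X)
    (hC : 0 ≤ C) (hδ : 0 < δ)
    (hbad : ∀ N : ℕ, ∃ (p q γ : ℕ) (x : Z) (k : E →L[ℂ] E), N ≤ p ∧ B.RV C p q (x : X) ∧ γ ≠ 0 ∧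
      k ∈ K γ ∧ ∀ N' : ℕ, ∃ γ', isB γ' ∧ γ' ≠ 0 ∧ N' ≤ D.wt γ' ∧
        δ < ‖k (B.co γ (T x)) - B.F T γ' (k (B.co γ (x : X)))‖) : False := by
  have hsup : B.Supply ok T f0 (C + 6 * C) (δ / 8) := by
    intro N ε hε
    -- small epsilon
    obtain ⟨e, he0, he1, he2⟩ : ∃ e : ℝ, 0 < e ∧ e ≤ ε ∧ 2 * e ≤ δ / 8 :=
      ⟨min ε (δ / 16), by positivity, min_le_left _ _, by
        have := min_le_right ε (δ / 16); linarith⟩
    obtain ⟨M1, hM1⟩ := B.weak_null hD hK.fin T N he0 (C := C + 6 * C) (by positivity)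
    obtain ⟨p, q, γ, x, k, hp, hRV, hγ, hk, hγ'⟩ := hbad (max N M1)
    obtain ⟨t, ht⟩ := B.eventually_P (T x) he0
    obtain ⟨t', ht'⟩ : ∃ t', t' = max (max t q) (max (γ + 1) N) := ⟨_, rfl⟩
    obtain ⟨M2, hM2⟩ := B.weak_null hD hK.fin T t' he0 (C := C + 6 * C) (by positivity)
    obtain ⟨Mk, hMk⟩ := hK.map_K γ k hk
    obtain ⟨MU, hMU⟩ := hK.VU Mk
    obtain ⟨γ', hB', hγ'0, hwγ', hbig⟩ := hγ' (max (max M2 t') (max (max Mk MU) p))
    have hγ'w := hD.wt_le γ' hγ'0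
    set h := B.co γ (x : X) with hh
    have hhV : h ∈ V γ := B.co_mem _ _
    have hkh : k h ∈ U γ' := hK.monoU (by omega : MU ≤ γ') (hMU (hMk h hhV))
    have hhC : ‖h‖ ≤ C := (B.norm_co _ _).trans hRV.2.2.2.1
    have hkC : ‖k h‖ ≤ C := by
      refine (k.le_opNorm h).trans ?_
      have := hK.norm_K γ k hk
      have := norm_nonneg h
      nlinarith
    obtain ⟨g1, g2, g3, g4⟩ := B.sv_spec hγ'0 (hK.UV _ hkh)
    have hRV2 := B.RV_sv hD hγ'0 (hK.UV _ hkh) hkC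
    have hx2Z : B.sv γ' (k h) ∈ Z := hZ (sv_mem hW hK.UV hB' hγ'0 hkh)
    obtain ⟨x2, hx2⟩ : ∃ x2 : Z, x2 = ⟨B.sv γ' (k h), hx2Z⟩ := ⟨_, rfl⟩
    have hx2c : (x2 : X) = B.sv γ' (k h) := by rw [hx2]
    have hF : B.F T γ' (k h) = B.co γ' (T x2) := by rw [B.F_eq T hx2Z, hx2]
    rw [← hx2c] at g1 g2 g3 g4 hRV2
    have hRV3 : B.RV (C + 6 * C) p (γ' + 1) ((x - x2 : Z) : X) := by
      rw [Submodule.coe_sub]
      exact (hRV.mono_q (by omega)).sub (hRV2.mono_p (by omega))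
    set v := k (B.co γ (T x)) - B.F T γ' (k h) with hv
    have hvV : ∃ m, v ∈ V m := by
      refine ⟨γ', Submodule.sub_mem _ ?_ (B.F_mem _ _ _)⟩
      exact hK.mono (by omega : Mk ≤ γ') (hMk _ (B.co_mem _ _))
    obtain ⟨m, hvm⟩ := hvV
    obtain ⟨r, hr, hrv⟩ := hK.norming m v hvm
    have hrn := hK.norm_R r hr
    have hkn := hK.norm_K γ k hk
    refine ⟨p, γ' + 1, x - x2, ![N, t'], ![γ, γ'], ![r.comp k, r], by omega, hRV3, ?_, ?_, ?_, ?_,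
      ?_, ?_, ?_⟩
    · exact (hM1 _ _ _ (by omega) hRV3).trans he1
    · intro i; fin_cases i
      · exact le_rfl
      · change N ≤ t'; omega
    · intro i; fin_cases i
      · exact hK.ok_RK γ r hr k hk
      · exact hK.ok_R γ' r hr
    · change ‖r.comp k‖ + ‖r‖ ≤ 1
      have h1 : ‖r.comp k‖ ≤ 1 / 2 := by
        refine (ContinuousLinearMap.opNorm_comp_le _ _).trans ?_
        have := norm_nonneg r
        have := norm_nonneg k
        nlinarith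
      linarith
    · obtain ⟨Ma, hMa⟩ := hK.map_R r hr Mk
      obtain ⟨Mb, hMb⟩ := hK.map_R r hr γ'
      refine ⟨max Ma Mb, fun γ1 hγ1 i => ?_⟩
      fin_cases i
      · intro v hv
        exact hK.mono (by omega : Ma ≤ γ1) (hMa _ (hMk v hv))
      · intro v hv
        exact hK.mono (by omega : Mb ≤ γ1) (hMb v hv)
    · rw [Fin.sum_univ_two]
      change ‖r (k (B.co γ (((x - x2 : Z) : X) - B.P N ((x - x2 : Z) : X)))) +
        r (B.co γ' (((x - x2 : Z) : X) - B.P t' ((x - x2 : Z) : X)))‖ ≤ ε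
      have e1 : B.co γ (((x - x2 : Z) : X) - B.P N ((x - x2 : Z) : X)) = h := by
        rw [B.P_of_P_zero hRV3.2.1 (by omega), sub_zero, Submodule.coe_sub, map_sub,
          B.co_of_P_zero g1 (by omega), sub_zero]
      have e2 : B.co γ' (((x - x2 : Z) : X) - B.P t' ((x - x2 : Z) : X)) = - k h := by
        rw [Submodule.coe_sub, map_sub (B.P t'), B.P_of_P_eq hRV.2.2.1 (by omega),
          B.P_of_P_zero g1 (by omega)]
        rw [sub_zero, sub_sub_cancel_left, map_neg, g3]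
      rw [e1, e2, map_neg, add_neg_cancel, norm_zero]
      exact hε.le
    · rw [Fin.sum_univ_two]
      change δ / 8 ≤ (f0 (r (k (B.co γ (T (x - x2) - B.P N (T (x - x2))))) +
        r (B.co γ' (T (x - x2) - B.P t' (T (x - x2)))))).re
      obtain ⟨w1, hw1⟩ : ∃ w1, w1 = - B.co γ (T x2) - B.co γ (B.P N (T (x - x2))) := ⟨_, rfl⟩
      obtain ⟨w2, hw2⟩ : ∃ w2, w2 = B.co γ' (T x - B.P t' (T x)) + B.co γ' (B.P t' (T x2)) :=
        ⟨_, rfl⟩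
      have e1 : B.co γ (T (x - x2) - B.P N (T (x - x2))) = B.co γ (T x) + w1 := by
        rw [hw1]; simp only [map_sub]; abel
      have e2 : B.co γ' (T (x - x2) - B.P t' (T (x - x2))) = - B.F T γ' (k h) + w2 := by
        rw [hw2, hF]; simp only [map_sub]; abel
      have n1 : ‖w1‖ ≤ 2 * e := by
        rw [hw1]
        refine (norm_sub_le _ _).trans ?_
        rw [norm_neg]
        have a1 : B.co γ (T x2) = B.co γ (B.P t' (T x2)) := (B.co_P t' γ _ (by omega)).symm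
        have a2 : ‖B.co γ (T x2)‖ ≤ e := by
          rw [a1]
          refine (B.norm_co _ _).trans (hM2 _ _ _ ?_ (hRV2.mono (by linarith)))
          omega
        have a3 : ‖B.co γ (B.P N (T (x - x2)))‖ ≤ e :=
          (B.norm_co _ _).trans (hM1 _ _ _ (by omega) hRV3)
        linarith
      have n2 : ‖w2‖ ≤ 2 * e := by
        rw [hw2]
        refine (norm_add_le _ _).trans ?_
        have a1 : ‖B.co γ' (T x - B.P t' (T x))‖ ≤ e := (B.norm_co _ _).trans (ht _ (by omega))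
        have a2 : ‖B.co γ' (B.P t' (T x2))‖ ≤ e := by
          refine (B.norm_co _ _).trans (hM2 _ _ _ ?_ (hRV2.mono (by linarith)))
          omega
        linarith
      have e3 : r (k (B.co γ (T (x - x2) - B.P N (T (x - x2))))) +
          r (B.co γ' (T (x - x2) - B.P t' (T (x - x2)))) = r v + (r (k w1) + r w2) := by
        rw [e1, e2, hv]; simp only [map_add, map_sub, map_neg]; abel
      rw [e3, map_add, Complex.add_re]
      have n3 : ‖r (k w1) + r w2‖ ≤ 2 * e := by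
        have b1 : ‖r (k w1)‖ ≤ e := by
          refine (r.le_opNorm _).trans ?_
          have b2 : ‖k w1‖ ≤ 2 * e := by
            refine (k.le_opNorm _).trans ?_
            have := norm_nonneg w1
            nlinarith
          have := norm_nonneg (k w1)
          nlinarith
        have b3 : ‖r w2‖ ≤ e := by
          refine (r.le_opNorm _).trans ?_
          have := norm_nonneg w2
          nlinarith
        exact (norm_add_le _ _).trans (by linarith)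
      have n4 := (abs_le.1 (re_f0_le hK.f0_norm (r (k w1) + r w2))).1
      linarith
  exact B.no_supply hD hK.f0_norm (by positivity) hsup

/-- Asymptotic commutation, first form. -/
lemma comm1 (hD : D.Ok V ok) (hK : Kit V U ok f0 R K)
    (hW : Win B U isB Y0) (hZ : Y0 ≤ Z) (T : Z →L[ℂ] X) (hδ : 0 < δ) :
    ∃ N, ∀ γ, isB γ → γ ≠ 0 → N ≤ D.wt γ → ∀ h ∈ U γ, ‖h‖ ≤ 1 → ∀ k ∈ K γ,
      ∃ N', ∀ γ', isB γ' → γ' ≠ 0 → N' ≤ D.wt γ' →
        ‖B.F T γ' (k h) - k (B.F T γ h)‖ ≤ δ := by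
  by_contra hcon
  push Not at hcon
  refine B.compare hD hK hW hZ T (C := 6) (by norm_num) hδ fun N => ?_
  obtain ⟨γ, hB, hγ, hw, h, hh, hh1, k, hk, H⟩ := hcon N
  obtain ⟨g1, g2, g3, g4⟩ := B.sv_spec hγ (hK.UV _ hh)
  have hxZ : B.sv γ h ∈ Z := hZ (sv_mem hW hK.UV hB hγ hh)
  refine ⟨D.wt γ, γ + 1, γ, ⟨B.sv γ h, hxZ⟩, k, hw, ?_, hγ, hk, fun N' => ?_⟩
  · have := B.RV_sv hD hγ (hK.UV _ hh) hh1
    simpa using this
  · obtain ⟨γ', h0, h1, h2, h3⟩ := H N'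
    refine ⟨γ', h0, h1, h2, ?_⟩
    rw [g3, norm_sub_rev, ← B.F_eq T hxZ]
    exact h3

/-- Asymptotic commutation. -/
theorem comm (hD : D.Ok V ok) (hK : Kit V U ok f0 R K)
    (hW : Win B U isB Y0) (hZ : Y0 ≤ Z) (T : Z →L[ℂ] X) (hδ : 0 < δ) :
    ∃ N, ∀ γ γ', isB γ → isB γ' → γ ≠ 0 → γ' ≠ 0 → N ≤ D.wt γ → N ≤ D.wt γ' → ∀ h ∈ U γ,
      ‖h‖ ≤ 1 → ∀ k ∈ K γ, k h ∈ U γ' → ‖B.F T γ' (k h) - k (B.F T γ h)‖ ≤ δ := by
  obtain ⟨N, hN⟩ := B.comm1 hD hK hW hZ T (half_pos hδ)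
  refine ⟨N, fun γ γ' hB hB' hγ hγ' hw hw' h hh hh1 k hk hkh => ?_⟩
  obtain ⟨N1, hN1⟩ := hN γ hB hγ hw h hh hh1 k hk
  have hkh1 : ‖k h‖ ≤ 1 := by
    refine (k.le_opNorm h).trans ?_
    have := hK.norm_K γ k hk
    have := norm_nonneg h
    have := norm_nonneg k
    nlinarith
  obtain ⟨N2, hN2⟩ := hN γ' hB' hγ' hw' (k h) hkh hkh1 _ (hK.id_K γ')
  obtain ⟨γ'', -, g1, g0, g2⟩ := hW.wt (max N1 N2) 0
  have a1 := hN1 γ'' g0 g1 (by omega)
  have a2 := hN2 γ'' g0 g1 (by omega)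
  simp only [ContinuousLinearMap.id_apply] at a2
  have : B.F T γ' (k h) - k (B.F T γ h) = (B.F T γ'' (k h) - k (B.F T γ h)) -
      (B.F T γ'' (k h) - B.F T γ' (k h)) := by abel
  rw [this]
  refine (norm_sub_le _ _).trans ?_
  linarith

/-- From single coordinates to rapid vectors. -/
lemma rapid_of_sv (hD : D.Ok V ok) (hK : Kit V U ok f0 R K)
    (hW : Win B U isB Y0) (hZ : Y0 ≤ Z) (T : Z →L[ℂ] X) (a : E →L[ℂ] E)
    (ha : ∀ ε > 0, ∃ N, ∀ γ, isB γ → γ ≠ 0 → N ≤ D.wt γ → ∀ h ∈ U γ, ‖h‖ ≤ 1 →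
      ‖B.F T γ h - a h‖ ≤ ε)
    (hC : 0 ≤ C) {ε : ℝ} (hε : 0 < ε) :
    ∃ M, ∀ p q (x : Z), M ≤ p → B.RV C p q (x : X) → ∀ γ,
      ‖B.co γ (T x) - a (B.co γ (x : X))‖ ≤ ε := by
  by_contra hcon
  push Not at hcon
  obtain ⟨N0, hN0⟩ := ha (ε / (2 * (C + 1))) (by positivity)
  refine B.compare hD hK hW hZ T hC (half_pos hε) fun N => ?_
  obtain ⟨p, q, x, hp, hRV, γ, hbig⟩ := hcon N
  have hγ : γ ≠ 0 := by
    rintro rfl
    rw [B.co_zero, B.co_zero, map_zero, sub_zero, norm_zero] at hbig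
    linarith
  obtain ⟨MU, hMU⟩ := hK.VU γ
  refine ⟨p, q, γ, x, _, hp, hRV, hγ, hK.id_K γ, fun N' => ?_⟩
  obtain ⟨γ', g0, g1, gB, g2⟩ := hW.wt (max N' N0) MU
  refine ⟨γ', gB, g1, by omega, ?_⟩
  simp only [ContinuousLinearMap.id_apply]
  have hhV : B.co γ (x : X) ∈ U γ' := hK.monoU g0 (hMU (B.co_mem _ _))
  have hhC : ‖B.co γ (x : X)‖ ≤ C := (B.norm_co _ _).trans hRV.2.2.2.1
  -- scale
  have key : ‖B.F T γ' (B.co γ (x : X)) - a (B.co γ (x : X))‖ ≤ ε / 2 := by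
    have h1 := hN0 γ' gB g1 (by omega) (((C + 1 : ℝ) : ℂ)⁻¹ • B.co γ (x : X))
      (Submodule.smul_mem _ _ hhV) (by
        rw [norm_smul, norm_inv, Complex.norm_real, Real.norm_eq_abs, abs_of_pos (by linarith)]
        rw [inv_mul_le_iff₀ (by linarith)]
        linarith)
    rw [B.F_smul hK hW hZ T gB g1 _ hhV, map_smul, ← smul_sub, norm_smul, norm_inv,
      Complex.norm_real,
      Real.norm_eq_abs, abs_of_pos (by linarith), inv_mul_le_iff₀ (by linarith)] at h1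
    refine h1.trans (le_of_eq ?_)
    field_simp
  have : B.co γ (T x) - a (B.co γ (x : X)) = (B.co γ (T x) - B.F T γ' (B.co γ (x : X))) +
      (B.F T γ' (B.co γ (x : X)) - a (B.co γ (x : X))) := by abel
  rw [this] at hbig
  have := norm_add_le (B.co γ (T x) - B.F T γ' (B.co γ (x : X)))
    (B.F T γ' (B.co γ (x : X)) - a (B.co γ (x : X)))
  linarith

/-- The splitting of a block vector according to the local weights. -/
lemma split (hD : D.Ok V ok) (hW : Win B U isB Y0) (l N q : ℕ) (hN2 : Even N) (hq : N ≤ q)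
    {x : X} (hx0 : x ∈ Y0) (hN : B.P N x = 0) (hx : B.P q x = x) (hx1 : ‖x‖ ≤ 1) :
    ∃ x1 ∈ Y0, ∃ x2 ∈ Y0, x = x1 + x2 ∧ B.RV (max 6 (2 / β l)) N q x1 ∧
      B.RV 6 (min l N) q x2 := by
  obtain ⟨x1, hx1Y, h1, h2, h3, h4⟩ := hW.split l N q x hx0 hN2 hN hx
  have hco : ∀ γ < q, ‖B.co γ x1‖ ≤ 1 := by
    intro γ hγ
    rcases h2 γ hγ with h | h
    · rw [h, norm_zero]; exact zero_le_one
    · rw [h]; exact (B.norm_co _ _).trans hx1
  have hn1 : ‖x1‖ ≤ 2 := by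
    have := B.norm_P_le q x1 1 zero_le_one hco
    rw [h1] at this; linarith
  have hP2 : B.P q (x - x1) = x - x1 := by rw [map_sub, hx, h1]
  have hn2 : ‖x - x1‖ ≤ 2 := by
    have := B.norm_P_le q (x - x1) 1 zero_le_one (fun γ hγ => by
      rw [map_sub]
      rcases h2 γ hγ with h | h
      · rw [h, sub_zero]; exact (B.norm_co _ _).trans hx1
      · rw [h, sub_self, norm_zero]; exact zero_le_one)
    rw [hP2] at this; linarith
  have hN1 : B.P N x1 = 0 := B.P_eq_zero_of_co fun γ hγ => by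
    rcases h2 γ (by omega) with h | h
    · exact h
    · rw [h, B.co_of_P_zero hN hγ]
  have hβl := β_pos l
  refine ⟨x1, hx1Y, x - x1, Submodule.sub_mem _ hx0 hx1Y, by abel,
    ⟨hq, hN1, h1, hn1.trans (by
      have := le_max_left (6:ℝ) (2 / β l); linarith), ?_⟩, ⟨by omega, ?_, hP2, by linarith, ?_⟩⟩
  · intro γ hγ hw
    have hβ := β_pos (D.wt γ)
    by_cases hl : D.wt γ < l
    · have h3 : β l ≤ β (D.wt γ) := β_anti hl.le
      calc ‖B.co γ x1‖ ≤ 2 := (B.norm_co _ _).trans hn1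
        _ = 2 / β l * β l := by field_simp
        _ ≤ max 6 (2 / β l) * β (D.wt γ) := by
            gcongr
            exact le_max_right _ _
    · have := B.local_weight hD (w := D.wt γ) h1 (fun γ1 g1 g2 g3 => by
        exact h4 γ1 g1 g2 (by omega) (by omega)) γ hγ rfl
      refine this.trans ?_
      calc 3 * β (D.wt γ) * ‖x1‖ ≤ 3 * β (D.wt γ) * 2 := by gcongr
        _ = 6 * β (D.wt γ) := by ring
        _ ≤ _ := by gcongr; exact le_max_left _ _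
  · rw [map_sub, B.P_of_P_zero hN (min_le_right _ _), B.P_of_P_zero hN1 (min_le_right _ _),
      sub_zero]
  · intro γ hγ hw
    have hβ := β_pos (D.wt γ)
    have := B.local_weight hD (w := D.wt γ) hP2 (fun γ1 g1 g2 g3 => by
        rw [map_sub, h3 γ1 g1 g2 (by omega) (by omega), sub_self]) γ hγ rfl
    refine this.trans ?_
    calc 3 * β (D.wt γ) * ‖x - x1‖ ≤ 3 * β (D.wt γ) * 2 := by gcongr
      _ = 6 * β (D.wt γ) := by ring

/-- From single coordinates to all finitely supported vectors. -/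
theorem tail_of_sv (hD : D.Ok V ok) (hK : Kit V U ok f0 R K)
    (hW : Win B U isB Y0) (hZ : Y0 ≤ Z) (T : Z →L[ℂ] X) (a : E →L[ℂ] E)
    (ha : ∀ ε > 0, ∃ N, ∀ γ, isB γ → γ ≠ 0 → N ≤ D.wt γ → ∀ h ∈ U γ, ‖h‖ ≤ 1 →
      ‖B.F T γ h - a h‖ ≤ ε)
    {ε : ℝ} (hε : 0 < ε) :
    ∃ N, ∀ x : Z, (x : X) ∈ Y0 → B.P N (x : X) = 0 → ∀ γ,
      ‖B.co γ (T x) - a (B.co γ (x : X))‖ ≤ ε * ‖x‖ := by
  obtain ⟨l, hl⟩ := B.rapid_of_sv hD hK hW hZ T a ha (C := 6) (by norm_num) (ε := ε / 2)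
    (by positivity)
  obtain ⟨N1, hN1⟩ := B.rapid_of_sv hD hK hW hZ T a ha (C := max 6 (2 / β l))
    (le_max_of_le_left (by norm_num)) (ε := ε / 2) (by positivity)
  have step1 : ∀ (x : Z) (q : ℕ), (x : X) ∈ Y0 → 2 * max l N1 ≤ q →
      B.P (2 * max l N1) (x : X) = 0 → B.P q (x : X) = x → ‖x‖ ≤ 1 →
      ∀ γ, ‖B.co γ (T x) - a (B.co γ (x : X))‖ ≤ ε := by
    intro x q hx0 hq hN hx hx1 γ
    obtain ⟨x1, hx1Y, x2, hx2Y, h1, h2, h3⟩ := B.split hD hW l (2 * max l N1) q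
      ⟨max l N1, by ring⟩ hq hx0 hN hx hx1
    have a1 := hN1 _ _ (⟨x1, hZ hx1Y⟩ : Z) (by omega) h2 γ
    have a2 := hl _ _ (⟨x2, hZ hx2Y⟩ : Z) (by omega) h3 γ
    have hsum : x = (⟨x1, hZ hx1Y⟩ : Z) + (⟨x2, hZ hx2Y⟩ : Z) := Subtype.ext h1
    have : B.co γ (T x) - a (B.co γ (x : X)) =
        (B.co γ (T ⟨x1, hZ hx1Y⟩) - a (B.co γ x1)) +
        (B.co γ (T ⟨x2, hZ hx2Y⟩) - a (B.co γ x2)) := by
      rw [hsum, Submodule.coe_add]; simp only [map_add]; abel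
    rw [this]
    refine (norm_add_le _ _).trans ?_
    linarith
  refine ⟨2 * max l N1, fun x hx0 hN γ => ?_⟩
  obtain ⟨q0, hq0⟩ := hW.fin (x : X) hx0
  have hq := B.P_of_P_eq hq0 (le_max_left q0 (2 * max l N1))
  by_cases h0 : ‖x‖ = 0
  · rw [norm_eq_zero] at h0; rw [h0]; simp
  · have hpos : 0 < ‖x‖ := lt_of_le_of_ne (norm_nonneg _) (Ne.symm h0)
    have h1 := step1 (((‖x‖ : ℝ) : ℂ)⁻¹ • x) (max q0 (2 * max l N1))
      (by rw [Submodule.coe_smul]; exact Submodule.smul_mem _ _ hx0) (le_max_right _ _)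
      (by rw [Submodule.coe_smul, map_smul, hN, smul_zero])
      (by rw [Submodule.coe_smul, map_smul, hq]) (by
        rw [norm_smul, norm_inv, Complex.norm_real, norm_norm, inv_mul_cancel₀ h0]) γ
    rw [Submodule.coe_smul, map_smul, map_smul, map_smul, map_smul, ← smul_sub, norm_smul,
      norm_inv, Complex.norm_real, norm_norm, inv_mul_le_iff₀ hpos] at h1
    linarith

end BD

end Pool.Agent.Helper509.AH
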