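import Pool.Agent.Helper509.AH.Weak

/-! Exact pairs. -/

namespace Pool.Agent.Helper509.AH

open Filter Topology

variable {E : Type*} [NormedAddCommGroup E] [NormedSpace ℂ E]
variable {X : Type*} [NormedAddCommGroup X] [NormedSpace ℂ X]
variable {D : Nodes E} {V : ℕ → Submodule ℂ E} {ok : ℕ → (E →L[ℂ] E) → Prop}
variable {Z : Submodule ℂ X}

namespace BD

/-- A supply of bad vectors for the operator `T`. -/
def Supply (B : BD D V X) (ok : ℕ → (E →L[ℂ] E) → Prop) (T : Z →L[ℂ] X) (f0 : E →L[ℂ] ℂ)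
    (C δ : ℝ) : Prop :=
  ∀ (N : ℕ) (ε : ℝ), 0 < ε → ∃ (p q : ℕ) (x : Z) (s η : Fin 2 → ℕ) (A : Fin 2 → (E →L[ℂ] E)),
    N ≤ p ∧ B.RV C p q (x : X) ∧ ‖B.P N (T x)‖ ≤ ε ∧ (∀ i, N ≤ s i) ∧ (∀ i, ok (η i) (A i)) ∧
    ‖A 0‖ + ‖A 1‖ ≤ 1 ∧ (∃ M, ∀ γ, M ≤ γ → ∀ i, ∀ v ∈ V (η i), A i v ∈ V γ) ∧
    ‖∑ i, A i (B.co (η i) ((x : X) - B.P (s i) (x : X)))‖ ≤ ε ∧
    δ ≤ (f0 (∑ i, A i (B.co (η i) (T x - B.P (s i) (T x))))).re

variable {B : BD D V X} {C δ : ℝ} {T : Z →L[ℂ] X} {f0 : E →L[ℂ] ℂ}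

lemma eventually_P (B : BD D V X) (y : X) {ε : ℝ} (hε : 0 < ε) :
    ∃ t, ∀ m, t ≤ m → ‖y - B.P m y‖ ≤ ε := by
  have h := B.P_tendsto y
  rw [tendsto_iff_norm_sub_tendsto_zero] at h
  obtain ⟨t, ht⟩ := eventually_atTop.1 (h.eventually (ge_mem_nhds hε))
  exact ⟨t, fun m hm => by rw [norm_sub_rev]; exact ht m hm⟩

lemma step_even (hD : D.Ok V ok) (hsup : B.Supply ok T f0 C δ) {j : ℕ} (hj : Even j) (N0 : ℕ)
    {ε : ℝ} (hε : 0 < ε) (ξ : ℕ) (hξ : ξ = 0 ∨ (ξ ≠ 0 ∧ D.wt ξ = j ∧ D.age ξ < nn j)) :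
    ∃ (x : Z) (p q ξ' : ℕ), max (ξ + 1) N0 ≤ p ∧ B.RV C p q (x : X) ∧ q ≤ ξ' ∧ ξ' ≠ 0 ∧
      D.par ξ' = ξ ∧ D.wt ξ' = j ∧ ‖B.P (max (ξ + 1) N0) (T x)‖ ≤ ε ∧ ‖B.fn ξ' (x : X)‖ ≤ ε ∧
      δ ≤ (f0 (B.fn ξ' (T x))).re ∧ ‖T x - B.P ξ' (T x)‖ ≤ ε := by
  obtain ⟨p, q, x, s, η, A, h1, h2, h3, h4, h5, h6, h7, h8, h9⟩ := hsup (max (ξ + 1) N0) ε hε
  obtain ⟨t, ht⟩ := B.eventually_P (T x) hε
  obtain ⟨ξ', g1, g2, g3, g4, g5, g6, g7⟩ := hD.rich_even j hj ξ hξ s η A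
    (fun i => by have := h4 i; omega) h5 h6 h7 (max q t)
  have hfn : ∀ y, B.fn ξ' y = ∑ i, A i (B.co (η i) (y - B.P (s i) y)) := by
    intro y; unfold fn; rw [g5, g6, g7]
  refine ⟨x, p, q, ξ', h1, h2, (le_max_left _ _).trans g1, g2, g3, g4, h3, ?_, ?_,
    ht _ ((le_max_right _ _).trans g1)⟩
  · rw [hfn]; exact h8
  · rw [hfn]; exact h9

lemma re_f0_le (hf0 : ‖f0‖ ≤ 1) (v : E) : |(f0 v).re| ≤ ‖v‖ :=
  (Complex.abs_re_le_norm _).trans ((f0.le_opNorm v).trans (by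
    have := norm_nonneg v
    nlinarith))

/-- The sequence of vectors and nodes behind an exact pair. -/
lemma exact_seq (hD : D.Ok V ok) (hsup : B.Supply ok T f0 C δ)
    {j : ℕ} (hj : Even j) (N0 : ℕ) {e : ℝ} (he0 : 0 < e) :
    ∃ (ξs : ℕ → ℕ) (xs : ℕ → Z) (ps qs : ℕ → ℕ), ξs 0 = 0 ∧
      ∀ r < nn j, max (ξs r + 1) N0 ≤ ps r ∧ B.RV C (ps r) (qs r) (xs r : X) ∧
      qs r ≤ ξs (r + 1) ∧ ξs (r + 1) ≠ 0 ∧ D.par (ξs (r + 1)) = ξs r ∧ D.wt (ξs (r + 1)) = j ∧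
      ‖B.P (max (ξs r + 1) N0) (T (xs r))‖ ≤ e ∧ ‖B.fn (ξs (r + 1)) (xs r : X)‖ ≤ e ∧
      δ ≤ (f0 (B.fn (ξs (r + 1)) (T (xs r)))).re ∧
      ‖T (xs r) - B.P (ξs (r + 1)) (T (xs r))‖ ≤ e := by
  have hstep := fun (ξ : {ξ : ℕ // ξ = 0 ∨ (ξ ≠ 0 ∧ D.wt ξ = j ∧ D.age ξ < nn j)}) =>
    B.step_even hD hsup hj N0 he0 ξ.1 ξ.2
  choose X' p' q' ξ' h1 h2 h3 h4 h5 h6 h7 h8 h9 h10 using hstep
  classical
  -- total step
  let F : ℕ → ℕ := fun ξ => if h : ξ = 0 ∨ (ξ ≠ 0 ∧ D.wt ξ = j ∧ D.age ξ < nn j)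
    then ξ' ⟨ξ, h⟩ else 0
  let ξs : ℕ → ℕ := fun r => Nat.rec 0 (fun _ m => F m) r
  have hξ0 : ξs 0 = 0 := rfl
  have hξs : ∀ r, ξs (r + 1) = F (ξs r) := fun _ => rfl
  have hinv : ∀ r ≤ nn j, (ξs r = 0 ∧ r = 0) ∨ (ξs r ≠ 0 ∧ D.wt (ξs r) = j ∧ D.age (ξs r) = r) := by
    intro r
    induction r with
    | zero => intro _; left; exact ⟨rfl, rfl⟩
    | succ r ih =>
      intro hr
      right
      have hI : ξs r = 0 ∨ (ξs r ≠ 0 ∧ D.wt (ξs r) = j ∧ D.age (ξs r) < nn j) := by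
        rcases ih (by omega) with h | h
        · left; exact h.1
        · right; exact ⟨h.1, h.2.1, by omega⟩
      have hF : ξs (r + 1) = ξ' ⟨ξs r, hI⟩ := by rw [hξs]; simp only [F]; rw [dif_pos hI]
      rw [hF]
      refine ⟨h4 _, h6 _, ?_⟩
      rw [hD.age_succ _ (h4 _), h5]
      rcases ih (by omega) with h | h
      · change D.age (ξs r) + 1 = _
        rw [h.1, hD.age_zero, h.2]
      · change D.age (ξs r) + 1 = _
        rw [h.2.2]
  have hI : ∀ r < nn j, ξs r = 0 ∨ (ξs r ≠ 0 ∧ D.wt (ξs r) = j ∧ D.age (ξs r) < nn j) := by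
    intro r hr
    rcases hinv r hr.le with h | h
    · left; exact h.1
    · right; exact ⟨h.1, h.2.1, by omega⟩
  have hF : ∀ r (hr : r < nn j), ξs (r + 1) = ξ' ⟨ξs r, hI r hr⟩ := by
    intro r hr; rw [hξs]; simp only [F]; rw [dif_pos (hI r hr)]
  refine ⟨ξs, fun r => if hr : r < nn j then X' ⟨ξs r, hI r hr⟩ else 0,
    fun r => if hr : r < nn j then p' ⟨ξs r, hI r hr⟩ else 0,
    fun r => if hr : r < nn j then q' ⟨ξs r, hI r hr⟩ else 0, hξ0, ?_⟩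
  intro r hr
  simp only [dif_pos hr]
  rw [hF r hr]
  obtain ⟨z, hz⟩ : ∃ z : {ξ : ℕ // ξ = 0 ∨ (ξ ≠ 0 ∧ D.wt ξ = j ∧ D.age ξ < nn j)},
    z = ⟨ξs r, hI r hr⟩ := ⟨_, rfl⟩
  rw [← hz]
  have hzr : ξs r = z.1 := by rw [hz]
  rw [hzr]
  exact ⟨h1 z, h2 z, h3 z, h4 z, h5 z, h6 z, h7 z, h8 z, h9 z, h10 z⟩

/-- Exact pairs. -/
lemma exact_pair (hD : D.Ok V ok) (hf0 : ‖f0‖ ≤ 1) (hC : 0 ≤ C) (hsup : B.Supply ok T f0 C δ)
    {j : ℕ} (hj : Even j) (hj0 : j ≠ 0) (N0 : ℕ) {ε : ℝ} (hε : 0 < ε) (hδ : 0 < δ) :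
    ∃ (x : Z) (η : ℕ), N0 ≤ η ∧ B.P N0 (x : X) = 0 ∧ B.P η (x : X) = x ∧ η ≠ 0 ∧ D.wt η = j ∧
      ‖(x : X)‖ ≤ 12 * C ∧
      (∀ γ, γ ≠ 0 → ∀ s, D.wt γ ≠ j →
        ‖B.co γ ((x : X) - B.P s (x : X))‖ ≤ 12 * C * β (min (D.wt γ) j)) ∧
      (∀ γ, ‖B.dd γ (x : X)‖ ≤ 12 * C * β j) ∧ ‖B.co η (x : X)‖ ≤ ε ∧
      δ / 2 ≤ (f0 (B.co η (T x))).re ∧ ‖B.P N0 (T x)‖ ≤ ε := by
  have hβ := β_pos j
  have hβ1 := β_le_one j
  have hn : (0 : ℝ) < nn j := by exact_mod_cast nn_pos j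
  -- small epsilon
  obtain ⟨e, he0, he1, he2⟩ : ∃ e : ℝ, 0 < e ∧ 2 * e ≤ ε * β j ∧ 13 * e + 4 * (e / β j) ≤ δ / 2 := by
    refine ⟨min (ε * β j / 2) (δ * β j / 34), by positivity, ?_, ?_⟩
    · have := min_le_left (ε * β j / 2) (δ * β j / 34); linarith
    · have h1 := min_le_right (ε * β j / 2) (δ * β j / 34)
      set m := min (ε * β j / 2) (δ * β j / 34)
      have h2 : m / β j ≤ δ / 34 := by
        rw [div_le_iff₀ hβ]; linarith
      have h3 : m ≤ δ / 34 := h1.trans (by nlinarith)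
      linarith
  obtain ⟨ξs, xs, ps, qs, hξ0, prop⟩ := B.exact_seq hD hsup hj N0 he0
  have hlt : ∀ r < nn j, ξs r < ξs (r + 1) := fun r hr => by
    obtain ⟨-, -, -, a4, a5, -⟩ := prop r hr
    have := hD.par_lt _ a4
    rw [a5] at this; exact this
  have hmono : ∀ r r', r ≤ r' → r' ≤ nn j → ξs r ≤ ξs r' := by
    intro r r' hrr' hr'
    induction r' with
    | zero => have : r = 0 := by omega
              rw [this]
    | succ k ih =>
      rcases Nat.le_succ_iff.1 hrr' with h | h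
      · exact (ih h (by omega)).trans (hlt k (by omega)).le
      · rw [h]
  have hseq : B.RSeq C (nn j) ps qs (fun k => (xs k : X)) := by
    refine ⟨fun k hk => (prop k hk).2.1, fun k l hkl hl => ?_⟩
    have a1 := (prop k (by omega)).2.2.1
    have a2 := (prop l hl).1
    have a3 := hmono (k + 1) l hkl hl.le
    omega
  obtain ⟨S, hS⟩ : ∃ S, S = Finset.range (nn j) := ⟨_, rfl⟩
  have hSlt : ∀ k ∈ S, k < nn j := fun k hk => by rw [hS] at hk; exact Finset.mem_range.1 hk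
  have hScard : S.card = nn j := by rw [hS]; exact Finset.card_range _
  obtain ⟨YZ, hYZ⟩ : ∃ YZ, YZ = ∑ k ∈ S, xs k := ⟨_, rfl⟩
  obtain ⟨Y, hY⟩ : ∃ Y, Y = ∑ k ∈ S, (xs k : X) := ⟨_, rfl⟩
  have hYc : (YZ : X) = Y := by rw [hYZ, hY, Submodule.coe_sum]
  obtain ⟨c, hc⟩ : ∃ c : ℝ, c = (β j * (nn j : ℝ))⁻¹ := ⟨_, rfl⟩
  have hcpos : 0 < c := by rw [hc]; positivity
  have hcβn : c * (β j * (nn j : ℝ)) = 1 := by rw [hc]; exact inv_mul_cancel₀ (by positivity)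
  have hcβ : c ≤ β j := by
    have h1 : 1 ≤ β j * (β j * (nn j : ℝ)) := by
      have := one_le_β_sq_nn j; nlinarith
    calc c = c * 1 := (mul_one _).symm
      _ ≤ c * (β j * (β j * (nn j : ℝ))) := by gcongr
      _ = β j * (c * (β j * (nn j : ℝ))) := by ring
      _ = β j := by rw [hcβn, mul_one]
  have hcn : c * (nn j : ℝ) = (β j)⁻¹ := by
    rw [hc]; field_simp
  have hnormc : ‖(c : ℂ)‖ = c := by rw [Complex.norm_real, Real.norm_eq_abs, abs_of_pos hcpos]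
  have hn0 : 0 < nn j := nn_pos j
  have hξn : ξs (nn j) ≠ 0 ∧ D.wt (ξs (nn j)) = j := by
    have := prop (nn j - 1) (by omega)
    rw [Nat.sub_add_cancel hn0] at this
    exact ⟨this.2.2.2.1, this.2.2.2.2.2.1⟩
  have hchain : ∀ r < nn j, ξs (r + 1) ≠ 0 ∧ D.par (ξs (r + 1)) = ξs r ∧ D.wt (ξs (r + 1)) = j :=
    fun r hr => ⟨(prop r hr).2.2.2.1, (prop r hr).2.2.2.2.1, (prop r hr).2.2.2.2.2.1⟩
  -- the vector and the node
  have hcc : (((c : ℂ) • YZ : Z) : X) = (c : ℂ) • Y := by rw [Submodule.coe_smul, hYc]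
  refine ⟨(c : ℂ) • YZ, ξs (nn j), ?_⟩
  rw [hcc]
  refine ⟨?_, ?_, ?_, hξn.1, hξn.2, ?_, ?_, ?_, ?_, ?_, ?_⟩
  · -- N0 ≤ η
    have a1 := (prop 0 hn0).1
    have a2 := (prop 0 hn0).2.1.1
    have a3 := (prop 0 hn0).2.2.1
    have a4 := hmono 1 (nn j) hn0 le_rfl
    have : ξs (0 + 1) = ξs 1 := rfl
    omega
  · rw [map_smul, hY, map_sum, Finset.sum_eq_zero, smul_zero]
    intro k hk
    have := (prop k (hSlt k hk)).1
    exact B.P_of_P_zero (prop k (hSlt k hk)).2.1.2.1 (by omega)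
  · rw [map_smul, hY, map_sum]
    congr 1
    refine Finset.sum_congr rfl fun k hk => ?_
    have h1 := (prop k (hSlt k hk)).2.2.1
    have h2 := hmono (k + 1) (nn j) (hSlt k hk) le_rfl
    exact B.P_of_P_eq (prop k (hSlt k hk)).2.1.2.2.1 (by omega)
  · -- norm
    have := (hseq.upper hD hC hSlt hj0 hScard.le).1
    rw [← hY] at this
    rw [norm_smul, hnormc]
    calc c * ‖Y‖ ≤ c * (9 * C * β j * (nn j : ℝ)) := by gcongr
      _ = 9 * C * (c * (β j * (nn j : ℝ))) := by ring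
      _ = 9 * C := by rw [hcβn, mul_one]
      _ ≤ 12 * C := by linarith
  · -- other weights
    intro γ hγ s hw
    obtain ⟨e', he', heq⟩ := hseq.tail hC hSlt s
    rw [← hY] at heq
    have hsub : ∀ k ∈ S.filter (fun k => s ≤ ps k), k < nn j := fun k hk =>
      hSlt k (Finset.mem_filter.1 hk).1
    have hcard : (S.filter (fun k => s ≤ ps k)).card ≤ nn j := by
      rw [← hScard]; exact Finset.card_le_card (Finset.filter_subset _ _)
    have hval : ‖B.co γ ((c : ℂ) • Y - B.P s ((c : ℂ) • Y))‖ ≤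
        c * (‖B.co γ (∑ k ∈ S.filter (fun k => s ≤ ps k), xs k)‖ + 3 * C) := by
      rw [map_smul, ← smul_sub, map_smul, norm_smul, hnormc, heq, map_add]
      gcongr
      exact (norm_add_le _ _).trans (add_le_add le_rfl ((B.norm_co _ _).trans he'))
    refine hval.trans ?_
    rcases lt_or_gt_of_ne hw with h | h
    · rw [min_eq_left h.le]
      have h1 := (hseq.upper hD hC hsub hj0 hcard).2 γ hγ h
      have hβw := β_pos (D.wt γ)
      have hβle : β j ≤ β (D.wt γ) := β_anti h.le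
      calc _ ≤ c * (9 * C * β j * β (D.wt γ) * (nn j : ℝ) + 3 * C) := by gcongr
        _ = 9 * C * β (D.wt γ) * (c * (β j * (nn j : ℝ))) + 3 * C * c := by ring
        _ ≤ 9 * C * β (D.wt γ) + 3 * C * β (D.wt γ) := by
            rw [hcβn, mul_one]; gcongr; exact hcβ.trans hβle
        _ = _ := by ring
    · rw [min_eq_right h.le]
      have h1 := hseq.high hD hC hsub γ hγ
      have hβw := β_pos (D.wt γ)
      have hβle : β (D.wt γ) ≤ β j ^ 2 := by rw [← β_succ]; exact β_anti h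
      have hcard' : ((S.filter (fun k => s ≤ ps k)).card : ℝ) ≤ nn j := by exact_mod_cast hcard
      calc _ ≤ c * ((C + 4 * C * β (D.wt γ) * ((S.filter (fun k => s ≤ ps k)).card : ℝ)) + 3 * C) := by
            gcongr
        _ ≤ c * ((C + 4 * C * β j ^ 2 * (nn j : ℝ)) + 3 * C) := by gcongr
        _ = 4 * C * β j * (c * (β j * (nn j : ℝ))) + 4 * C * c := by ring
        _ ≤ 4 * C * β j * 1 + 4 * C * β j := by rw [hcβn]; gcongr
        _ ≤ 12 * C * β j := by nlinarith [mul_nonneg hC hβ.le]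
  · intro γ
    have := hseq.cut_dd hC hSlt γ
    rw [← hY] at this
    rw [dd_smul, norm_smul, hnormc]
    calc c * ‖B.dd γ Y‖ ≤ β j * (3 * C) := by gcongr
      _ ≤ _ := by nlinarith [mul_nonneg hC hβ.le]
  · -- value of x at η
    have hev := B.chain_eval hD (n := nn j) (w := j) (ξ := ξs) (y := fun k => (xs k : X)) hξ0 hchain
      (fun r hr => ⟨B.P_of_P_zero (prop r hr).2.1.2.1 (by have := (prop r hr).1; omega),
        B.P_of_P_eq (prop r hr).2.1.2.2.1 (prop r hr).2.2.1⟩) (nn j) le_rfl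
    rw [← hS, ← hY] at hev
    rw [map_smul, norm_smul, hnormc, hev]
    have : ‖∑ r ∈ S, (β j : ℂ) • B.fn (ξs (r + 1)) (xs r)‖ ≤
        (nn j : ℝ) * (β j * e) := by
      calc _ ≤ ∑ r ∈ S, ‖(β j : ℂ) • B.fn (ξs (r + 1)) (xs r)‖ := norm_sum_le _ _
        _ ≤ ∑ r ∈ S, β j * e := Finset.sum_le_sum fun r hr => by
            rw [norm_smul, Complex.norm_real, Real.norm_eq_abs, abs_of_pos hβ]
            gcongr
            exact (prop r (hSlt r hr)).2.2.2.2.2.2.2.1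
        _ = _ := by rw [Finset.sum_const, hScard, nsmul_eq_mul]
    calc _ ≤ c * ((nn j : ℝ) * (β j * e)) := by gcongr
      _ = (c * (β j * (nn j : ℝ))) * e := by ring
      _ = e := by rw [hcβn, one_mul]
      _ ≤ ε := by nlinarith
  · -- value of T x at η
    obtain ⟨zs, hzs⟩ : ∃ zs : ℕ → X, ∀ r, zs r = B.P (ξs (r + 1)) (T (xs r)) -
        B.P (ξs r + 1) (T (xs r)) := ⟨_, fun _ => rfl⟩
    have hz1 : ∀ r < nn j, B.P (ξs r + 1) (zs r) = 0 ∧ B.P (ξs (r + 1)) (zs r) = zs r := by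
      intro r hr
      have := hlt r hr
      constructor
      · rw [hzs, map_sub, B.P_P, B.P_P, min_self, min_eq_left (by omega), sub_self]
      · rw [hzs, map_sub, B.P_P, B.P_P, min_self, min_eq_right (by omega)]
    have hz2 : ∀ r < nn j, ‖T (xs r) - zs r‖ ≤ 3 * e := by
      intro r hr
      have a1 := (prop r hr).2.2.2.2.2.2.2.2.2
      have a2 := (prop r hr).2.2.2.2.2.2.1
      have a3 : B.P (ξs r + 1) (T (xs r)) =
          B.P (ξs r + 1) (B.P (max (ξs r + 1) N0) (T (xs r))) := by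
        rw [B.P_P, min_eq_left (le_max_left _ _)]
      have a4 : ‖B.P (ξs r + 1) (T (xs r))‖ ≤ 2 * e := by
        rw [a3]; refine (B.norm_P _ _).trans ?_; linarith
      have a5 : T (xs r) - zs r = (T (xs r) - B.P (ξs (r + 1)) (T (xs r))) +
          B.P (ξs r + 1) (T (xs r)) := by rw [hzs]; abel
      rw [a5]
      refine (norm_add_le _ _).trans ?_
      linarith
    have hev := B.chain_eval hD (n := nn j) (w := j) (ξ := ξs) (y := zs) hξ0 hchain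
      hz1 (nn j) le_rfl
    rw [← hS] at hev
    have hTY : T YZ = ∑ r ∈ S, zs r + ∑ r ∈ S, (T (xs r) - zs r) := by
      rw [hYZ, map_sum, ← Finset.sum_add_distrib]
      refine Finset.sum_congr rfl fun r _ => by abel
    have herr : ‖∑ r ∈ S, (T (xs r) - zs r)‖ ≤ (nn j : ℝ) * (3 * e) := by
      calc _ ≤ ∑ r ∈ S, ‖T (xs r) - zs r‖ := norm_sum_le _ _
        _ ≤ ∑ r ∈ S, 3 * e := Finset.sum_le_sum fun r hr => hz2 r (hSlt r hr)
        _ = _ := by rw [Finset.sum_const, nsmul_eq_mul, hScard]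
    have hmain : (nn j : ℝ) * (β j * (δ - 9 * e)) ≤ (f0 (B.co (ξs (nn j)) (∑ r ∈ S, zs r))).re := by
      rw [hev, map_sum, Complex.re_sum]
      have : (nn j : ℝ) * (β j * (δ - 9 * e)) =
          ∑ r ∈ S, β j * (δ - 9 * e) := by
        rw [Finset.sum_const, hScard, nsmul_eq_mul]
      rw [this]
      refine Finset.sum_le_sum fun r hr => ?_
      have hr' := hSlt r hr
      rw [map_smul, smul_eq_mul, Complex.re_ofReal_mul]
      gcongr
      have a1 := (prop r hr').2.2.2.2.2.2.2.2.1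
      have a2 : B.fn (ξs (r + 1)) (zs r) = B.fn (ξs (r + 1)) (T (xs r)) -
          B.fn (ξs (r + 1)) (T (xs r) - zs r) := by rw [← fn_sub]; congr 1; abel
      rw [a2, map_sub, Complex.sub_re]
      have a3 : ‖B.fn (ξs (r + 1)) (T (xs r) - zs r)‖ ≤ 9 * e := by
        refine (B.norm_fn hD (prop r hr').2.2.2.1 _).trans ?_
        have := hz2 r hr'
        linarith
      have a4 := (abs_le.1 (re_f0_le hf0 (B.fn (ξs (r + 1)) (T (xs r) - zs r)))).2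
      linarith
    rw [map_smul, map_smul, map_smul, smul_eq_mul, Complex.re_ofReal_mul, hTY, map_add, map_add,
      Complex.add_re]
    have h2 := (abs_le.1 (re_f0_le hf0 (B.co (ξs (nn j)) (∑ r ∈ S, (T (xs r) - zs r))))).1
    have h3 := (B.norm_co (ξs (nn j)) (∑ r ∈ S, (T (xs r) - zs r))).trans herr
    have h4 : (nn j : ℝ) * (β j * (δ - 9 * e)) - (nn j : ℝ) * (3 * e) ≤
        (f0 (B.co (ξs (nn j)) (∑ r ∈ S, zs r))).re +
        (f0 (B.co (ξs (nn j)) (∑ r ∈ S, (T (xs r) - zs r)))).re := by linarith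
    calc δ / 2 ≤ (δ - 9 * e) - 3 * (e / β j) := by
          have : 0 ≤ e / β j := by positivity
          linarith
      _ = c * ((nn j : ℝ) * (β j * (δ - 9 * e)) - (nn j : ℝ) * (3 * e)) := by
          have : c * ((nn j : ℝ) * (β j * (δ - 9 * e)) - (nn j : ℝ) * (3 * e)) =
            (c * (β j * (nn j : ℝ))) * (δ - 9 * e) - (c * (nn j : ℝ)) * (3 * e) := by ring
          rw [this, hcβn, hcn]; field_simp
      _ ≤ _ := by gcongr
  · -- P_N0 (T x)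
    rw [map_smul, map_smul, norm_smul, hnormc, hYZ, map_sum, map_sum]
    have : ‖∑ r ∈ S, B.P N0 (T (xs r))‖ ≤ (nn j : ℝ) * (2 * e) := by
      calc _ ≤ ∑ r ∈ S, ‖B.P N0 (T (xs r))‖ := norm_sum_le _ _
        _ ≤ ∑ r ∈ S, 2 * e := Finset.sum_le_sum fun r hr => by
            have a3 : B.P N0 (T (xs r)) = B.P N0 (B.P (max (ξs r + 1) N0) (T (xs r))) := by
              rw [B.P_P, min_eq_left (le_max_right _ _)]
            rw [a3]
            refine (B.norm_P _ _).trans ?_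
            have := (prop r (hSlt r hr)).2.2.2.2.2.2.1
            linarith
        _ = _ := by rw [Finset.sum_const, nsmul_eq_mul, hScard]
    calc _ ≤ c * ((nn j : ℝ) * (2 * e)) := by gcongr
      _ = (c * (nn j : ℝ)) * (2 * e) := by ring
      _ = (β j)⁻¹ * (2 * e) := by rw [hcn]
      _ ≤ (β j)⁻¹ * (ε * β j) := by gcongr
      _ = ε := by field_simp

end BD

end Pool.Agent.Helper509.AH
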