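import Pool.Agent.Helper509.AH.Inst

/-! The cutoffs of a frame, and the generators as good operators. -/

namespace Pool.Agent.Helper509.AH

open Filter Topology Pool.Agent.Helper509.FR

variable {H : Type*} [NormedAddCommGroup H] [InnerProductSpace ℂ H] [CompleteSpace H]
variable {ρ : ℕ → ℕ} {G : Stages}

/-- The parameter spaces. -/
noncomputable def XiS (F : Frame H) (r : Rad ρ G) (c : ℕ) : Submodule ℂ (EE H) where
  carrier := {v | (c = 0 → v = 0) ∧ ∃ k, act (F.q k) (F.q (r.R c)) v = v}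
  add_mem' := by
    rintro v w ⟨hv0, k, hv⟩ ⟨hw0, l, hw⟩
    refine ⟨fun h => by rw [hv0 h, hw0 h, add_zero], max k l, ?_⟩
    have h1 : ∀ (k : ℕ) (v : EE H), k ≤ max k l → act (F.q k) (F.q (r.R c)) v = v →
        act (F.q (max k l)) (F.q (r.R c)) v = v := by
      intro k v hk hv
      conv_lhs => rw [← hv]
      rw [act_act, F.q_mul, F.q_mul, min_eq_right hk, min_self, hv]
    have h2 : ∀ (m n : ℕ) (v : EE H), m ≤ n → act (F.q m) (F.q (r.R c)) v = v →
        act (F.q n) (F.q (r.R c)) v = v := by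
      intro m n v hk hv
      conv_lhs => rw [← hv]
      rw [act_act, F.q_mul, F.q_mul, min_eq_right hk, min_self, hv]
    rw [map_add, h2 k _ v (le_max_left _ _) hv, h2 l _ w (le_max_right _ _) hw]
  zero_mem' := ⟨fun _ => rfl, 0, map_zero _⟩
  smul_mem' := by
    rintro z v ⟨hv0, k, hv⟩
    exact ⟨fun h => by rw [hv0 h, smul_zero], k, by rw [map_smul, hv]⟩

lemma mem_XiS {F : Frame H} {r : Rad ρ G} {c : ℕ} {v : EE H} :
    v ∈ XiS F r c ↔ (c = 0 → v = 0) ∧ ∃ k, act (F.q k) (F.q (r.R c)) v = v := Iff.rfl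

lemma act_q_le {F : Frame H} {m n c : ℕ} {v : EE H} (h : m ≤ n)
    (hv : act (F.q m) (F.q c) v = v) : act (F.q n) (F.q c) v = v := by
  conv_lhs => rw [← hv]
  rw [act_act, F.q_mul, F.q_mul, min_eq_right h, min_self, hv]

lemma mem_UU_iff {F : Frame H} {r : Rad ρ G} {t : ℕ} {v : EE H} :
    v ∈ (sys F r).UU t ↔ act (F.q (r.R t)) (F.q (r.R t)) v = v := by
  constructor
  · intro h
    ext b
    rw [act_apply]
    exact h b
  · intro h b
    have h2 := DFunLike.congr_fun h b
    rw [act_apply] at h2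
    exact h2

/-- The cutoffs. -/
noncomputable def cut (F : Frame H) (r : Rad ρ G) : Cut (sys F r).UU where
  j t := act (JJ F r t) 1
  Ξ := XiS F r
  norm_j t := by
    refine (norm_act _ _).trans ?_
    have h1 := norm_JJ F r t
    have h2 : ‖(1 : H →L[ℂ] H)‖ ≤ 1 := ContinuousLinearMap.norm_id_le
    have h3 := norm_nonneg (JJ F r t)
    nlinarith [norm_nonneg (1 : H →L[ℂ] H)]
  norm_j' t := by
    have h0 : ContinuousLinearMap.id ℂ (EE H) - act (JJ F r t) 1 = act (1 - JJ F r t) 1 := by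
      ext v b
      simp [mul_sub]
    rw [h0]
    refine (norm_act _ _).trans ?_
    have h1 := norm_one_sub_JJ F r t
    have h2 : ‖(1 : H →L[ℂ] H)‖ ≤ 1 := ContinuousLinearMap.norm_id_le
    have h3 := norm_nonneg (1 - JJ F r t)
    nlinarith [norm_nonneg (1 : H →L[ℂ] H)]
  j_j s t h v := by
    rw [act_act, JJ_JJ F r h, one_mul]
  j_j' s t h v := by
    rw [act_act, JJ_JJ' F r h, one_mul]
  j_U t v hv := by
    rw [mem_UU_iff] at hv
    conv_lhs => rw [← hv]
    rw [act_act, JJ_mul_q F r le_rfl, mul_one, hv]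
  U_Ξ c hc v hv := by
    rw [mem_UU_iff] at hv
    exact ⟨fun h => absurd h hc, _, hv⟩
  Ξ_zero := by
    rw [eq_bot_iff]
    rintro v ⟨h, -⟩
    exact h rfl
  j_UU s t v hv := by
    rw [mem_UU_iff] at hv ⊢
    rw [act_act, q_comm_JJ, one_mul]
    conv_rhs => rw [← hv]
    rw [act_act, mul_one]
  j_Ξ t c v hv := by
    obtain ⟨h0, k, hk⟩ := hv
    refine ⟨fun h => by rw [h0 h, map_zero], k, ?_⟩
    rw [act_act, q_comm_JJ, one_mul]
    conv_rhs => rw [← hk]
    rw [act_act, mul_one]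
  j_mem t c hct v hv := by
    obtain ⟨h0, k, hk⟩ := hv
    rw [mem_UU_iff]
    have h1 := r.R_succ t
    have h2 : r.R c ≤ r.R (t + 1) := r.R_mono (by omega)
    conv_lhs => rw [← hk]
    conv_rhs => rw [← hk]
    rw [act_act, act_act, act_act, one_mul, mul_one, F.q_mul, min_eq_left h2]
    rw [q_mul_JJ' F r (by omega)]
  j_ev c v hv := by
    obtain ⟨h0, k, hk⟩ := hv
    refine ⟨k, fun t ht => ?_⟩
    conv_lhs => rw [← hk]
    rw [act_act, JJ_mul_q F r (ht.trans (r.R_ge t)), mul_one, hk]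

lemma cut_j (F : Frame H) (r : Rad ρ G) (t : ℕ) : (cut F r).j t = act (JJ F r t) 1 := rfl

lemma cut_Ξ (F : Frame H) (r : Rad ρ G) (c : ℕ) : (cut F r).Ξ c = XiS F r c := rfl

/-- The commutators of the generators and the cutoffs live on the next window. -/
lemma comm_JJ (F : Frame H) (r : Rad ρ G) {i t M : ℕ} (h : max t i + 1 ≤ M) :
    (JJ F r t * F.g i - F.g i * JJ F r t) * JJ F r M = JJ F r t * F.g i - F.g i * JJ F r t := by
  have hM := r.R_lt (show t < M by omega)
  have hM2 := r.R_ge M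
  have h1 : F.g i * JJ F r t * JJ F r M = F.g i * JJ F r t := by
    rw [mul_assoc, JJ_JJ F r (by omega)]
  have h2 : JJ F r t * F.g i * JJ F r M = JJ F r t * F.g i := by
    ext x
    refine ext_inner_right ℂ fun y => ?_
    simp only [mul_apply_eq_comp]
    rw [JJ_sa, F.g_sa, JJ_sa, JJ_sa, F.g_sa]
    congr 1
    have h3 : JJ F r M * (F.g i * JJ F r t) = F.g i * JJ F r t := by
      have h4 := q_g_JJ F r (i := i) (t := t) (m := r.R M) (by omega) (by omega)
      calc JJ F r M * (F.g i * JJ F r t) = JJ F r M * (F.q (r.R M) * (F.g i * JJ F r t)) := by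
            rw [h4]
        _ = F.g i * JJ F r t := by rw [← mul_assoc, JJ_mul_q F r le_rfl, h4]
    exact DFunLike.congr_fun h3 y
  rw [sub_mul, h1, h2]

/-- The generators are good. -/
lemma good (F : Frame H) (r : Rad ρ G) (i : ℕ) :
    (cut F r).Good G (sys F r).ok (act (F.g i) 1) i (2 * ‖F.g i‖ + 1) where
  map_Ξ c v hv := by
    obtain ⟨h0, k, hk⟩ := hv
    refine ⟨fun h => by rw [h0 h, map_zero], max k i + 1, ?_⟩
    have h1 := q_g_q F (i := i) (k := k) (m := max k i + 1) (by omega) (by omega)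
    conv_lhs => rw [← hk]
    conv_rhs => rw [← hk]
    rw [act_act, act_act, act_act, one_mul, mul_one, F.q_mul, min_self]
    rw [mul_assoc, h1]
  loc_hi t v := by
    rw [cut_j, cut_j]
    simp only [act_act, one_mul]
    rw [← act_sub_left, ← act_sub_left]
    congr 1
    have h := comm_JJ F r (i := i) (t := t) (M := max t i + 1) le_rfl
    rw [← mul_assoc, ← mul_assoc, ← sub_mul, h]
  loc_lo t ht v := by
    rw [cut_j, cut_j]
    simp only [act_act, one_mul]
    have h1 := r.R_succ t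
    have h2 := r.R_ge t
    have h4 := q_g_JJ F r (i := i) (t := t) (m := r.R (t + 1)) (by omega) (by omega)
    congr 2
    calc JJ F r (t + 1) * (F.g i * JJ F r t)
        = JJ F r (t + 1) * (F.q (r.R (t + 1)) * (F.g i * JJ F r t)) := by rw [h4]
      _ = F.g i * JJ F r t := by rw [← mul_assoc, JJ_mul_q F r le_rfl, h4]
  norm t n ht hn v := by
    rw [cut_j]
    simp only [act_act, one_mul]
    rw [← act_sub_left]
    refine (norm_act_apply _ _ _).trans ?_
    have h1 : ‖(1 : H →L[ℂ] H)‖ ≤ 1 := ContinuousLinearMap.norm_id_le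
    have h2 := (F.J_avg (K := r.R t) (D := r.L t) (j := i) (r.L_pos t)
      (ht.trans (r.R_ge t))).2
    rw [norm_sub_rev] at h2
    have h3 : ‖JJ F r t * F.g i - F.g i * JJ F r t‖ ≤ 2 * ‖F.g i‖ / r.L t := h2
    have h4 : 2 * ‖F.g i‖ / (r.L t : ℝ) ≤ (2 * ‖F.g i‖ + 1) * (1 / 2) ^ n := by
      have hL : (0 : ℝ) < r.L t := by exact_mod_cast r.L_pos t
      have h5 : n ≤ (t + 2) ^ 2 := by
        have := G.le_sq n
        have h6 : (G.st n + 1) ^ 2 ≤ (t + 2) ^ 2 := Nat.pow_le_pow_left (by omega) 2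
        omega
      have h6 : (2 : ℝ) ^ n ≤ r.L t := by
        have h7 : 2 ^ n ≤ r.L t := (Nat.pow_le_pow_right (by norm_num) h5).trans (r.L_ge t)
        exact_mod_cast h7
      rw [div_le_iff₀ hL, one_div, inv_pow]
      have h8 : (1 : ℝ) ≤ (2 ^ n)⁻¹ * r.L t := by
        rw [inv_mul_eq_div, le_div_iff₀ (by positivity), one_mul]
        exact h6
      have h9 := norm_nonneg (F.g i)
      rw [mul_assoc]
      nlinarith
    have h5 : ‖JJ F r t * F.g i - F.g i * JJ F r t‖ ≤ (2 * ‖F.g i‖ + 1) * (1 / 2) ^ n := h3.trans h4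
    calc ‖JJ F r t * F.g i - F.g i * JJ F r t‖ * ‖(1 : H →L[ℂ] H)‖ * ‖v‖
        ≤ ((2 * ‖F.g i‖ + 1) * (1 / 2) ^ n) * 1 * ‖v‖ := by gcongr
      _ = _ := by ring
  comm n hn A hA v := by
    have hK : (0 : ℝ) ≤ (2 * ‖F.g i‖ + 1) * (1 / 2) ^ n * ‖v‖ := by positivity
    rcases hA with rfl | rfl | ⟨w, hw, c, hc, c', hc', rfl⟩
    · simpa using hK
    · simpa using hK
    · rcases sys_W_mem F r hw with rfl | hW
      · have h0 : act (F.g i) 1 (((1 / 2 : ℂ) • act 1 (c' * c)) v) -
            ((1 / 2 : ℂ) • act 1 (c' * c)) (act (F.g i) 1 v) = 0 := by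
          simp only [smul_apply, map_smul, act_act, one_mul, mul_one]
          rw [sub_self]
        rw [h0, norm_zero]
        exact hK
      · have h1 := hW.2.2 i hn
        have h0 : act (F.g i) 1 (((1 / 2 : ℂ) • act w (c' * c)) v) -
            ((1 / 2 : ℂ) • act w (c' * c)) (act (F.g i) 1 v) =
            (1 / 2 : ℂ) • act (F.g i * w - w * F.g i) (c' * c) v := by
          simp only [smul_apply, map_smul, act_act, one_mul, mul_one]
          rw [act_sub_left, smul_sub]
        rw [h0, norm_smul, HSys.norm_half]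
        have h2 := norm_act_apply (F.g i * w - w * F.g i) (c' * c) v
        have h3 : ‖c' * c‖ ≤ 1 := by
          refine (norm_mul_le _ _).trans ?_
          have a1 := (sys F r).C_norm hc
          have a2 : ‖c'‖ ≤ 1 := by
            rcases hc' with h | rfl
            · exact (sys F r).C_norm h
            · exact ContinuousLinearMap.norm_id_le
          exact mul_le_one₀ a2 (norm_nonneg _) a1
        have h4 : ‖act (F.g i * w - w * F.g i) (c' * c) v‖ ≤ (1 / 2) ^ n * ‖v‖ := by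
          refine h2.trans ?_
          calc ‖F.g i * w - w * F.g i‖ * ‖c' * c‖ * ‖v‖ ≤ (1 / 2) ^ n * 1 * ‖v‖ := by gcongr
            _ = _ := by ring
        have h5 : (0 : ℝ) ≤ ‖F.g i‖ * ((1 / 2) ^ n * ‖v‖) := by positivity
        have h6 : (0 : ℝ) ≤ (1 / 2) ^ n * ‖v‖ := by positivity
        have h7 : (2 * ‖F.g i‖ + 1) * (1 / 2) ^ n * ‖v‖ =
          2 * (‖F.g i‖ * ((1 / 2) ^ n * ‖v‖)) + (1 / 2) ^ n * ‖v‖ := by ring
        rw [h7]
        linarith

end Pool.Agent.Helper509.AH
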