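import Pool.Agent.Helper509.AH.WinCut

namespace Pool.Agent.Helper509.AH

open Filter Topology

variable {E : Type*} [NormedAddCommGroup E] [NormedSpace ℂ E]
variable {X : Type*} [NormedAddCommGroup X] [NormedSpace ℂ X]
variable {D : Nodes E} {ok : ℕ → (E →L[ℂ] E) → Prop}
variable {S : Stages} {UU : ℕ → Submodule ℂ E}

section rel

variable (hmono : Monotone UU) (hD : D.Ok (VV UU S) ok)
    (hE : D.Ext (VV UU S) (UV UU S) S.isB) {B : BD D (VV UU S) X} {J : Cut UU}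

/-! PROOF IN WORDS.
Given ε > 0. Let N1 be from h for a small ε1, and M = st N1 + 1 ≥ 1; Jc from exists_cutoff for M. So for
y ∈ Y0 the vector y - Jc y is in Y0 and dd n (y - Jc y) = 0 for st n < M, in particular for n < N1
(n < N1 → st n ≤ st N1 < M), hence P N1 (y - Jc y) = 0 (prove co n (y - Jc y) = 0 for n < N1: induction on n
showing P n z = 0: if P n z = 0 then co n z = co n (z - P n z) = dd n z = 0, so P (n+1) z = 0 by
P_eq_zero_of_co). Let N2 be from h' for ε2 small, N := max N2 (larger than all n with st n ≤ M, i.e.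
(M+1)^2 + 1). Let x ∈ Y0, P N x = 0. For st n ≤ M: n < N so co n x = 0 and ‖co n (T' x)‖ ≤ ε2 ‖x‖.
T' x is in the closure of Y0: take y ∈ Y0 with ‖T' x - y‖ ≤ ε2 ‖x‖ if ‖x‖ > 0 (x = 0 is trivial; note that
y ∈ Y0 ⊆ Zc). Then ‖co n y‖ ≤ 2 ε2 ‖x‖ for st n ≤ M, so ‖Jc y‖ ≤ 16 ε2 ‖x‖. With z = y - Jc y
(in Y0, ‖z‖ ≤ ‖T' x‖ + 17 ε2 ‖x‖ ≤ (‖T'‖ + 17 ε2) ‖x‖): ‖co γ (T z) - Φ (co γ z)‖ ≤ ε1 ‖z‖, ‖T' x - z‖ ≤ 17 ε2 ‖x‖, so
‖co γ (T (T' x)) - Φ (co γ (T' x))‖ ≤ ε1 ‖z‖ + (‖T‖ + ‖Φ‖) 17 ε2 ‖x‖, and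
‖Φ (co γ (T' x)) - Φ (Φ' (co γ x))‖ ≤ ‖Φ‖ ε2 ‖x‖. Choose ε1 = ε / (2 (‖T'‖ + 1)) first and then
ε2 ≤ 1/17 small. (Jc y : X, T acts on elements of Zc, so use the element ⟨z, _⟩ of Zc.)
-/

include hmono hD hE in
theorem Rel.mul {T T' : Zc B J →L[ℂ] Zc B J} {Φ Φ' : E →L[ℂ] E} (h : Rel B J T Φ)
    (h' : Rel B J T' Φ') : Rel B J (T * T') (Φ.comp Φ') := by
  intro ε hε
  have hT' : 0 < 2 * (‖T'‖ + 1) := by positivity
  obtain ⟨N1, hN1⟩ := h (ε / (2 * (‖T'‖ + 1))) (by positivity)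
  set M := S.st N1 + 1 with hM
  obtain ⟨Jc, q0, hJ1, hJ2, hJ3, hJ4⟩ := exists_cutoff hmono hD hE B J M (by omega)
  set K := 17 * (‖T‖ + ‖Φ‖) + ‖Φ‖ + 1 with hK
  have hKpos : 0 < K := by positivity
  set ε2 := min (1 / 17) (ε / (2 * K)) with hε2
  have hε2pos : 0 < ε2 := lt_min (by norm_num) (by positivity)
  have hε2a : 17 * ε2 ≤ 1 := by
    have := min_le_left (1 / 17 : ℝ) (ε / (2 * K))
    linarith
  have hε2b : K * ε2 ≤ ε / 2 := by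
    have h1 := min_le_right (1 / 17 : ℝ) (ε / (2 * K))
    have h2 : K * ε2 ≤ K * (ε / (2 * K)) := mul_le_mul_of_nonneg_left h1 hKpos.le
    have h3 : K * (ε / (2 * K)) = ε / 2 := by field_simp
    linarith
  obtain ⟨N2, hN2⟩ := h' ε2 hε2pos
  refine ⟨max N2 ((M + 1) ^ 2 + 1), fun x hx hPx γ => ?_⟩
  rcases eq_or_ne x 0 with rfl | hx0
  · simp
  have hxpos : 0 < ‖x‖ := norm_pos_iff.2 hx0
  have hPx2 : B.P N2 (x : X) = 0 := B.P_of_P_zero hPx (le_max_left _ _)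
  have hco : ∀ n, S.st n ≤ M → B.co n (x : X) = 0 := by
    intro n hn
    refine B.co_of_P_zero hPx ?_
    have h1 := S.le_sq n
    have h2 : (S.st n + 1) ^ 2 ≤ (M + 1) ^ 2 := Nat.pow_le_pow_left (by omega) 2
    exact lt_of_lt_of_le (by omega) (le_max_right _ _)
  have hcoT : ∀ n, S.st n ≤ M → ‖B.co n (T' x : X)‖ ≤ ε2 * ‖x‖ := by
    intro n hn
    have h1 := hN2 x hx hPx2 n
    rwa [hco n hn, map_zero, sub_zero] at h1
  obtain ⟨y, hyY, hy⟩ := Metric.mem_closure_iff.1 (T' x).2 (ε2 * ‖x‖) (by positivity)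
  rw [dist_eq_norm] at hy
  have hcoy : ∀ n, S.st n ≤ M → ‖B.co n y‖ ≤ 2 * ε2 * ‖x‖ := by
    intro n hn
    have h1 : B.co n y = B.co n (T' x : X) - B.co n ((T' x : X) - y) := by
      rw [map_sub]; abel
    rw [h1]
    refine (norm_sub_le _ _).trans ?_
    have h2 := hcoT n hn
    have h3 := (B.norm_co n ((T' x : X) - y)).trans hy.le
    linarith
  have hJy := hJ4 y (2 * ε2 * ‖x‖) (by positivity) hcoy
  obtain ⟨ξ, hξ⟩ := hyY
  have hJyY : Jc y ∈ Y0 B J := ⟨_, hJ2 y ξ hξ⟩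
  set z : X := y - Jc y with hz
  have hzY : z ∈ Y0 B J := Submodule.sub_mem _ ⟨ξ, hξ⟩ hJyY
  have hzdd : ∀ n, S.st n < M → B.dd n z = 0 := by
    intro n hn
    rw [hz, B.dd_sub, hJ3 y n hn, sub_self]
  have hzP : ∀ n ≤ N1, B.P n z = 0 := by
    intro n
    induction n with
    | zero => intro _; exact B.P_zero' hD z
    | succ n ih =>
      intro hn
      have ih' := ih (by omega)
      refine B.P_eq_zero_of_co fun δ hδ => ?_
      rcases Nat.lt_succ_iff_lt_or_eq.1 hδ with h1 | h1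
      · exact B.co_of_P_zero ih' h1
      · subst h1
        have h2 := hzdd δ (by have := S.mono (show δ ≤ N1 by omega); omega)
        unfold BD.dd at h2
        rwa [ih', sub_zero] at h2
  have hTz : ‖(T' x : X) - z‖ ≤ 17 * ε2 * ‖x‖ := by
    have h1 : (T' x : X) - z = ((T' x : X) - y) + Jc y := by rw [hz]; abel
    rw [h1]
    refine (norm_add_le _ _).trans ?_
    linarith
  set z' : Zc B J := ⟨z, Submodule.le_topologicalClosure _ hzY⟩ with hz'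
  have hz'n : ‖z'‖ ≤ (‖T'‖ + 1) * ‖x‖ := by
    have h1 : ‖z'‖ = ‖z‖ := rfl
    rw [h1]
    have h2 : z = (T' x : X) - ((T' x : X) - z) := by abel
    have h3 : ‖z‖ ≤ ‖(T' x : X)‖ + ‖(T' x : X) - z‖ := by
      calc ‖z‖ = ‖(T' x : X) - ((T' x : X) - z)‖ := by rw [← h2]
        _ ≤ _ := norm_sub_le _ _
    have h4 : ‖(T' x : X)‖ ≤ ‖T'‖ * ‖x‖ := T'.le_opNorm x
    have h5 : 17 * ε2 * ‖x‖ ≤ 1 * ‖x‖ := mul_le_mul_of_nonneg_right hε2a hxpos.le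
    linarith
  have hTz' : ‖T' x - z'‖ ≤ 17 * ε2 * ‖x‖ := hTz
  have e1 : ‖B.co γ (T z' : X) - Φ (B.co γ z)‖ ≤ ε / (2 * (‖T'‖ + 1)) * ‖z'‖ :=
    hN1 z' hzY (hzP N1 le_rfl) γ
  have e2 : ‖B.co γ ((T (T' x) : Zc B J) : X) - B.co γ (T z' : X)‖ ≤ ‖T‖ * (17 * ε2 * ‖x‖) := by
    have h1 : B.co γ ((T (T' x) : Zc B J) : X) - B.co γ (T z' : X) =
        B.co γ ((T (T' x - z') : Zc B J) : X) := by
      rw [map_sub T, Submodule.coe_sub, map_sub]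
    rw [h1]
    refine (B.norm_co _ _).trans ?_
    have h2 : ‖T (T' x - z')‖ ≤ ‖T‖ * ‖T' x - z'‖ := T.le_opNorm _
    exact h2.trans (mul_le_mul_of_nonneg_left hTz' (ContinuousLinearMap.opNorm_nonneg T))
  have e3 : ‖Φ (B.co γ z) - Φ (B.co γ (T' x : X))‖ ≤ ‖Φ‖ * (17 * ε2 * ‖x‖) := by
    rw [← map_sub, ← map_sub]
    refine (Φ.le_opNorm _).trans (mul_le_mul_of_nonneg_left ?_ (norm_nonneg _))
    refine (B.norm_co _ _).trans ?_
    rw [norm_sub_rev]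
    exact hTz
  have e4 : ‖Φ (B.co γ (T' x : X)) - Φ (Φ' (B.co γ (x : X)))‖ ≤ ‖Φ‖ * (ε2 * ‖x‖) := by
    rw [← map_sub]
    exact (Φ.le_opNorm _).trans (mul_le_mul_of_nonneg_left (hN2 x hx hPx2 γ) (norm_nonneg _))
  have e1' : ε / (2 * (‖T'‖ + 1)) * ‖z'‖ ≤ ε / 2 * ‖x‖ := by
    have h1 := mul_le_mul_of_nonneg_left hz'n (show 0 ≤ ε / (2 * (‖T'‖ + 1)) by positivity)
    have h2 : ε / (2 * (‖T'‖ + 1)) * ((‖T'‖ + 1) * ‖x‖) = ε / 2 * ‖x‖ := by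
      have : ‖T'‖ + 1 ≠ 0 := by positivity
      field_simp
    linarith
  have e5 : K * ε2 * ‖x‖ ≤ ε / 2 * ‖x‖ := mul_le_mul_of_nonneg_right hε2b hxpos.le
  have e6 : 0 ≤ ε2 * ‖x‖ := by positivity
  have key : B.co γ (((T * T') x : Zc B J) : X) - (Φ.comp Φ') (B.co γ (x : X)) =
      (B.co γ ((T (T' x) : Zc B J) : X) - B.co γ (T z' : X)) +
      (B.co γ (T z' : X) - Φ (B.co γ z)) +
      (Φ (B.co γ z) - Φ (B.co γ (T' x : X))) +
      (Φ (B.co γ (T' x : X)) - Φ (Φ' (B.co γ (x : X)))) := by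
    have h1 : ((T * T') x : Zc B J) = T (T' x) := rfl
    have h2 : (Φ.comp Φ') (B.co γ (x : X)) = Φ (Φ' (B.co γ (x : X))) := rfl
    rw [h1, h2]
    abel
  rw [key]
  refine (norm_add_le _ _).trans ?_
  refine (add_le_add_left (norm_add_le _ _) _).trans ?_
  refine (add_le_add_left (add_le_add_left (norm_add_le _ _) _) _).trans ?_
  have : K * ε2 * ‖x‖ = ‖T‖ * (17 * ε2 * ‖x‖) + ‖Φ‖ * (17 * ε2 * ‖x‖) + ‖Φ‖ * (ε2 * ‖x‖) +
      ε2 * ‖x‖ := by rw [hK]; ring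
  linarith

end rel

end Pool.Agent.Helper509.AH
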