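import Pool.Agent.Helper509.AH.WinCut

namespace Pool.Agent.Helper509.AH

open Filter Topology

variable {E : Type*} [NormedAddCommGroup E] [NormedSpace ℂ E]
variable {X : Type*} [NormedAddCommGroup X] [NormedSpace ℂ X]
variable {D : Nodes E} {ok : ℕ → (E →L[ℂ] E) → Prop}
variable {S : Stages} {UU : ℕ → Submodule ℂ E}

section rel

variable (hmono : Monotone UU) (hD : D.Ok (VV UU S) ok)
    (hE : D.Ext (VV UU S) (UV UU S) S.isB) {B : BD D (VV UU S) X} {J : Cut UU}

/-! TARGET -/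

include hD in
theorem P_eq_zero_of_dd (z : X) : ∀ m : ℕ, (∀ n < m, B.dd n z = 0) → B.P m z = 0 := by
  intro m
  induction m with
  | zero => intro _; exact B.P_zero' hD z
  | succ m ih =>
    intro h
    have h1 : B.P m z = 0 := ih fun n hn => h n (by omega)
    refine B.P_eq_zero_of_co fun n hn => ?_
    rcases Nat.lt_succ_iff_lt_or_eq.1 hn with h' | h'
    · exact B.co_of_P_zero h1 h'
    · subst h'
      have h2 := h n (Nat.lt_succ_self n)
      unfold BD.dd at h2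
      rwa [h1, sub_zero] at h2

theorem Zc_dense : Dense {y : Zc B J | (y : X) ∈ Y0 B J} := by
  rw [Subtype.dense_iff]
  intro x hx
  have hx' : x ∈ closure ((Y0 B J : Submodule ℂ X) : Set X) := by
    rw [← Submodule.topologicalClosure_coe]
    exact hx
  refine closure_mono ?_ hx'
  intro y hy
  exact ⟨⟨y, Submodule.le_topologicalClosure _ hy⟩, hy, rfl⟩

include hmono hD hE in
/-- the cutoff on the closed subspace -/
theorem exists_Q (N : ℕ) (hN : 1 ≤ N) : ∃ (Q : Zc B J →L[ℂ] Zc B J) (q0 : ℕ),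
    (∀ y, B.P q0 (Q y : X) = Q y) ∧ (∀ y : Zc B J, (y : X) ∈ Y0 B J → (Q y : X) ∈ Y0 B J) ∧
    (∀ (y : Zc B J) (n : ℕ), S.st n < N → B.dd n (Q y : X) = B.dd n (y : X)) ∧
    (∀ (y : Zc B J) (C : ℝ), 0 ≤ C → (∀ n, S.st n ≤ N → ‖B.co n (y : X)‖ ≤ C) →
      ‖Q y‖ ≤ 8 * C) := by
  obtain ⟨Jc, q0, h1, h2, h3, h4⟩ := exists_cutoff hmono hD hE B J N hN
  have hY : ∀ x ∈ Y0 B J, Jc x ∈ Y0 B J := by
    rintro x ⟨ξ, hξ⟩
    exact ⟨_, h2 x ξ hξ⟩
  have hZ : ∀ x ∈ Zc B J, Jc x ∈ Zc B J := by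
    intro x hx
    have hx' : x ∈ closure ((Y0 B J : Submodule ℂ X) : Set X) := by
      rw [← Submodule.topologicalClosure_coe]
      exact hx
    have h5 : Jc x ∈ closure ((Y0 B J : Submodule ℂ X) : Set X) :=
      map_mem_closure Jc.continuous hx' hY
    rw [← Submodule.topologicalClosure_coe] at h5
    exact h5
  refine ⟨(Jc.comp (Zc B J).subtypeL).codRestrict (Zc B J) fun y => hZ y y.2, q0,
    fun y => h1 y, fun y hy => hY y hy, fun y n hn => h3 y n hn, fun y C hC h => h4 y C hC h⟩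

include hmono hD hE in
theorem small_aux {T : Zc B J →L[ℂ] Zc B J} {Φ : E →L[ℂ] E} (h : Rel B J T Φ) {ε : ℝ}
    (hε : 0 < ε) : ∃ (Q : Zc B J →L[ℂ] Zc B J) (q0 : ℕ), (∀ y, B.P q0 (Q y : X) = Q y) ∧
      Rel B J (T.comp (ContinuousLinearMap.id ℂ _ - Q)) Φ ∧
      ‖T.comp (ContinuousLinearMap.id ℂ _ - Q)‖ ≤ 9 * ‖Φ‖ + ε := by
  obtain ⟨N1, hN1⟩ := h (ε / 9) (by positivity)
  obtain ⟨Q, q0, g1, g2, g3, g4⟩ := exists_Q (B := B) (J := J) hmono hD hE (S.st N1 + 1) (by omega)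
  refine ⟨Q, q0, g1, ?_, ?_⟩
  · intro ε2 hε2
    obtain ⟨N2, hN2⟩ := h ε2 hε2
    refine ⟨max N2 ((S.st N1 + 2) ^ 2 + 1), fun x hx hP γ => ?_⟩
    have hQ : Q x = 0 := by
      have h5 : ‖Q x‖ ≤ 8 * 0 := g4 x 0 le_rfl fun n hn => by
        have h6 := S.le_sq n
        have h7 : (S.st n + 1) ^ 2 ≤ (S.st N1 + 2) ^ 2 := Nat.pow_le_pow_left (by omega) 2
        have h8 : n < max N2 ((S.st N1 + 2) ^ 2 + 1) :=
          lt_of_lt_of_le (by omega) (le_max_right _ _)
        rw [B.co_of_P_zero hP h8, norm_zero]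
      rw [mul_zero] at h5
      exact norm_le_zero_iff.1 h5
    have hT : (T.comp (ContinuousLinearMap.id ℂ _ - Q)) x = T x := by
      simp [hQ]
    rw [hT]
    exact hN2 x hx (B.P_of_P_zero hP (le_max_left _ _)) γ
  · have hc : 0 ≤ 9 * ‖Φ‖ + ε := by positivity
    refine ContinuousLinearMap.opNorm_le_bound _ hc fun y => ?_
    refine Zc_dense.induction (P := fun y : Zc B J =>
      ‖(T.comp (ContinuousLinearMap.id ℂ _ - Q)) y‖ ≤ (9 * ‖Φ‖ + ε) * ‖y‖) ?_ ?_ y
    · intro y hy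
      have hz : ((y - Q y : Zc B J) : X) ∈ Y0 B J := by
        rw [Submodule.coe_sub]
        exact Submodule.sub_mem _ hy (g2 y hy)
      have hP : B.P N1 ((y - Q y : Zc B J) : X) = 0 := by
        refine P_eq_zero_of_dd hD _ N1 fun n hn => ?_
        have h5 : S.st n < S.st N1 + 1 := Nat.lt_succ_of_le (S.mono hn.le)
        rw [Submodule.coe_sub, B.dd_sub, g3 y n h5, sub_self]
      have hn : ‖y - Q y‖ ≤ 9 * ‖y‖ := by
        have h6 : ‖Q y‖ ≤ 8 * ‖y‖ := g4 y ‖y‖ (norm_nonneg _) fun n _ => B.norm_co n _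
        calc ‖y - Q y‖ ≤ ‖y‖ + ‖Q y‖ := norm_sub_le _ _
          _ ≤ ‖y‖ + 8 * ‖y‖ := by gcongr
          _ = 9 * ‖y‖ := by ring
      have hTz : ‖T (y - Q y)‖ ≤ (‖Φ‖ + ε / 9) * ‖y - Q y‖ := by
        refine B.norm_le (T (y - Q y) : X) _ (by positivity) fun γ => ?_
        have h7 := hN1 (y - Q y) hz hP γ
        have h8 : ‖Φ (B.co γ ((y - Q y : Zc B J) : X))‖ ≤ ‖Φ‖ * ‖y - Q y‖ :=
          (Φ.le_opNorm _).trans (mul_le_mul_of_nonneg_left (B.norm_co γ _) (norm_nonneg _))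
        calc ‖B.co γ (T (y - Q y) : X)‖
            = ‖(B.co γ (T (y - Q y) : X) - Φ (B.co γ ((y - Q y : Zc B J) : X))) +
                Φ (B.co γ ((y - Q y : Zc B J) : X))‖ := by rw [sub_add_cancel]
          _ ≤ ε / 9 * ‖y - Q y‖ + ‖Φ‖ * ‖y - Q y‖ := (norm_add_le _ _).trans (add_le_add h7 h8)
          _ = (‖Φ‖ + ε / 9) * ‖y - Q y‖ := by ring
      show ‖T (y - Q y)‖ ≤ (9 * ‖Φ‖ + ε) * ‖y‖
      calc ‖T (y - Q y)‖ ≤ (‖Φ‖ + ε / 9) * ‖y - Q y‖ := hTz
        _ ≤ (‖Φ‖ + ε / 9) * (9 * ‖y‖) := by gcongr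
        _ = (9 * ‖Φ‖ + ε) * ‖y‖ := by ring
    · exact isClosed_le (by fun_prop) (by fun_prop)

include hmono hD hE in
theorem Rel.small {T : Zc B J →L[ℂ] Zc B J} {Φ : E →L[ℂ] E} (h : Rel B J T Φ) {ε : ℝ}
    (hε : 0 < ε) : ∃ T' : Zc B J →L[ℂ] Zc B J, Rel B J T' Φ ∧ ‖T'‖ ≤ 9 * ‖Φ‖ + ε := by
  obtain ⟨Q, q0, -, h2, h3⟩ := small_aux hmono hD hE h hε
  exact ⟨_, h2, h3⟩

/-- an operator with values in the vectors supported below `q0` is compact -/
theorem compact_of_range (hfin : ∀ n, FiniteDimensional ℂ (UU n)) (Q : Zc B J →L[ℂ] Zc B J)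
    (q0 : ℕ) (hQ : ∀ y, B.P q0 (Q y : X) = Q y) : IsCompactOperator Q := by
  let W : Submodule ℂ (Zc B J) :=
    { carrier := {z | B.P q0 (z : X) = z}
      add_mem' := by
        intro a b ha hb
        simp only [Set.mem_ofPred_eq, Submodule.coe_add, map_add] at ha hb ⊢
        rw [ha, hb]
      zero_mem' := by simp
      smul_mem' := by
        intro c a ha
        simp only [Set.mem_ofPred_eq, Submodule.coe_smul, map_smul] at ha ⊢
        rw [ha] }
  have hfin' : ∀ n : Fin q0, FiniteDimensional ℂ (VV UU S n) := fun n => hfin _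
  let L : W →ₗ[ℂ] ((n : Fin q0) → VV UU S n) :=
    { toFun := fun z n => ⟨B.co n ((z : Zc B J) : X), B.co_mem n _⟩
      map_add' := by
        intro a b
        funext n
        exact Subtype.ext (by simp)
      map_smul' := by
        intro c a
        funext n
        exact Subtype.ext (by simp) }
  have hL : Function.Injective L := by
    rw [injective_iff_map_eq_zero]
    intro z hz
    have h1 : ∀ n < q0, B.co n ((z : Zc B J) : X) = 0 := by
      intro n hn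
      have h2 := congrFun hz ⟨n, hn⟩
      exact congrArg Subtype.val h2
    have h3 : B.P q0 ((z : Zc B J) : X) = 0 := B.P_eq_zero_of_co h1
    have h4 : B.P q0 ((z : Zc B J) : X) = ((z : Zc B J) : X) := z.2
    have h5 : ((z : Zc B J) : X) = 0 := h4.symm.trans h3
    exact Subtype.ext (Subtype.ext h5)
  have hW : FiniteDimensional ℂ W := FiniteDimensional.of_injective L hL
  have hpr : ProperSpace W := FiniteDimensional.proper ℂ W
  let Q' : Zc B J →L[ℂ] W := Q.codRestrict W hQ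
  have h6 : IsCompactOperator Q' := isCompactOperator_of_locallyCompactSpace_dom Q'
  exact h6.clm_comp W.subtypeL

include hmono hD hE in
theorem Rel.compact_of_zero [CompleteSpace X] (hfin : ∀ n, FiniteDimensional ℂ (UU n))
    {T : Zc B J →L[ℂ] Zc B J} (h : Rel B J T 0) : IsCompactOperator T := by
  have hcl : IsClosed {f : Zc B J →L[ℂ] Zc B J | IsCompactOperator f} :=
    isClosed_setOfPred_isCompactOperator
  have key : ∀ ε > 0, ∃ b ∈ {f : Zc B J →L[ℂ] Zc B J | IsCompactOperator f}, dist T b < ε := by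
    intro ε hε
    obtain ⟨Q, q0, h1, -, h3⟩ := small_aux hmono hD hE h (half_pos hε)
    refine ⟨T.comp Q, ?_, ?_⟩
    · exact (compact_of_range hfin Q q0 h1).clm_comp T
    · have h4 : T - T.comp Q = T.comp (ContinuousLinearMap.id ℂ _ - Q) := by
        ext y
        simp
      rw [norm_zero, mul_zero, zero_add] at h3
      have h5 : dist T (T.comp Q) = ‖T - T.comp Q‖ :=
        dist_eq_norm (E := Zc B J →L[ℂ] Zc B J) T (T.comp Q)
      rw [h4] at h5
      exact lt_of_le_of_lt (h5.le.trans h3) (half_lt_self hε)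
  have hmem : T ∈ closure {f : Zc B J →L[ℂ] Zc B J | IsCompactOperator f} :=
    Metric.mem_closure_iff.2 key
  rw [hcl.closure_eq] at hmem
  exact hmem

end rel

end Pool.Agent.Helper509.AH
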