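import Pool.Agent.Helper509.AH.WinDef

namespace Pool.Agent.Helper509.AH

open Filter Topology

variable {E : Type*} [NormedAddCommGroup E] [NormedSpace ℂ E]
variable {X : Type*} [NormedAddCommGroup X] [NormedSpace ℂ X]
variable {D : Nodes E} {ok : ℕ → (E →L[ℂ] E) → Prop}
variable {S : Stages} {UU : ℕ → Submodule ℂ E}

section rel

variable (hmono : Monotone UU) (hD : D.Ok (VV UU S) ok)
    (hE : D.Ext (VV UU S) (UV UU S) S.isB) {B : BD D (VV UU S) X} {J : Cut UU}

/-! PROOF IN WORDS.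
Let v ∈ UU t. By hE.rich choose birth nodes γ k ≠ 0, γ k ≥ max k ((t+2)^2) (k ∈ ℕ); as
γ ≤ (st γ + 1)^2, st (γ k) ≥ t so v ∈ UU (st (γ k)). Let x k = B.sv (γ k) v: P (γ k) (x k) = 0,
P (γ k + 1) (x k) = x k, co (γ k) (x k) = v, ‖x k‖ ≤ 2 ‖v‖. x k ∈ Y0 B J: parameters ξ c = v for
c = cp (γ k) = st (γ k) and 0 otherwise (dd (γ k) (x k) = v = J.j (st (γ k)) v by j_U; other dd vanish by
dd_eq_zero_of_P_zero / dd_eq_zero_of_P_eq; J.w S n v = v - v = 0 for cp n = cp (γ k), st n > st (γ k) by j_U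
and hmono). T is compact, so a subsequence T (x (φ k)) converges to some u ∈ Zc. For fixed n:
co n (x k) = 0 for k > n (P k (x k) = 0), and Rel gives ‖co n (T (x k))‖ ≤ ε 2 ‖v‖ for k ≥ N(ε), k > n, so
co n u = 0 for all n, hence u = 0 (ext_co). So T (x (φ k)) → 0, and by Rel
‖Φ v‖ ≤ ‖co (γ k) (T (x k))‖ + ε ‖x k‖ ≤ ‖T (x k)‖ + 2 ε ‖v‖ for k = φ j large. Hence Φ v = 0.
-/

include hmono hD hE in
theorem Rel.zero_of_compact [CompleteSpace X] {T : Zc B J →L[ℂ] Zc B J} {Φ : E →L[ℂ] E}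
    (h : Rel B J T Φ) (hT : IsCompactOperator T) : ∀ t, ∀ v ∈ UU t, Φ v = 0 := by
  intro t v hv
  have hγex : ∀ k : ℕ, ∃ γ, max k ((t + 2) ^ 2) ≤ γ ∧ γ ≠ 0 ∧ S.isB γ := fun k => by
    obtain ⟨γ, h1, h2, h3, -⟩ := hE.rich 0 (max k ((t + 2) ^ 2))
    exact ⟨γ, h1, h2, h3⟩
  choose γ hγ1 hγ2 hγ3 using hγex
  have hst : ∀ k, t + 1 ≤ S.st (γ k) := fun k => by
    have h1 : (t + 2) ^ 2 ≤ (S.st (γ k) + 1) ^ 2 :=
      ((le_max_right k _).trans (hγ1 k)).trans (S.le_sq _)
    have h2 : t + 2 ≤ S.st (γ k) + 1 := le_of_not_gt fun hlt => by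
      have := Nat.pow_lt_pow_left hlt (two_ne_zero)
      omega
    omega
  have hvst : ∀ k, v ∈ UU (S.st (γ k)) := fun k => hmono (by have := hst k; omega) hv
  have hvV : ∀ k, v ∈ VV UU S (γ k) := fun k => hmono (by have := hst k; omega) hv
  have hmem : ∀ k, B.sv (γ k) v ∈ Y0 B J := fun k => by
    obtain ⟨g1, g2, g3, -⟩ := B.sv_spec (hγ2 k) (hvV k)
    have hB : S.cp (γ k) = S.st (γ k) := hγ3 k
    have hs := hst k
    refine ⟨fun c => if c = S.cp (γ k) then v else 0, ⟨γ k + 1, g2⟩, fun c => ?_, fun n hn => ?_⟩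
    · by_cases hc : c = S.cp (γ k)
      · simp only [hc, if_true]
        rw [hB]
        exact J.U_Ξ _ (by omega) (hvst k)
      · simp only [hc, if_false]; exact Submodule.zero_mem _
    · -- same copy and same stage forces equality
      have heq : S.cp n = S.cp (γ k) → S.st n = S.st (γ k) → n = γ k := fun e1 e2 => by
        rw [← S.ix_st n, ← S.ix_st (γ k), e1, e2]
      rcases lt_trichotomy n (γ k) with hlt | rfl | hgt
      · rw [B.dd_eq_zero_of_P_zero g1 hlt]
        have hne : S.cp n ≠ S.cp (γ k) := fun e => by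
          have h1 := S.mono hlt.le
          have h2 := S.cp_le n
          have h3 : S.st n = S.st (γ k) := by omega
          exact hlt.ne (heq e h3)
        simp only [hne, if_false, map_zero]
      · have hd : B.dd (γ k) (B.sv (γ k) v) = v := by
          unfold BD.dd; rw [g1, sub_zero, g3]
        rw [hd]
        simp only [if_true]
        unfold Cut.w
        rw [if_pos hB]
        exact (J.j_U _ v (hvst k)).symm
      · rw [B.dd_eq_zero_of_P_eq g2 hgt]
        by_cases e : S.cp n = S.cp (γ k)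
        · have h1 := S.mono hgt.le
          have h2 : S.st n ≠ S.st (γ k) := fun h3 => hgt.ne' (heq e h3)
          have h3 : ¬ (S.cp n = S.st n) := by omega
          simp only [e, if_true]
          unfold Cut.w
          rw [if_neg h3, _root_.sub_apply, J.j_U _ v (hmono h1 (hvst k)),
            J.j_U _ v (hmono (by omega) (hvst k)), sub_self]
        · simp only [e, if_false, map_zero]
  -- the vectors as elements of the subspace
  have hcl : ∀ k, B.sv (γ k) v ∈ (Y0 B J).topologicalClosure := fun k =>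
    Submodule.le_topologicalClosure _ (hmem k)
  let y : ℕ → Zc B J := fun k => ⟨B.sv (γ k) v, hcl k⟩
  have hyc : ∀ k, (y k : X) = B.sv (γ k) v := fun k => rfl
  have hynorm : ∀ k, ‖y k‖ ≤ 2 * ‖v‖ := fun k => (B.sv_spec (hγ2 k) (hvV k)).2.2.2
  obtain ⟨K, hK, hK'⟩ := hT.image_closedBall_subset_compact (2 * ‖v‖)
  have hTy : ∀ k, T (y k) ∈ K := fun k => hK' ⟨y k, by simpa using hynorm k, rfl⟩
  obtain ⟨u, -, φ, hφ, hu⟩ := hK.tendsto_subseq hTy
  have hu' : Tendsto (fun i => ((T (y (φ i)) : Zc B J) : X)) atTop (𝓝 (u : X)) :=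
    (continuous_subtype_val.tendsto u).comp hu
  have hkφ : ∀ i, i ≤ γ (φ i) := fun i =>
    (hφ.id_le i).trans ((le_max_left _ _).trans (hγ1 (φ i)))
  have hPN : ∀ N i, N ≤ i → B.P N (y (φ i) : X) = 0 := fun N i hi =>
    B.P_of_P_zero (B.sv_spec (hγ2 (φ i)) (hvV (φ i))).1 (hi.trans (hkφ i))
  have hu0 : (u : X) = 0 := by
    refine B.ext_co fun n => ?_
    rw [map_zero]
    have hle : ∀ ε > 0, ‖B.co n (u : X)‖ ≤ ε * (2 * ‖v‖) := fun ε hε => by
      obtain ⟨N, hN⟩ := h ε hε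
      have hlim : Tendsto (fun i => ‖B.co n ((T (y (φ i)) : Zc B J) : X)‖) atTop
          (𝓝 ‖B.co n (u : X)‖) := (((B.co n).continuous.tendsto _).comp hu').norm
      refine le_of_tendsto hlim ?_
      filter_upwards [eventually_ge_atTop (max N (n + 1))] with i hi
      have h1 := hN (y (φ i)) (hmem _) (hPN N i ((le_max_left _ _).trans hi)) n
      have h2 : B.co n (y (φ i) : X) = 0 :=
        B.co_of_P_zero (hPN (n + 1) i ((le_max_right _ _).trans hi)) (Nat.lt_succ_self n)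
      rw [h2, map_zero, sub_zero] at h1
      exact h1.trans (mul_le_mul_of_nonneg_left (hynorm _) hε.le)
    have : ‖B.co n (u : X)‖ ≤ 0 := by
      refine le_of_forall_pos_le_add fun δ hδ => ?_
      rw [zero_add]
      have h1 := hle (δ / (2 * ‖v‖ + 1)) (by positivity)
      refine h1.trans ?_
      rw [div_mul_eq_mul_div, div_le_iff₀ (by positivity)]
      nlinarith [norm_nonneg v]
    exact norm_le_zero_iff.1 this
  rw [hu0] at hu'
  have hfin : ∀ ε > 0, ‖Φ v‖ ≤ ε * (2 * ‖v‖) := fun ε hε => by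
    obtain ⟨N, hN⟩ := h ε hε
    have hlim : Tendsto (fun i => ‖((T (y (φ i)) : Zc B J) : X)‖ + ε * (2 * ‖v‖)) atTop
        (𝓝 (‖(0 : X)‖ + ε * (2 * ‖v‖))) := hu'.norm.add_const _
    rw [norm_zero, zero_add] at hlim
    refine ge_of_tendsto hlim ?_
    filter_upwards [eventually_ge_atTop N] with i hi
    have h1 := hN (y (φ i)) (hmem _) (hPN N i hi) (γ (φ i))
    have h2 : B.co (γ (φ i)) (y (φ i) : X) = v := (B.sv_spec (hγ2 (φ i)) (hvV (φ i))).2.2.1
    rw [h2] at h1
    have h3 : ‖Φ v‖ ≤ ‖B.co (γ (φ i)) ((T (y (φ i)) : Zc B J) : X)‖ +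
        ‖B.co (γ (φ i)) ((T (y (φ i)) : Zc B J) : X) - Φ v‖ := by
      have := norm_sub_le (B.co (γ (φ i)) ((T (y (φ i)) : Zc B J) : X))
        (B.co (γ (φ i)) ((T (y (φ i)) : Zc B J) : X) - Φ v)
      rwa [sub_sub_cancel] at this
    have h4 := B.norm_co (γ (φ i)) ((T (y (φ i)) : Zc B J) : X)
    have h5 := mul_le_mul_of_nonneg_left (hynorm (φ i)) hε.le
    linarith
  have : ‖Φ v‖ ≤ 0 := by
    refine le_of_forall_pos_le_add fun δ hδ => ?_
    rw [zero_add]
    have h1 := hfin (δ / (2 * ‖v‖ + 1)) (by positivity)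
    refine h1.trans ?_
    rw [div_mul_eq_mul_div, div_le_iff₀ (by positivity)]
    nlinarith [norm_nonneg v]
  exact norm_le_zero_iff.1 this

end rel

end Pool.Agent.Helper509.AH
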