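import Pool.Agent.Helper509.AH.RelBasic
import Pool.Agent.Helper509.AH.RelMul
import Pool.Agent.Helper509.AH.RelSmall
import Pool.Agent.Helper509.AH.RelZero

namespace Pool.Agent.Helper509.AH

open Filter Topology

variable {E : Type*} [NormedAddCommGroup E] [NormedSpace ℂ E]
variable {X : Type*} [NormedAddCommGroup X] [NormedSpace ℂ X]
variable {D : Nodes E} {ok : ℕ → (E →L[ℂ] E) → Prop}
variable {S : Stages} {UU : ℕ → Submodule ℂ E}

section rel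

variable (hmono : Monotone UU) (hD : D.Ok (VV UU S) ok)
    (hE : D.Ext (VV UU S) (UV UU S) S.isB) {B : BD D (VV UU S) X} {J : Cut UU}

theorem calkin_iso_abs {Z : Type*} [NormedAddCommGroup Z] [NormedSpace ℂ Z] [CompleteSpace Z]
    {𝔸 : Type*} [NormedRing 𝔸] [NormedAlgebra ℂ 𝔸] [CompleteSpace 𝔸] (UU : ℕ → Submodule ℂ E)
    (lam : 𝔸 →ₐ[ℂ] (E →L[ℂ] E)) (hlam : ∀ a, ‖lam a‖ ≤ ‖a‖)
    (hlam' : ∀ a M, 0 ≤ M → (∀ t, ∀ v ∈ UU t, ‖lam a v‖ ≤ M * ‖v‖) → ‖a‖ ≤ M)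
    (R : (Z →L[ℂ] Z) → (E →L[ℂ] E) → Prop)
    (Radd : ∀ T T' Φ Φ', R T Φ → R T' Φ' → R (T + T') (Φ + Φ'))
    (Rsmul : ∀ (c : ℂ) T Φ, R T Φ → R (c • T) (c • Φ))
    (Rone : R 1 1)
    (Rmul : ∀ T T' Φ Φ', R T Φ → R T' Φ' → R (T * T') (Φ * Φ'))
    (Rbound : ∀ T Φ, R T Φ → ∀ t, ∀ v ∈ UU t, ‖Φ v‖ ≤ 2 * ‖T‖ * ‖v‖)
    (Rsmall : ∀ T Φ, R T Φ → ∀ ε : ℝ, 0 < ε → ∃ T', R T' Φ ∧ ‖T'‖ ≤ 9 * ‖Φ‖ + ε)
    (Rcz : ∀ T, R T 0 → IsCompactOperator T)
    (Rzc : ∀ T Φ, R T Φ → IsCompactOperator T → ∀ t, ∀ v ∈ UU t, Φ v = 0)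
    (H1 : ∀ T : Z →L[ℂ] Z, ∃ a, R T (lam a))
    (G : Set 𝔸) (hG : closure (Algebra.adjoin ℂ G : Set 𝔸) = Set.univ)
    (H2 : ∀ g ∈ G, ∃ T : Z →L[ℂ] Z, R T (lam g)) :
    ∃ φ : (Z →L[ℂ] Z) →ₐ[ℂ] 𝔸, Continuous φ ∧ Function.Surjective φ ∧
      ∀ T, φ T = 0 ↔ IsCompactOperator T := by
  classical
  have uniq : ∀ (T : Z →L[ℂ] Z) (a b : 𝔸), R T (lam a) → R T (lam b) → a = b := by
    intro T a b h1 h2
    have h3 := Radd _ _ _ _ h1 (Rsmul (-1) _ _ h2)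
    have e1 : T + (-1 : ℂ) • T = 0 := by rw [neg_one_smul, add_neg_cancel]
    have e2 : lam a + (-1 : ℂ) • lam b = lam (a - b) := by
      rw [neg_one_smul, map_sub, sub_eq_add_neg]
    rw [e1, e2] at h3
    have h4 := Rbound _ _ h3
    have h5 := hlam' (a - b) 0 le_rfl fun t v hv => by
      have := h4 t v hv
      rwa [norm_zero, mul_zero] at this
    exact sub_eq_zero.1 (norm_le_zero_iff.1 h5)
  choose f hf using H1
  have f_add : ∀ T T', f (T + T') = f T + f T' := fun T T' =>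
    uniq _ _ _ (hf _) (by rw [map_add]; exact Radd _ _ _ _ (hf T) (hf T'))
  have f_smul : ∀ (c : ℂ) T, f (c • T) = c • f T := fun c T =>
    uniq _ _ _ (hf _) (by rw [map_smul]; exact Rsmul c _ _ (hf T))
  have f_one : f 1 = 1 := uniq _ _ _ (hf _) (by rw [map_one]; exact Rone)
  have f_mul : ∀ T T', f (T * T') = f T * f T' := fun T T' =>
    uniq _ _ _ (hf _) (by rw [map_mul]; exact Rmul _ _ _ _ (hf T) (hf T'))
  let φ : (Z →L[ℂ] Z) →ₐ[ℂ] 𝔸 :=
    AlgHom.ofLinearMap { toFun := f, map_add' := f_add, map_smul' := f_smul } f_one f_mul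
  have hφ : ∀ T, φ T = f T := fun _ => rfl
  have hbd : ∀ T, ‖φ T‖ ≤ 2 * ‖T‖ := fun T =>
    hlam' (f T) (2 * ‖T‖) (by positivity) (Rbound _ _ (hf T))
  refine ⟨φ, AddMonoidHomClass.continuous_of_bound φ 2 hbd, ?_, ?_⟩
  · have hsmall : ∀ b ∈ φ.range, ∃ T, φ T = b ∧ ‖T‖ ≤ 10 * ‖b‖ := by
      intro b hb0
      rcases eq_or_ne b 0 with rfl | hb
      · exact ⟨0, map_zero φ, by simp⟩
      · obtain ⟨T, hT⟩ := hb0
        have hb' : 0 < ‖b‖ := norm_pos_iff.2 hb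
        have h1 : R T (lam b) := by
          have hT' : f T = b := hT
          rw [← hT']; exact hf T
        obtain ⟨T', h2, h3⟩ := Rsmall _ _ h1 _ hb'
        refine ⟨T', uniq _ _ _ (hf _) h2, h3.trans ?_⟩
        have := hlam b
        linarith
    let g : NormedAddGroupHom (Z →L[ℂ] Z) 𝔸 :=
      { toFun := φ
        map_add' := map_add φ
        bound' := ⟨2, hbd⟩ }
    let K : AddSubgroup 𝔸 := φ.range.toSubring.toAddSubgroup
    have hK : g.SurjectiveOnWith K 10 := fun b hb => hsmall b hb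
    have h2 := controlled_closure_of_complete (by norm_num : (0 : ℝ) < 10) zero_lt_one hK
    intro a
    have hGle : Algebra.adjoin ℂ G ≤ φ.range := by
      refine Algebra.adjoin_le fun x hx => ?_
      obtain ⟨T, hT⟩ := H2 x hx
      exact ⟨T, uniq _ _ _ (hf _) hT⟩
    have ha : a ∈ K.topologicalClosure := by
      have h3 : a ∈ closure (Algebra.adjoin ℂ G : Set 𝔸) := by rw [hG]; trivial
      exact closure_mono hGle h3
    obtain ⟨T, hT, -⟩ := h2 a ha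
    exact ⟨T, hT⟩
  · intro T
    constructor
    · intro h
      have h1 := hf T
      rw [← hφ, h, map_zero] at h1
      exact Rcz _ h1
    · intro h
      have h1 := Rzc _ _ (hf T) h
      have h2 := hlam' (f T) 0 le_rfl fun t v hv => by rw [h1 t v hv]; simp
      exact norm_le_zero_iff.1 h2

/-! PROOF IN WORDS.
Uniqueness: if Rel T (lam a) and Rel T (lam b) then Rel (T - T) (lam a - lam b) (add, smul), so by bound
‖lam (a-b) v‖ ≤ 2 ‖0‖ ‖v‖ = 0 on all UU t, and hlam' with M = 0 gives a = b. Let φ T be the a of H1. It is an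
algebra homomorphism by Rel.add, smul, mul, one and uniqueness (lam is an algebra hom; 1 in E →L E is
the identity, multiplication is composition). ‖φ T‖ ≤ 2 ‖T‖ by bound and hlam', so φ is continuous.
Surjective: the range 𝒜 = {a | ∃ T, Rel T (lam a)} is a subalgebra (it is the range of φ) containing G, so it
contains Algebra.adjoin ℂ G, which is dense. It is closed: let a be in the closure; choose a_n in 𝒜 with
‖a_n - a‖ ≤ (1/2)^n; b_0 = a_0, b_(n+1) = a_(n+1) - a_n ∈ 𝒜, ‖b_(n+1)‖ ≤ 2 (1/2)^n; by Rel.small choose T_n with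
Rel T_n (lam b_n), ‖T_n‖ ≤ 9 ‖lam b_n‖ + (1/2)^n ≤ 9 ‖b_n‖ + (1/2)^n. The series sum T_n converges absolutely
to T' (Zc is complete, so the operator space is complete); the partial sums satisfy
Rel (sum_{k≤n} T_k) (lam a_n), lam a_n → lam a (continuity of lam from hlam), so Rel T' (lam a) by Rel.lim.
Kernel: if φ T = 0 then Rel T 0 (lam 0 = 0), so T is compact by compact_of_zero; if T is compact then
lam (φ T) v = 0 for all v ∈ UU t (zero_of_compact), so φ T = 0 by hlam' with M = 0.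
-/

include hmono hD hE in
theorem calkin_iso [CompleteSpace X] (hfin : ∀ n, FiniteDimensional ℂ (UU n))
    {𝔸 : Type*} [NormedRing 𝔸] [NormedAlgebra ℂ 𝔸] [CompleteSpace 𝔸]
    (lam : 𝔸 →ₐ[ℂ] (E →L[ℂ] E)) (hlam : ∀ a, ‖lam a‖ ≤ ‖a‖)
    (hlam' : ∀ a M, 0 ≤ M → (∀ t, ∀ v ∈ UU t, ‖lam a v‖ ≤ M * ‖v‖) → ‖a‖ ≤ M)
    (H1 : ∀ T : Zc B J →L[ℂ] Zc B J, ∃ a, Rel B J T (lam a))
    (G : Set 𝔸) (hG : closure (Algebra.adjoin ℂ G : Set 𝔸) = Set.univ)
    (H2 : ∀ g ∈ G, ∃ T : Zc B J →L[ℂ] Zc B J, Rel B J T (lam g)) :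
    ∃ φ : (Zc B J →L[ℂ] Zc B J) →ₐ[ℂ] 𝔸, Continuous φ ∧ Function.Surjective φ ∧
      ∀ T, φ T = 0 ↔ IsCompactOperator T :=
  calkin_iso_abs UU lam hlam hlam' (fun T Φ => Rel B J T Φ)
    (fun _ _ _ _ h h' => Rel.add h h') (fun c _ _ h => Rel.smul c h) Rel.one
    (fun _ _ _ _ h h' => Rel.mul hmono hD hE h h')
    (fun _ _ h => Rel.bound hmono hD hE h)
    (fun _ _ h _ hε => Rel.small hmono hD hE h hε)
    (fun _ h => Rel.compact_of_zero hmono hD hE hfin h)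
    (fun _ _ h hT => Rel.zero_of_compact hmono hD hE h hT) H1 G hG H2

end rel

end Pool.Agent.Helper509.AH
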