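import Pool.Agent.Helper509.AH.WinExt

namespace Pool.Agent.Helper509.AH

open Filter Topology

variable {E : Type*} [NormedAddCommGroup E] [NormedSpace ℂ E]
variable {X : Type*} [NormedAddCommGroup X] [NormedSpace ℂ X]
variable {D : Nodes E} {ok : ℕ → (E →L[ℂ] E) → Prop}
variable {S : Stages} {UU : ℕ → Submodule ℂ E}

/-! PROOF IN WORDS.
For x : X define d_x n := dd n x if st n < N; J.j N (dd n x) if st n = N and cp n < N;
(id - J.j N) (dd (ix N (cp n)) x) if st n = N + 1 and cp n < N; 0 otherwise. d_x n ∈ VV UU S n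
(co_mem for dd, j_UU, hmono). Let q0 be the least n with st n > N + 1 (exists since n ≤ (st n + 1)^2),
so n < q0 ↔ st n ≤ N + 1 (monotone). Let Jc x := the unique z with P q0 z = z, dd n z = d_x n for all
n ≠ 0 (exists_dd, ext_dd; for n ≥ q0 both sides are 0). Linear by uniqueness. Bound: suppose
‖co n x‖ ≤ C for st n ≤ N. Non-birth n ≠ 0: co n y = dd n y for every y (cont_par, cont_A, co_eq).
 - st n < N: co n z = co n x (all dd δ z = dd δ x for δ ≤ n; e.g. P (n+1) z = P (n+1) x by ext_dd), ≤ C.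
 - st n = N, not birth: ‖co n z‖ = ‖J.j N (co n x)‖ ≤ C. st n = N + 1, not birth: ‖dd n z‖ ≤
   ‖co (ix N (cp n)) x‖ ≤ C if cp n < N (norm_j'), and 0 otherwise.
 - birth with st n = N (n = ix N N): dd n z = 0, so ‖co n z‖ ≤ ‖co (par n) z‖ + (1/4) ‖fn n z‖ and
   ‖fn n z‖ ≤ max_i ‖co (η i) (z - P (s i) z)‖ ≤ C + 2 C (norm_fn_le; η i, par n < n are of one of the kinds
   above; if s i > η i the value is 0 (co_P), otherwise ‖P (s i) z‖ ≤ 2 C by norm_P_le). So ≤ 7C/4.
 - birth with st n = N + 1: dd n z = 0; the same with 7C/4 in place of C: ≤ 7C/4 + 21C/16 ≤ 4 C.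
So ‖co n z‖ ≤ 4 C for n < q0 and ‖z‖ = ‖P q0 z‖ ≤ 8 C (norm_P_le). In particular ‖Jc x‖ ≤ 8 ‖x‖.
dd n (Jc x) = dd n x for st n < N (for n = 0 both are 0: co_zero).
Parameters: if x has parameters ξ then z has parameters ξ' c = if c < N then J.j N (ξ c) else 0 (in Ξ c by
j_Ξ). Check with t = st n, c = cp n < N: t < N: J.j t (J.j N v) = J.j t v, also for t - 1 (j_j);
t = N: (j N - j (N-1)) (j N v) = j N (j N v - j (N-1) v) by j_j, j_j'; t = N+1:
(j (N+1) - j N)(j N v) = j N v - j N (j N v) = (id - j N)(j N v - j (N-1) v);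
t ≥ N + 2: j N v - j N v = 0. For c ≥ N both sides 0 (note ix N c ≠ 0 as N ≥ 1).
-/

open scoped Classical in
noncomputable def exists_cutoff_d (B : BD D (VV UU S) X) (J : Cut UU) (N : ℕ) (x : X) (n : ℕ) : E :=
  if S.st n < N then B.dd n x else
  if S.st n = N ∧ S.cp n < N then J.j N (B.dd n x) else
  if S.st n = N + 1 ∧ S.cp n < N then (ContinuousLinearMap.id ℂ E - J.j N) (B.dd (S.ix N (S.cp n)) x)
  else 0

theorem exists_cutoff_d_add (B : BD D (VV UU S) X) (J : Cut UU) (N : ℕ) (x y : X) (n : ℕ) :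
    exists_cutoff_d B J N (x + y) n = exists_cutoff_d B J N x n + exists_cutoff_d B J N y n := by
  unfold exists_cutoff_d
  split_ifs
  · exact B.dd_add _ _ _
  · rw [B.dd_add, map_add]
  · rw [B.dd_add, map_add]
  · rw [add_zero]

theorem exists_cutoff_d_smul (B : BD D (VV UU S) X) (J : Cut UU) (N : ℕ) (c : ℂ) (x : X) (n : ℕ) :
    exists_cutoff_d B J N (c • x) n = c • exists_cutoff_d B J N x n := by
  unfold exists_cutoff_d
  split_ifs
  · exact B.dd_smul _ _ _
  · rw [B.dd_smul, map_smul]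
  · rw [B.dd_smul, map_smul]
  · rw [smul_zero]

theorem exists_cutoff_q0 (S : Stages) (N : ℕ) : ∃ q0 : ℕ, (∀ n, n < q0 → S.st n ≤ N + 1) ∧
    ∀ n, q0 ≤ n → N + 1 < S.st n := by
  classical
  have hex : ∃ n, N + 1 < S.st n := by
    refine ⟨(N + 2) ^ 2 + 1, ?_⟩
    by_contra h
    have h1 := S.le_sq ((N + 2) ^ 2 + 1)
    have h2 : S.st ((N + 2) ^ 2 + 1) + 1 ≤ N + 2 := by omega
    have h3 := Nat.pow_le_pow_left h2 2
    omega
  refine ⟨Nat.find hex, fun n hn => ?_, fun n hn => ?_⟩
  · have := Nat.find_min hex hn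
    omega
  · exact lt_of_lt_of_le (Nat.find_spec hex) (S.mono hn)

theorem exists_cutoff_mem (hmono : Monotone UU) (B : BD D (VV UU S) X) (J : Cut UU) (N : ℕ) (x : X)
    (n : ℕ) : exists_cutoff_d B J N x n ∈ VV UU S n := by
  unfold exists_cutoff_d
  split_ifs with h1 h2 h3
  · exact B.co_mem _ _
  · exact J.j_UU _ _ _ (B.co_mem _ _)
  · have h4 : B.dd (S.ix N (S.cp n)) x ∈ VV UU S n := by
      have h5 : B.dd (S.ix N (S.cp n)) x ∈ VV UU S (S.ix N (S.cp n)) := B.co_mem _ _
      unfold VV at h5 ⊢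
      rw [S.st_ix _ _ h3.2.le] at h5
      rw [h3.1]
      exact hmono (Nat.le_succ _) h5
    have h6 : (ContinuousLinearMap.id ℂ E - J.j N) (B.dd (S.ix N (S.cp n)) x) =
        B.dd (S.ix N (S.cp n)) x - J.j N (B.dd (S.ix N (S.cp n)) x) := rfl
    rw [h6]
    exact Submodule.sub_mem _ h4 (J.j_UU _ _ _ h4)
  · exact Submodule.zero_mem _

theorem exists_cutoff_ddP {V : ℕ → Submodule ℂ E} (B : BD D V X) {k m : ℕ} (h : k < m) (x : X) :
    B.dd k (B.P m x) = B.dd k x := by
  unfold BD.dd
  rw [B.P_P, min_eq_left h.le, map_sub, map_sub, B.co_P m k x h]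

theorem exists_cutoff_birth {V : ℕ → Submodule ℂ E} (hD : D.Ok V ok) (B : BD D V X) {n : ℕ}
    (hn : n ≠ 0) {z : X} {C : ℝ} (hC : 0 ≤ C) (h0 : B.dd n z = 0)
    (h : ∀ δ < n, ‖B.co δ z‖ ≤ C) : ‖B.co n z‖ ≤ 7 / 4 * C := by
  have h1 : ‖B.fn n z‖ ≤ 3 * C := by
    refine B.norm_fn_le hD hn fun i => ?_
    have hη := hD.η_lt n i hn
    by_cases hs : D.η n i < D.s n i
    · rw [map_sub, B.co_P _ _ _ hs, sub_self, norm_zero]; positivity
    · rw [map_sub]
      have h2 : ‖B.P (D.s n i) z‖ ≤ 2 * C :=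
        B.norm_P_le _ z C hC fun γ hγ => h γ (by omega)
      calc ‖B.co (D.η n i) z - B.co (D.η n i) (B.P (D.s n i) z)‖
          ≤ ‖B.co (D.η n i) z‖ + ‖B.co (D.η n i) (B.P (D.s n i) z)‖ := norm_sub_le _ _
        _ ≤ C + 2 * C := add_le_add (h _ hη) ((B.norm_co _ _).trans h2)
        _ = 3 * C := by ring
  rw [B.co_eq n z hn, h0, add_zero]
  have hβ := β_pos (D.wt n)
  have hβ' := β_le (D.wt n)
  calc ‖B.co (D.par n) z + (β (D.wt n) : ℂ) • B.fn n z‖
      ≤ ‖B.co (D.par n) z‖ + ‖(β (D.wt n) : ℂ) • B.fn n z‖ := norm_add_le _ _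
    _ ≤ C + 1 / 4 * (3 * C) := by
        refine add_le_add (h _ (hD.par_lt n hn)) ?_
        rw [norm_smul]
        simp only [Complex.norm_real, Real.norm_eq_abs, abs_of_pos hβ]
        exact mul_le_mul hβ' h1 (norm_nonneg _) (by norm_num)
    _ = 7 / 4 * C := by ring

theorem exists_cutoff_par (B : BD D (VV UU S) X) (J : Cut UU) (N : ℕ) (hN : 1 ≤ N) {x : X}
    {ξ : ℕ → E} (hξ : HasPar B J x ξ) (n : ℕ) (hn : n ≠ 0) :
    exists_cutoff_d B J N x n = J.w S n (if S.cp n < N then J.j N (ξ (S.cp n)) else 0) := by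
  have hcp := S.cp_le n
  by_cases hc : S.cp n < N
  · rw [if_pos hc]
    unfold exists_cutoff_d
    by_cases h1 : S.st n < N
    · rw [if_pos h1, hξ.2.2 n hn]
      unfold Cut.w
      split_ifs with hb
      · rw [J.j_j _ _ h1]
      · show J.j (S.st n) (ξ (S.cp n)) - J.j (S.st n - 1) (ξ (S.cp n)) =
          J.j (S.st n) (J.j N (ξ (S.cp n))) - J.j (S.st n - 1) (J.j N (ξ (S.cp n)))
        rw [J.j_j _ _ h1, J.j_j _ _ (by omega)]
    · rw [if_neg h1]
      by_cases h2 : S.st n = N
      · rw [if_pos ⟨h2, hc⟩, hξ.2.2 n hn]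
        unfold Cut.w
        rw [if_neg (by omega), h2]
        show J.j N (J.j N (ξ (S.cp n)) - J.j (N - 1) (ξ (S.cp n))) =
          J.j N (J.j N (ξ (S.cp n))) - J.j (N - 1) (J.j N (ξ (S.cp n)))
        rw [map_sub, J.j_j _ _ (show N - 1 < N by omega), J.j_j' _ _ (show N - 1 < N by omega)]
      · rw [if_neg (fun h => h2 h.1)]
        by_cases h3 : S.st n = N + 1
        · rw [if_pos ⟨h3, hc⟩]
          have hs1 : S.st (S.ix N (S.cp n)) = N := S.st_ix _ _ hc.le
          have hs2 : S.cp (S.ix N (S.cp n)) = S.cp n := S.cp_ix _ _ hc.le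
          have hne : S.ix N (S.cp n) ≠ 0 := by
            intro h
            rw [h, S.zero] at hs1
            omega
          rw [hξ.2.2 _ hne]
          unfold Cut.w
          rw [hs1, hs2, h3, if_neg (by omega), if_neg (by omega)]
          show (J.j N (ξ (S.cp n)) - J.j (N - 1) (ξ (S.cp n))) -
            J.j N (J.j N (ξ (S.cp n)) - J.j (N - 1) (ξ (S.cp n))) =
            J.j (N + 1) (J.j N (ξ (S.cp n))) - J.j (N + 1 - 1) (J.j N (ξ (S.cp n)))
          rw [map_sub, J.j_j' _ _ (show N - 1 < N by omega), J.j_j' _ _ (show N < N + 1 by omega)]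
          simp
        · rw [if_neg (fun h => h3 h.1)]
          unfold Cut.w
          rw [if_neg (by omega)]
          show (0 : E) = J.j (S.st n) (J.j N (ξ (S.cp n))) - J.j (S.st n - 1) (J.j N (ξ (S.cp n)))
          rw [J.j_j' _ _ (by omega), J.j_j' _ _ (by omega), sub_self]
  · rw [if_neg hc, map_zero]
    unfold exists_cutoff_d
    rw [if_neg (by omega), if_neg (fun h => hc h.2), if_neg (fun h => hc h.2)]

theorem exists_cutoff (hmono : Monotone UU) (hD : D.Ok (VV UU S) ok)
    (hE : D.Ext (VV UU S) (UV UU S) S.isB) (B : BD D (VV UU S) X) (J : Cut UU) (N : ℕ)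
    (hN : 1 ≤ N) : ∃ (Jc : X →L[ℂ] X) (q0 : ℕ), (∀ x, B.P q0 (Jc x) = Jc x) ∧
      (∀ x ξ, HasPar B J x ξ → HasPar B J (Jc x) (fun c => if c < N then J.j N (ξ c) else 0)) ∧
      (∀ x n, S.st n < N → B.dd n (Jc x) = B.dd n x) ∧
      (∀ x C, 0 ≤ C → (∀ n, S.st n ≤ N → ‖B.co n x‖ ≤ C) → ‖Jc x‖ ≤ 8 * C) := by
  classical
  have hV : Monotone (VV UU S) := fun a b h => hmono (Nat.succ_le_succ (S.mono h))
  obtain ⟨q0, hq0, hq1⟩ := exists_cutoff_q0 S N
  have hdm := exists_cutoff_mem hmono B J N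
  have hex : ∀ x : X, ∃ z : X, B.P q0 z = z ∧ ∀ n, n ≠ 0 → B.dd n z = exists_cutoff_d B J N x n := by
    intro x
    obtain ⟨z, h1, h2⟩ := exists_dd hD hV B q0 (exists_cutoff_d B J N x) (hdm x)
    refine ⟨z, h1, fun n hn => ?_⟩
    by_cases hlt : n < q0
    · exact h2 n hn hlt
    · rw [B.dd_eq_zero_of_P_eq h1 (not_lt.1 hlt)]
      have h3 := hq1 n (not_lt.1 hlt)
      unfold exists_cutoff_d
      rw [if_neg (by omega), if_neg (by omega), if_neg (by omega)]
  choose z hz1 hz2 using hex
  have hadd : ∀ x y, z (x + y) = z x + z y := by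
    intro x y
    refine ext_dd hD B (hz1 _) (q := q0) (by rw [map_add, hz1, hz1]) fun n hn => ?_
    rw [B.dd_add, hz2 _ n hn, hz2 _ n hn, hz2 _ n hn, exists_cutoff_d_add]
  have hsmul : ∀ (c : ℂ) x, z (c • x) = c • z x := by
    intro c x
    refine ext_dd hD B (hz1 _) (q := q0) (by rw [map_smul, hz1]) fun n hn => ?_
    rw [B.dd_smul, hz2 _ n hn, hz2 _ n hn, exists_cutoff_d_smul]
  have hbound : ∀ x C, 0 ≤ C → (∀ n, S.st n ≤ N → ‖B.co n x‖ ≤ C) → ‖z x‖ ≤ 8 * C := by
    intro x C hC hx
    have hcont : ∀ n, ¬ S.isB n → ∀ y, B.co n y = B.dd n y := by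
      intro n hn y
      have hn0 : n ≠ 0 := by
        rintro rfl
        apply hn
        have := S.cp_le 0
        rw [S.zero] at this
        show S.cp 0 = S.st 0
        rw [S.zero]; omega
      rw [B.co_eq n y hn0, hE.cont_par n hn, B.co_zero]
      unfold BD.fn
      simp [hE.cont_A n _ hn]
    have hlow : ∀ n, S.st n < N → ‖B.co n (z x)‖ ≤ C := by
      intro n hn
      by_cases hn0 : n = 0
      · rw [hn0, B.co_zero, norm_zero]; exact hC
      have h1 : B.P (n + 1) (z x) = B.P (n + 1) x := by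
        refine ext_dd hD B (q := n + 1) (by rw [B.P_P, min_self]) (by rw [B.P_P, min_self])
          fun k hk => ?_
        by_cases hkn : k < n + 1
        · rw [exists_cutoff_ddP B hkn, exists_cutoff_ddP B hkn, hz2 x k hk]
          have h2 : S.st k ≤ S.st n := S.mono (by omega)
          unfold exists_cutoff_d
          rw [if_pos (by omega)]
        · rw [B.dd_eq_zero_of_P_eq (q := n + 1) (by rw [B.P_P, min_self]) (not_lt.1 hkn),
            B.dd_eq_zero_of_P_eq (q := n + 1) (by rw [B.P_P, min_self]) (not_lt.1 hkn)]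
      rw [← B.co_P (n + 1) n (z x) (Nat.lt_succ_self n), h1, B.co_P (n + 1) n x (Nat.lt_succ_self n)]
      exact hx n hn.le
    have hst0 : S.st 0 ≠ N := by rw [S.zero]; omega
    have hmidN : ∀ n, S.st n = N → ¬ S.isB n → ‖B.co n (z x)‖ ≤ C := by
      intro n hn hb
      have hn0 : n ≠ 0 := by rintro rfl; exact hst0 hn
      have hcp : S.cp n < N := by
        have h1 := S.cp_le n
        have h2 : S.cp n ≠ S.st n := hb
        omega
      rw [hcont n hb, hz2 x n hn0]
      unfold exists_cutoff_d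
      rw [if_neg (by omega), if_pos ⟨hn, hcp⟩, ← hcont n hb]
      calc ‖J.j N (B.co n x)‖ ≤ ‖J.j N‖ * ‖B.co n x‖ := (J.j N).le_opNorm _
        _ ≤ 1 * C := mul_le_mul (J.norm_j N) (hx n hn.le) (norm_nonneg _) zero_le_one
        _ = C := one_mul C
    have hmidN1 : ∀ n, S.st n = N + 1 → ¬ S.isB n → ‖B.co n (z x)‖ ≤ C := by
      intro n hn hb
      have hn0 : n ≠ 0 := by rintro rfl; rw [S.zero] at hn; omega
      rw [hcont n hb, hz2 x n hn0]
      unfold exists_cutoff_d
      rw [if_neg (by omega), if_neg (by omega)]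
      by_cases hcp : S.cp n < N
      · rw [if_pos ⟨hn, hcp⟩]
        have hs1 : S.st (S.ix N (S.cp n)) = N := S.st_ix _ _ hcp.le
        have hs2 : S.cp (S.ix N (S.cp n)) = S.cp n := S.cp_ix _ _ hcp.le
        have hb' : ¬ S.isB (S.ix N (S.cp n)) := by
          show ¬ (S.cp _ = S.st _)
          rw [hs1, hs2]; omega
        rw [← hcont _ hb']
        calc ‖(ContinuousLinearMap.id ℂ E - J.j N) (B.co (S.ix N (S.cp n)) x)‖
            ≤ ‖ContinuousLinearMap.id ℂ E - J.j N‖ * ‖B.co (S.ix N (S.cp n)) x‖ :=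
              (ContinuousLinearMap.id ℂ E - J.j N).le_opNorm _
          _ ≤ 1 * C := mul_le_mul (J.norm_j' N) (hx _ hs1.le) (norm_nonneg _) zero_le_one
          _ = C := one_mul C
      · rw [if_neg (by omega), norm_zero]; exact hC
    have hbirthN : ∀ n, S.st n = N → ‖B.co n (z x)‖ ≤ 7 / 4 * C := by
      intro n hn
      by_cases hb : S.isB n
      · have hn0 : n ≠ 0 := by rintro rfl; exact hst0 hn
        refine exists_cutoff_birth hD B hn0 hC ?_ ?_
        · have hb' : S.cp n = S.st n := hb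
          rw [hz2 x n hn0]
          unfold exists_cutoff_d
          rw [if_neg (by omega), if_neg (by omega), if_neg (by omega)]
        · intro δ hδ
          have h1 : S.st δ ≤ S.st n := S.mono hδ.le
          rcases lt_or_eq_of_le (hn ▸ h1) with h2 | h2
          · exact hlow δ h2
          · apply hmidN δ h2
            intro hb2
            have hb' : S.cp n = S.st n := hb
            have hb2' : S.cp δ = S.st δ := hb2
            have e1 := S.ix_st n
            have e2 := S.ix_st δ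
            rw [hb', hn] at e1
            rw [hb2', h2] at e2
            omega
      · have := hmidN n hn hb
        linarith
    have hall : ∀ n, n < q0 → ‖B.co n (z x)‖ ≤ 4 * C := by
      intro n hn
      have h1 := hq0 n hn
      by_cases h2 : S.st n = N + 1
      · by_cases hb : S.isB n
        · have hn0 : n ≠ 0 := by rintro rfl; rw [S.zero] at h2; omega
          have h3 : ‖B.co n (z x)‖ ≤ 7 / 4 * (7 / 4 * C) := by
            refine exists_cutoff_birth hD B hn0 (by positivity) ?_ ?_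
            · have hb' : S.cp n = S.st n := hb
              rw [hz2 x n hn0]
              unfold exists_cutoff_d
              rw [if_neg (by omega), if_neg (by omega), if_neg (by omega)]
            · intro δ hδ
              have h4 : S.st δ ≤ S.st n := S.mono hδ.le
              by_cases h5 : S.st δ = N + 1
              · have h6 : ‖B.co δ (z x)‖ ≤ C := by
                  apply hmidN1 δ h5
                  intro hb2
                  have hb' : S.cp n = S.st n := hb
                  have hb2' : S.cp δ = S.st δ := hb2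
                  have e1 := S.ix_st n
                  have e2 := S.ix_st δ
                  rw [hb', h2] at e1
                  rw [hb2', h5] at e2
                  omega
                linarith
              · by_cases h6 : S.st δ = N
                · exact hbirthN δ h6
                · have := hlow δ (by omega)
                  linarith
          linarith
        · have := hmidN1 n h2 hb
          linarith
      · by_cases h3 : S.st n = N
        · have := hbirthN n h3
          linarith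
        · have := hlow n (by omega)
          linarith
    have := B.norm_P_le q0 (z x) (4 * C) (by positivity) hall
    rw [hz1] at this
    linarith
  refine ⟨LinearMap.mkContinuous ⟨⟨z, hadd⟩, hsmul⟩ 8 (fun x => hbound x ‖x‖ (norm_nonneg _)
    (fun n _ => B.norm_co n x)), q0, fun x => hz1 x, ?_, ?_, fun x C hC hx => hbound x C hC hx⟩
  · intro x ξ hξ
    refine ⟨⟨q0, hz1 x⟩, fun c => ?_, fun n hn => ?_⟩
    · show (if c < N then J.j N (ξ c) else 0) ∈ J.Ξ c
      by_cases hc : c < N
      · rw [if_pos hc]; exact J.j_Ξ N c _ (hξ.2.1 c)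
      · rw [if_neg hc]; exact Submodule.zero_mem _
    · show B.dd n (z x) = J.w S n (if S.cp n < N then J.j N (ξ (S.cp n)) else 0)
      rw [hz2 x n hn]
      exact exists_cutoff_par B J N hN hξ n hn
  · intro x n hn
    show B.dd n (z x) = B.dd n x
    by_cases hn0 : n = 0
    · rw [hn0]; unfold BD.dd; rw [B.co_zero, B.co_zero]
    · rw [hz2 x n hn0]
      unfold exists_cutoff_d
      rw [if_pos hn]

end Pool.Agent.Helper509.AH
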