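import Pool.Agent.Helper509.AH.WinEst
import Pool.Agent.Helper509.AH.WinCut

namespace Pool.Agent.Helper509.AH

open Filter Topology

variable {E : Type*} [NormedAddCommGroup E] [NormedSpace ℂ E]
variable {X : Type*} [NormedAddCommGroup X] [NormedSpace ℂ X]
variable {D : Nodes E} {ok : ℕ → (E →L[ℂ] E) → Prop}
variable {S : Stages} {UU : ℕ → Submodule ℂ E}

/-! PROOF IN WORDS.
Apply mult_est with ε = 1: N1. Choose N ≥ 1 with: st n ≥ N ⇒ ... more precisely N such that every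
n < N1 has st n < N (e.g. N = st N1 + 1), and Jc, q0 from exists_cutoff for N. For x ∈ Y0 with parameters
ξ (unique: par_unique) the vector x - Jc x is in Y0, with parameters ξ - ξ' (linear), and
dd n (x - Jc x) = 0 for n < N1, so P N1 (x - Jc x) = 0 (co n = 0 for n < N1 by induction, or ext_dd /
P_eq_zero_of_co). Let T0 x := the vector with parameters Φ ∘ (ξ - ξ') (exists_theta, par_fin, map_Ξ,
unique by ext_dd); it is in Y0, T0 is linear on Y0, and by mult_est (γ arbitrary)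
‖co γ (T0 x)‖ ≤ (‖Φ‖ + 1) ‖x - Jc x‖, so ‖T0 x‖ ≤ (‖Φ‖ + 1) 9 ‖x‖ (norm_le). Extend T0 by continuity to
T : Zc → Zc (Zc is complete, being closed in the complete space X; Y0 is dense in it:
ContinuousLinearMap.extend, or LinearMap.mkContinuous + extend along the inclusion, or
Submodule.topologicalClosure API). Rel: given ε take N2 from mult_est for ε; if x ∈ Y0 and P N' x = 0 with
N' ≥ N2 and N' larger than all n with st n ≤ N (n ≤ (N+1)^2), then co n x = 0 for st n ≤ N, so Jc x = 0 (bound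
with C = 0), T x = T0 x has the parameters Φ ∘ ξ, and mult_est gives the claim.
-/

theorem hasPar_add_EM (B : BD D (VV UU S) X) (J : Cut UU) {x y : X} {ξ ξ' : ℕ → E}
    (h : HasPar B J x ξ) (h' : HasPar B J y ξ') : HasPar B J (x + y) (fun c => ξ c + ξ' c) := by
  obtain ⟨⟨q, hq⟩, h2, h3⟩ := h
  obtain ⟨⟨q', hq'⟩, h2', h3'⟩ := h'
  refine ⟨⟨max q q', ?_⟩, fun c => Submodule.add_mem _ (h2 c) (h2' c), ?_⟩
  · rw [map_add, B.P_of_P_eq hq (le_max_left _ _), B.P_of_P_eq hq' (le_max_right _ _)]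
  · intro n hn
    rw [B.dd_add, h3 n hn, h3' n hn, map_add]

theorem hasPar_smul_EM (B : BD D (VV UU S) X) (J : Cut UU) (c : ℂ) {x : X} {ξ : ℕ → E}
    (h : HasPar B J x ξ) : HasPar B J (c • x) (fun k => c • ξ k) := by
  obtain ⟨⟨q, hq⟩, h2, h3⟩ := h
  refine ⟨⟨q, by rw [map_smul, hq]⟩, fun k => Submodule.smul_mem _ _ (h2 k), fun n hn => ?_⟩
  rw [B.dd_smul, h3 n hn, map_smul]

theorem hasPar_sub_EM (B : BD D (VV UU S) X) (J : Cut UU) {x y : X} {ξ ξ' : ℕ → E}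
    (h : HasPar B J x ξ) (h' : HasPar B J y ξ') : HasPar B J (x - y) (fun c => ξ c - ξ' c) := by
  have h1 := hasPar_add_EM B J h (hasPar_smul_EM B J (-1) h')
  have e1 : x + (-1 : ℂ) • y = x - y := by rw [neg_one_smul, sub_eq_add_neg]
  have e2 : (fun c => ξ c + (-1 : ℂ) • ξ' c) = fun c => ξ c - ξ' c := by
    funext c; rw [neg_one_smul, sub_eq_add_neg]
  rw [e1, e2] at h1
  exact h1

theorem hasPar_unique_EM (hD : D.Ok (VV UU S) ok) (B : BD D (VV UU S) X) (J : Cut UU) {x y : X}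
    {ξ : ℕ → E} (h : HasPar B J x ξ) (h' : HasPar B J y ξ) : x = y := by
  obtain ⟨⟨q, hq⟩, h2, h3⟩ := h
  obtain ⟨⟨q', hq'⟩, h2', h3'⟩ := h'
  refine ext_dd hD B (B.P_of_P_eq hq (le_max_left q q')) (B.P_of_P_eq hq' (le_max_right q q')) ?_
  intro n hn
  rw [h3 n hn, h3' n hn]

theorem P_zero_of_dd_EM {V : ℕ → Submodule ℂ E} (hD : D.Ok V ok) (B : BD D V X) (N1 : ℕ) {y : X}
    (h : ∀ n < N1, B.dd n y = 0) : B.P N1 y = 0 := by
  refine ext_dd hD B (q := N1) (by rw [B.P_P, min_self]) (by rw [map_zero]) ?_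
  intro n hn
  have h0 : B.dd n (0 : X) = 0 := by simp [BD.dd]
  rw [h0]
  by_cases hlt : n < N1
  · rw [← h n hlt]
    unfold BD.dd
    rw [B.P_P, min_eq_left hlt.le, map_sub, map_sub, B.co_P N1 n y hlt]
  · exact B.dd_eq_zero_of_P_eq (q := N1) (by rw [B.P_P, min_self]) (not_lt.1 hlt)

theorem exists_mult [CompleteSpace X] (hmono : Monotone UU) (hD : D.Ok (VV UU S) ok)
    (hE : D.Ext (VV UU S) (UV UU S) S.isB) (B : BD D (VV UU S) X) (J : Cut UU)
    (Φ : E →L[ℂ] E) (N0 : ℕ) (K : ℝ) (hK : 0 ≤ K) (hΦ : J.Good S ok Φ N0 K) :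
    ∃ T : Zc B J →L[ℂ] Zc B J, Rel B J T Φ := by
  classical
  obtain ⟨N1, hN1⟩ := mult_est hmono hD hE B J Φ N0 K hK hΦ 1 one_pos
  obtain ⟨N, hN⟩ : ∃ N, N = S.st N1 + 1 := ⟨_, rfl⟩
  obtain ⟨Jc, q0, c1, c2, c3, c4⟩ := exists_cutoff hmono hD hE B J N (by omega)
  obtain ⟨et, het⟩ : ∃ et : (ℕ → E) → ℕ → E,
      et = fun ξ c => ξ c - (if c < N then J.j N (ξ c) else 0) := ⟨_, rfl⟩
  have het_add : ∀ ξ ξ' : ℕ → E, et (fun c => ξ c + ξ' c) = fun c => et ξ c + et ξ' c := by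
    intro ξ ξ'
    rw [het]; funext c
    dsimp only
    split_ifs
    · rw [map_add]; abel
    · abel
  have het_smul : ∀ (a : ℂ) (ξ : ℕ → E), et (fun c => a • ξ c) = fun c => a • et ξ c := by
    intro a ξ
    rw [het]; funext c
    dsimp only
    split_ifs
    · rw [map_smul, smul_sub]
    · rw [smul_sub, smul_zero]
  have hy : ∀ x ξ, HasPar B J x ξ → HasPar B J (x - Jc x) (et ξ) := by
    intro x ξ h
    have := hasPar_sub_EM B J h (c2 x ξ h)
    rw [het]; exact this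
  have hPy : ∀ x, B.P N1 (x - Jc x) = 0 := by
    intro x
    apply P_zero_of_dd_EM hD B
    intro n hn
    have h1 : S.st n < N := by
      have := S.mono hn.le
      omega
    rw [B.dd_sub, c3 x n h1, sub_self]
  have hex : ∀ x : Y0 B J, ∃ (z : X) (ξ : ℕ → E), HasPar B J (x : X) ξ ∧
      HasPar B J z (fun c => Φ (et ξ c)) := by
    rintro ⟨x, ξ, hx⟩
    obtain ⟨c0, hc0⟩ := par_fin B J hx
    obtain ⟨z, hz⟩ := exists_theta hmono hD B J (fun c => Φ (et ξ c))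
      (fun c => hΦ.map_Ξ c _ ((hy x ξ hx).2.1 c)) c0 (fun c hc => by
        rw [het]; dsimp only
        rw [hc0 c hc]; simp)
    exact ⟨z, ξ, hx, hz⟩
  choose T0 ξT hT1 hT2 using hex
  have hT0 : ∀ x, T0 x ∈ Y0 B J := fun x => ⟨_, hT2 x⟩
  have hadd : ∀ x y, T0 (x + y) = T0 x + T0 y := by
    intro x y
    have e1 : ξT (x + y) = fun c => ξT x c + ξT y c :=
      par_unique B J (hT1 (x + y)) (hasPar_add_EM B J (hT1 x) (hT1 y))
    have h1 := hT2 (x + y)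
    have h2 := hasPar_add_EM B J (hT2 x) (hT2 y)
    rw [e1, het_add] at h1
    have e2 : (fun c => Φ (et (ξT x) c + et (ξT y) c)) =
        fun c => Φ (et (ξT x) c) + Φ (et (ξT y) c) := by funext c; rw [map_add]
    rw [e2] at h1
    exact hasPar_unique_EM hD B J h1 h2
  have hsmul : ∀ (a : ℂ) x, T0 (a • x) = a • T0 x := by
    intro a x
    have e1 : ξT (a • x) = fun c => a • ξT x c :=
      par_unique B J (hT1 (a • x)) (hasPar_smul_EM B J a (hT1 x))
    have h1 := hT2 (a • x)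
    have h2 := hasPar_smul_EM B J a (hT2 x)
    rw [e1, het_smul] at h1
    have e2 : (fun c => Φ (a • et (ξT x) c)) =
        fun c => a • Φ (et (ξT x) c) := by funext c; rw [map_smul]
    rw [e2] at h1
    exact hasPar_unique_EM hD B J h1 h2
  let T0L : Y0 B J →ₗ[ℂ] Zc B J :=
    { toFun := fun x => ⟨T0 x, (Y0 B J).le_topologicalClosure (hT0 x)⟩
      map_add' := fun x y => Subtype.ext (hadd x y)
      map_smul' := fun a x => Subtype.ext (hsmul a x) }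
  let e : Y0 B J →ₗ[ℂ] Zc B J := Submodule.inclusion (Y0 B J).le_topologicalClosure
  have hdense : DenseRange e := by
    have hsub : (Y0 B J : Set X) ⊆ (Zc B J : Set X) := (Y0 B J).le_topologicalClosure
    have h1 : DenseRange (Set.inclusion hsub) := (denseRange_inclusion_iff hsub).2 subset_rfl
    exact h1
  have hbound : ∀ x, ‖T0L x‖ ≤ ((‖Φ‖ + 1) * 9) * ‖e x‖ := by
    intro x
    have e1 : ‖T0L x‖ = ‖T0 x‖ := rfl
    have e2 : ‖e x‖ = ‖(x : X)‖ := rfl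
    rw [e1, e2]
    have hJ : ‖Jc (x : X)‖ ≤ 8 * ‖(x : X)‖ :=
      c4 _ _ (norm_nonneg _) fun n _ => B.norm_co n _
    have hyn : ‖(x : X) - Jc x‖ ≤ 9 * ‖(x : X)‖ := by
      have := norm_sub_le (x : X) (Jc x)
      linarith
    have hΦn := norm_nonneg Φ
    refine B.norm_le _ _ (by positivity) fun γ => ?_
    have h1 := hN1 ((x : X) - Jc x) (T0 x) (et (ξT x)) (hy _ _ (hT1 x)) (hT2 x) (hPy _) γ
    have h2 : ‖Φ (B.co γ ((x : X) - Jc x))‖ ≤ ‖Φ‖ * ‖(x : X) - Jc x‖ :=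
      (Φ.le_opNorm _).trans (mul_le_mul_of_nonneg_left (B.norm_co _ _) hΦn)
    calc ‖B.co γ (T0 x)‖ = ‖(B.co γ (T0 x) - Φ (B.co γ ((x : X) - Jc x))) +
          Φ (B.co γ ((x : X) - Jc x))‖ := by rw [sub_add_cancel]
      _ ≤ 1 * ‖(x : X) - Jc x‖ + ‖Φ‖ * ‖(x : X) - Jc x‖ :=
        (norm_add_le _ _).trans (add_le_add h1 h2)
      _ = (‖Φ‖ + 1) * ‖(x : X) - Jc x‖ := by ring
      _ ≤ (‖Φ‖ + 1) * (9 * ‖(x : X)‖) := by gcongr
      _ = _ := by ring
  have : CompleteSpace (Zc B J) := (Y0 B J).isClosed_topologicalClosure.completeSpace_coe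
  refine ⟨T0L.extendOfNorm e, ?_⟩
  intro ε hε
  obtain ⟨N2, hN2⟩ := mult_est hmono hD hE B J Φ N0 K hK hΦ ε hε
  refine ⟨max N2 ((N + 1) ^ 2 + 1), ?_⟩
  intro x hx hPx γ
  have hTx : T0L.extendOfNorm e x = T0L ⟨(x : X), hx⟩ :=
    LinearMap.extendOfNorm_eq hdense ⟨_, hbound⟩ ⟨(x : X), hx⟩
  rw [hTx]
  have hJ0 : Jc (x : X) = 0 := by
    have h1 : ‖Jc (x : X)‖ ≤ 8 * 0 := by
      apply c4 _ _ le_rfl
      intro n hn
      have h2 := S.le_sq n
      have h3 : (S.st n + 1) ^ 2 ≤ (N + 1) ^ 2 := Nat.pow_le_pow_left (by omega) 2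
      have h4 : n < max N2 ((N + 1) ^ 2 + 1) := lt_of_lt_of_le (by omega) (le_max_right _ _)
      rw [B.co_of_P_zero hPx h4, norm_zero]
    rw [mul_zero] at h1
    exact norm_le_zero_iff.1 h1
  have h1 := hy _ _ (hT1 ⟨(x : X), hx⟩)
  have h2 := hT2 ⟨(x : X), hx⟩
  simp only at h1
  rw [hJ0, sub_zero] at h1
  exact hN2 (x : X) (T0 ⟨(x : X), hx⟩) _ h1 h2 (B.P_of_P_zero hPx (le_max_left _ _)) γ

end Pool.Agent.Helper509.AH
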