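import Pool.Agent.Helper509.AH.WinExt

namespace Pool.Agent.Helper509.AH

open Filter Topology

variable {E : Type*} [NormedAddCommGroup E] [NormedSpace ℂ E]
variable {X : Type*} [NormedAddCommGroup X] [NormedSpace ℂ X]
variable {D : Nodes E} {ok : ℕ → (E →L[ℂ] E) → Prop}
variable {S : Stages} {UU : ℕ → Submodule ℂ E}

/-! PROOF IN WORDS.
Let V = VV UU S, U = UV UU S (so U n = UU (st n) ≤ V n). Facts: if γ ≠ 0 and isB γ then
c := cp γ = st γ ≥ 1 and γ = ix c c. (If st γ = 0 then γ = ix 0 0 = 0.)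
For a node γ put cs γ x := co (par γ) x + β (wt γ) • fn γ x, so co γ x = cs γ x + dd γ x (co_eq), γ ≠ 0.
 (A) if ¬ isB γ (γ ≠ 0) then cs γ x = 0 (cont_par, cont_A, co_zero), so co γ x = dd γ x.
 (B) if isB γ, γ ≠ 0, then cs γ x ∈ U γ (par_U, A_U, co_mem).
 (C) v ∈ UU c, c ≤ t: J.j t v = v (j_U, hmono). So for a node n with cp n = c ≠ 0: J.w S n v = v if
  st n = c, and 0 if st n > c.
sv_mem: parameters ξ c = h for c = cp γ, 0 otherwise; dd γ x = co γ x = h, dd n x = 0 for n ≠ γ
(dd_eq_zero_of_P_zero, dd_eq_zero_of_P_eq); use (C).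
fin: definition. wt: hE.rich.
split: let x have parameters ξ, let bi γ = ix (cp γ) (cp γ) and u γ = if D.wt (bi γ) < l then co γ x
else 0. By lift (u γ ∈ V γ, u 0 = 0 as co 0 x = 0) there is x1, P q x1 = x1, co γ x1 = u γ for γ < q.
The statements on coordinates: for birth γ, bi γ = γ. For γ not birth with wt γ < N: wt γ = 2 (γ / 2)
< N and N even give γ < N, so co γ x = 0 (co_of_P_zero) and co γ x1 = u γ = 0. (γ < q may be assumed.)
x1 ∈ Y0: parameters ξ1 c := 0 if c = 0 or ix c c ≥ q; otherwise, with b = ix c c < q (a birth node, b ≠ 0),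
ξ1 c := (if D.wt b < l then ξ c + cs b x else 0) - cs b x1. It is in Ξ c by (B), U_Ξ. Check
dd n x1 = J.w S n (ξ1 (cp n)) for n ≠ 0, c = cp n (c = 0: then ¬isB n as n ≠ 0, dd n x1 = co n x1 for n < q,
which is u n, and co n x = dd n x = J.w S n (ξ 0) = 0; dd n x1 = 0 for n ≥ q):
 - n birth, n < q: dd n x1 = co n x1 - cs n x1 = [wt n < l](cs n x + J.w S n (ξ c)) - cs n x1
   = J.w S n (ξ1 c) since J.w S n = J.j c is the identity on UU c;
 - n birth, n ≥ q: both sides 0;
 - n not birth, c ≠ 0, n < q: b = ix c c < n (st b = c < st n and st monotone), so b < q;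
   dd n x1 = co n x1 = u n = [wt b < l] dd n x = [wt b < l] J.w S n (ξ c), and J.w S n kills cs b x, cs b x1
   by (C);
 - n not birth, c ≠ 0, n ≥ q: dd n x1 = 0; if b ≥ q then ξ1 c = 0; if b < q then
   J.w S n (ξ1 c) = [wt b < l] J.w S n (ξ c) = [..] dd n x = 0 as P q x = x, n ≥ q.
-/

/-- the part of the coordinate before the coefficient -/
noncomputable def cs_WN4 {V : ℕ → Submodule ℂ E} (B : BD D V X) (γ : ℕ) (x : X) : E :=
  B.co (D.par γ) x + (β (D.wt γ) : ℂ) • B.fn γ x

lemma co_eq_cs_WN4 {V : ℕ → Submodule ℂ E} (B : BD D V X) {γ : ℕ} (hγ : γ ≠ 0) (x : X) :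
    B.co γ x = cs_WN4 B γ x + B.dd γ x := by
  unfold cs_WN4; exact B.co_eq γ x hγ

lemma cs_zero_WN4 {V U : ℕ → Submodule ℂ E} {isB : ℕ → Prop} (hE : D.Ext V U isB)
    (B : BD D V X) {γ : ℕ} (hB : ¬ isB γ) (x : X) : cs_WN4 B γ x = 0 := by
  unfold cs_WN4 BD.fn
  rw [hE.cont_par γ hB, B.co_zero]
  simp [hE.cont_A γ _ hB]

lemma cs_mem_WN4 {V U : ℕ → Submodule ℂ E} {isB : ℕ → Prop} (hE : D.Ext V U isB)
    (B : BD D V X) {γ : ℕ} (hγ : γ ≠ 0) (hB : isB γ) (x : X) : cs_WN4 B γ x ∈ U γ := by
  unfold cs_WN4 BD.fn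
  refine Submodule.add_mem _ (hE.par_U γ hγ hB (B.co_mem _ _)) (Submodule.smul_mem _ _ ?_)
  exact Submodule.sum_mem _ fun i _ => hE.A_U γ i hγ hB _ (B.co_mem _ _)

lemma st_ne_WN4 (S : Stages) {γ : ℕ} (hγ : γ ≠ 0) (hB : S.isB γ) : S.st γ ≠ 0 := by
  intro h
  apply hγ
  have h1 : S.cp γ = 0 := hB.trans h
  have h2 := S.ix_st γ
  rw [h, h1] at h2
  have h3 := S.ix_st 0
  have h4 : S.cp 0 = 0 := by have := S.cp_le 0; rw [S.zero] at this; omega
  rw [S.zero, h4] at h3
  rw [← h2, h3]

lemma ix_birth_WN4 (S : Stages) {γ : ℕ} (hB : S.isB γ) : S.ix (S.cp γ) (S.cp γ) = γ := by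
  have h2 := S.ix_st γ
  have h3 : S.cp γ = S.st γ := hB
  rw [← h3] at h2
  exact h2

lemma w_birth_WN4 (J : Cut UU) (S : Stages) {n : ℕ} (hB : S.isB n) {v : E}
    (hv : v ∈ UU (S.cp n)) : J.w S n v = v := by
  have h3 : S.cp n = S.st n := hB
  unfold Cut.w
  rw [if_pos h3]
  rw [h3] at hv
  exact J.j_U _ v hv

lemma w_cont_WN4 (hmono : Monotone UU) (J : Cut UU) (S : Stages) {n : ℕ} (hB : ¬ S.isB n) {v : E}
    (hv : v ∈ UU (S.cp n)) : J.w S n v = 0 := by
  have h3 : S.cp n ≠ S.st n := hB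
  have h4 := S.cp_le n
  unfold Cut.w
  rw [if_neg h3, sub_apply, J.j_U _ v (hmono h4 hv),
    J.j_U _ v (hmono (by omega : S.cp n ≤ S.st n - 1) hv), sub_self]

lemma split_WN4 (hmono : Monotone UU)
    (hE : D.Ext (VV UU S) (UV UU S) S.isB) (B : BD D (VV UU S) X) (J : Cut UU)
    (l N q : ℕ) (x : X) (hx : x ∈ Y0 B J) (hN : Even N) (hPN : B.P N x = 0) (hPq : B.P q x = x) :
    ∃ x1 ∈ Y0 B J,
    B.P q x1 = x1 ∧ (∀ γ < q, B.co γ x1 = 0 ∨ B.co γ x1 = B.co γ x) ∧
    (∀ γ < q, γ ≠ 0 → D.wt γ < N → D.wt γ < l → B.co γ x1 = B.co γ x) ∧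
    (∀ γ < q, γ ≠ 0 → D.wt γ < N → l ≤ D.wt γ → B.co γ x1 = 0) := by
  classical
  obtain ⟨ξ, -, hξ, hdd⟩ := hx
  obtain ⟨x1, hx1, hco⟩ := B.lift q
    (fun γ => if D.wt (S.ix (S.cp γ) (S.cp γ)) < l then B.co γ x else 0)
    (fun γ => by
      by_cases h : D.wt (S.ix (S.cp γ) (S.cp γ)) < l
      · simp only [h, if_true]; exact B.co_mem _ _
      · simp only [h, if_false]; exact Submodule.zero_mem _)
    (by simp only [B.co_zero, ite_self])
  have hcont : ∀ γ, ¬ S.isB γ → D.wt γ < N → B.co γ x = 0 := by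
    intro γ hB hw
    rw [hE.cont_wt γ hB] at hw
    obtain ⟨k, hk⟩ := hN
    exact B.co_of_P_zero hPN (by omega)
  refine ⟨x1, ?_, hx1, ?_, ?_, ?_⟩
  · -- membership
    refine ⟨fun c => if c = 0 ∨ q ≤ S.ix c c then 0 else
      (if D.wt (S.ix c c) < l then ξ c + cs_WN4 B (S.ix c c) x else 0) - cs_WN4 B (S.ix c c) x1,
      ⟨q, hx1⟩, ?_, ?_⟩
    · intro c
      by_cases hc : c = 0 ∨ q ≤ S.ix c c
      · simp only [hc, if_true]; exact Submodule.zero_mem _
      · simp only [hc, if_false]
        push Not at hc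
        obtain ⟨hc0, hcq⟩ := hc
        have hst := S.st_ix c c le_rfl
        have hcp := S.cp_ix c c le_rfl
        have hb0 : S.ix c c ≠ 0 := by
          intro h; rw [h, S.zero] at hst; exact hc0 hst.symm
        have hB : S.isB (S.ix c c) := by unfold Stages.isB; rw [hst, hcp]
        have hcs : ∀ y : X, cs_WN4 B (S.ix c c) y ∈ J.Ξ c := by
          intro y
          have h1 := cs_mem_WN4 hE B hb0 hB y
          unfold UV at h1
          rw [hst] at h1
          exact J.U_Ξ c hc0 h1
        refine Submodule.sub_mem _ ?_ (hcs x1)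
        by_cases hl : D.wt (S.ix c c) < l
        · simp only [hl, if_true]; exact Submodule.add_mem _ (hξ c) (hcs x)
        · simp only [hl, if_false]; exact Submodule.zero_mem _
    · intro n hn
      beta_reduce
      by_cases hc0 : S.cp n = 0
      · have hnB : ¬ S.isB n := by
          intro hB
          exact st_ne_WN4 S hn hB ((show S.cp n = S.st n from hB) ▸ hc0)
        simp only [hc0, true_or, if_true, map_zero]
        by_cases hnq : n < q
        · have h1 := co_eq_cs_WN4 B hn x1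
          rw [cs_zero_WN4 hE B hnB, zero_add] at h1
          rw [← h1, hco n hnq]
          have h2 := co_eq_cs_WN4 B hn x
          rw [cs_zero_WN4 hE B hnB, zero_add, hdd n hn, hc0] at h2
          have h3 : ξ 0 = 0 := by
            have := hξ 0; rw [J.Ξ_zero] at this; exact (Submodule.mem_bot ℂ).1 this
          rw [h3, map_zero] at h2
          rw [h2, ite_self]
        · exact B.dd_eq_zero_of_P_eq hx1 (not_lt.1 hnq)
      · by_cases hB : S.isB n
        · have hix := ix_birth_WN4 S hB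
          rw [hix]
          by_cases hnq : n < q
          · rw [if_neg (by push Not; exact ⟨hc0, hnq⟩)]
            have hcs : ∀ y : X, J.w S n (cs_WN4 B n y) = cs_WN4 B n y := by
              intro y
              have h1 := cs_mem_WN4 hE B hn hB y
              unfold UV at h1
              rw [← (show S.cp n = S.st n from hB)] at h1
              exact w_birth_WN4 J S hB h1
            have h1 := co_eq_cs_WN4 B hn x1
            have h2 := hco n hnq
            simp only [hix] at h2
            rw [map_sub, hcs]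
            by_cases hl : D.wt n < l
            · rw [if_pos hl] at h2 ⊢
              rw [map_add, hcs, ← hdd n hn]
              have h3 := co_eq_cs_WN4 B hn x
              rw [eq_sub_iff_add_eq, add_comm (B.dd n x1), ← h1, h2, h3, add_comm]
            · rw [if_neg hl] at h2 ⊢
              rw [map_zero, eq_sub_iff_add_eq, add_comm (B.dd n x1), ← h1, h2]
          · rw [if_pos (Or.inr (not_lt.1 hnq)), map_zero]
            exact B.dd_eq_zero_of_P_eq hx1 (not_lt.1 hnq)
        · have hst := S.st_ix (S.cp n) (S.cp n) le_rfl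
          have hcp := S.cp_ix (S.cp n) (S.cp n) le_rfl
          have hlt : S.cp n < S.st n :=
            lt_of_le_of_ne (S.cp_le n) (show S.cp n ≠ S.st n from hB)
          have hbn : S.ix (S.cp n) (S.cp n) < n := by
            by_contra hcon
            have := S.mono (not_lt.1 hcon)
            rw [hst] at this; omega
          have hb0 : S.ix (S.cp n) (S.cp n) ≠ 0 := by
            intro h; rw [h, S.zero] at hst; exact hc0 hst.symm
          have hBb : S.isB (S.ix (S.cp n) (S.cp n)) := by unfold Stages.isB; rw [hst, hcp]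
          have hcs : ∀ y : X, J.w S n (cs_WN4 B (S.ix (S.cp n) (S.cp n)) y) = 0 := by
            intro y
            have h1 := cs_mem_WN4 hE B hb0 hBb y
            unfold UV at h1
            rw [hst] at h1
            exact w_cont_WN4 hmono J S hB h1
          have hw : ¬ (S.cp n = 0 ∨ q ≤ S.ix (S.cp n) (S.cp n)) → J.w S n
              (if S.cp n = 0 ∨ q ≤ S.ix (S.cp n) (S.cp n) then 0 else
                (if D.wt (S.ix (S.cp n) (S.cp n)) < l then
                  ξ (S.cp n) + cs_WN4 B (S.ix (S.cp n) (S.cp n)) x else 0) -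
                  cs_WN4 B (S.ix (S.cp n) (S.cp n)) x1) =
              if D.wt (S.ix (S.cp n) (S.cp n)) < l then B.dd n x else 0 := by
            intro h
            rw [if_neg h, map_sub, hcs, sub_zero]
            by_cases hl : D.wt (S.ix (S.cp n) (S.cp n)) < l
            · rw [if_pos hl, if_pos hl, map_add, hcs, add_zero, hdd n hn]
            · rw [if_neg hl, if_neg hl, map_zero]
          by_cases hnq : n < q
          · have hbq : ¬ (S.cp n = 0 ∨ q ≤ S.ix (S.cp n) (S.cp n)) := by
              push Not; exact ⟨hc0, by omega⟩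
            have h1 := co_eq_cs_WN4 B hn x1
            rw [cs_zero_WN4 hE B hB, zero_add] at h1
            have h2 := co_eq_cs_WN4 B hn x
            rw [cs_zero_WN4 hE B hB, zero_add] at h2
            rw [hw hbq, ← h1, hco n hnq, h2]
          · rw [B.dd_eq_zero_of_P_eq hx1 (not_lt.1 hnq)]
            by_cases hbq : S.cp n = 0 ∨ q ≤ S.ix (S.cp n) (S.cp n)
            · rw [if_pos hbq, map_zero]
            · rw [hw hbq, B.dd_eq_zero_of_P_eq hPq (not_lt.1 hnq), ite_self]
  · intro γ hγ
    rw [hco γ hγ]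
    by_cases h : D.wt (S.ix (S.cp γ) (S.cp γ)) < l
    · right; rw [if_pos h]
    · left; rw [if_neg h]
  · intro γ hγ hγ0 hw hl
    rw [hco γ hγ]
    by_cases hB : S.isB γ
    · rw [ix_birth_WN4 S hB, if_pos hl]
    · rw [hcont γ hB hw, ite_self]
  · intro γ hγ hγ0 hw hl
    rw [hco γ hγ]
    by_cases hB : S.isB γ
    · rw [ix_birth_WN4 S hB, if_neg (by omega)]
    · rw [hcont γ hB hw, ite_self]

theorem win (hmono : Monotone UU) (hD : D.Ok (VV UU S) ok)
    (hE : D.Ext (VV UU S) (UV UU S) S.isB) (B : BD D (VV UU S) X) (J : Cut UU) :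
    Win B (UV UU S) S.isB (Y0 B J) where
  sv_mem := by
    classical
    intro γ hB hγ h hh x h1 h2 h3
    have hst := st_ne_WN4 S hγ hB
    have hcp : S.cp γ = S.st γ := hB
    have hh' : h ∈ UU (S.cp γ) := by rw [hcp]; exact hh
    refine ⟨fun c => if c = S.cp γ then h else 0, ⟨γ + 1, h2⟩, ?_, ?_⟩
    · intro c
      by_cases hc : c = S.cp γ
      · simp only [hc, if_true]
        exact J.U_Ξ _ (by rw [hcp]; exact hst) hh'
      · simp only [hc, if_false]; exact Submodule.zero_mem _
    · intro n hn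
      by_cases hnγ : n = γ
      · subst hnγ
        simp only [if_true]
        rw [w_birth_WN4 J S hB hh']
        unfold BD.dd
        rw [h1, sub_zero, h3]
      · have hd : B.dd n x = 0 := by
          rcases lt_or_gt_of_ne hnγ with h' | h'
          · exact B.dd_eq_zero_of_P_zero h1 h'
          · exact B.dd_eq_zero_of_P_eq h2 h'
        rw [hd]
        by_cases hc : S.cp n = S.cp γ
        · simp only [hc, if_true]
          have hnB : ¬ S.isB n := by
            intro hB'
            apply hnγ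
            rw [← ix_birth_WN4 S hB', ← ix_birth_WN4 S hB, hc]
          rw [w_cont_WN4 hmono J S hnB (by rw [hc]; exact hh')]
        · simp only [hc, if_false, map_zero]
  fin := by
    rintro x ⟨ξ, ⟨q, hq⟩, -, -⟩
    exact ⟨q, hq⟩
  split := fun l N q x hx hN h1 h2 => split_WN4 hmono hE B J l N q x hx hN h1 h2
  wt := hE.rich

end Pool.Agent.Helper509.AH
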