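import Pool.Agent.Helper509.AH.WinDef

namespace Pool.Agent.Helper509.AH

open Filter Topology

variable {E : Type*} [NormedAddCommGroup E] [NormedSpace ℂ E]
variable {X : Type*} [NormedAddCommGroup X] [NormedSpace ℂ X]
variable {D : Nodes E} {ok : ℕ → (E →L[ℂ] E) → Prop}
variable {S : Stages} {UU : ℕ → Submodule ℂ E}

/-- triangular numbers -/
def stgT : ℕ → ℕ
  | 0 => 0
  | (t + 1) => stgT t + (t + 1)

/-- stage and copy -/
def stgSC : ℕ → ℕ × ℕ
  | 0 => (0, 0)
  | (n + 1) => if (stgSC n).2 < (stgSC n).1 then ((stgSC n).1, (stgSC n).2 + 1)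
      else ((stgSC n).1 + 1, 0)

theorem stgT_mono : Monotone stgT := monotone_nat_of_le_succ fun t => by
  rw [stgT]; omega

theorem stg_inv (n : ℕ) : (stgSC n).2 ≤ (stgSC n).1 ∧ stgT (stgSC n).1 + (stgSC n).2 = n := by
  induction n with
  | zero => simp [stgSC, stgT]
  | succ n ih =>
    obtain ⟨h1, h2⟩ := ih
    rw [stgSC]
    split_ifs with h
    · exact ⟨h, by simp only; omega⟩
    · refine ⟨Nat.zero_le _, ?_⟩
      simp only [stgT]
      omega

theorem stg_lt {t c t' c' : ℕ} (hc : c ≤ t) (h : stgT t + c = stgT t' + c') (hlt : t < t') :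
    False := by
  have h1 := stgT_mono (Nat.succ_le_of_lt hlt)
  rw [Nat.succ_eq_add_one, stgT] at h1
  omega

theorem stg_unique {t c t' c' : ℕ} (hc : c ≤ t) (hc' : c' ≤ t')
    (h : stgT t + c = stgT t' + c') : t = t' ∧ c = c' := by
  rcases lt_trichotomy t t' with h1 | h1 | h1
  · exact (stg_lt hc h h1).elim
  · subst h1
    exact ⟨rfl, by omega⟩
  · exact (stg_lt hc' h.symm h1).elim

theorem stg_le (t : ℕ) : t ≤ stgT t ∧ stgT t ≤ t * t := by
  induction t with
  | zero => simp [stgT]
  | succ t ih =>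
    rw [stgT]
    constructor
    · omega
    · nlinarith [ih.2]

/-! PROOF IN WORDS.
Define (st n, cp n) by recursion: (0, 0) for n = 0; the successor of (t, c) is (t, c + 1) if c < t and
(t + 1, 0) if c = t. ix t c = t * (t + 1) / 2 + c. By induction on n: cp n ≤ st n and
ix (st n) (cp n) = n (use t*(t+1)/2 + (t+1) = (t+1)*(t+2)/2). Then for c ≤ t: n = ix t c has
(st n, cp n) = (t, c) because ix is injective on pairs with c ≤ t (or by induction on t and c).
Monotone: st (n+1) ≥ st n. st n ≤ n by induction; n = ix (st n) (cp n) ≤ t(t+1)/2 + t ≤ (t+1)^2.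
-/

theorem exists_stages : Nonempty Stages := by
  refine ⟨{ st := fun n => (stgSC n).1, cp := fun n => (stgSC n).2,
            ix := fun t c => stgT t + c, cp_le := fun n => (stg_inv n).1,
            ix_st := fun n => (stg_inv n).2, st_ix := ?_, cp_ix := ?_, mono := ?_, zero := rfl,
            st_le := ?_, le_sq := ?_ }⟩
  · intro t c hc
    exact (stg_unique (stg_inv (stgT t + c)).1 hc (stg_inv (stgT t + c)).2).1
  · intro t c hc
    exact (stg_unique (stg_inv (stgT t + c)).1 hc (stg_inv (stgT t + c)).2).2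
  · refine monotone_nat_of_le_succ fun n => ?_
    rw [stgSC]
    split_ifs <;> simp
  · intro n
    have h1 := (stg_inv n).2
    have h2 := (stg_le (stgSC n).1).1
    omega
  · intro n
    have h1 := stg_inv n
    have h2 := (stg_le (stgSC n).1).2
    nlinarith [h1.1, h1.2]

end Pool.Agent.Helper509.AH
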