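import Pool.Agent.Helper509.AH.Symbol2
import Pool.Agent.Helper509.AH.Inst2
import Pool.Agent.Helper509.AH.RelIso
import Pool.Agent.Helper509.AH.WinMult
import Pool.Agent.Helper509.AH.WinSplit
import Pool.Agent.Helper509.AH.WinStages
import Pool.Agent.Helper509.FR.Exists
import Pool.Agent.Helper509.RP.Rep
import Pool.Agent.Helper509.RP.Gen

/-! The main theorem: separable unital C*-algebras as Calkin algebras. -/

namespace Pool.Agent.Helper509.AH

open Filter Topology Pool.Agent.Helper509.FR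

universe u

section lam

variable {A : Type*} [CStarAlgebra A]
variable {H : Type*} [NormedAddCommGroup H] [InnerProductSpace ℂ H] [CompleteSpace H]

/-- left multiplication on the dual -/
noncomputable def lam (π : A →⋆ₐ[ℂ] (H →L[ℂ] H)) : A →ₐ[ℂ] (EE H →L[ℂ] EE H) where
  toFun a := act (π a) 1
  map_one' := by rw [map_one]; exact act_one
  map_mul' a b := by
    ext v x
    rw [map_mul, mul_apply_eq_comp, act_act, one_mul]
  map_zero' := by
    ext v x
    simp
  map_add' a b := by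
    ext v x
    rw [map_add, act_add_left]
    rfl
  commutes' z := by
    ext v x
    rw [AlgHomClass.commutes, Algebra.algebraMap_eq_smul_one, Algebra.algebraMap_eq_smul_one,
      act_smul_left, act_one]
    rfl

lemma lam_apply (π : A →⋆ₐ[ℂ] (H →L[ℂ] H)) (a : A) : lam π a = act (π a) 1 := rfl

lemma norm_lam (π : A →⋆ₐ[ℂ] (H →L[ℂ] H)) (a : A) : ‖lam π a‖ ≤ ‖a‖ := by
  rw [lam_apply]
  have h1 := norm_act (π a) 1
  have h2 : ‖(1 : H →L[ℂ] H)‖ ≤ 1 := ContinuousLinearMap.norm_id_le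
  have h3 : ‖π a‖ ≤ ‖a‖ := NonUnitalStarAlgHom.norm_apply_le π a
  have h4 := norm_nonneg (π a)
  have h5 := norm_nonneg (1 : H →L[ℂ] H)
  nlinarith

/-- the norm of an operator is seen by the vector states -/
lemma norm_of_act (S : HSys H) (T : H →L[ℂ] H) {M : ℝ} (hM : 0 ≤ M)
    (h : ∀ t, ∀ v ∈ S.UU t, ‖act T 1 v‖ ≤ M * ‖v‖) : ‖T‖ ≤ M := by
  have key : ∀ t (x : H), S.Q t x = x → ‖T x‖ ≤ M * ‖x‖ := by
    intro t x hx
    by_cases hx0 : ‖T x‖ = 0
    · rw [hx0]; positivity
    have hpos : 0 < ‖T x‖ := lt_of_le_of_ne (norm_nonneg _) (Ne.symm hx0)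
    have hxx : 0 < ‖x‖ := by
      rcases (norm_nonneg x).eq_or_lt with h0 | h0
      · exfalso
        have : x = 0 := norm_eq_zero.1 h0.symm
        rw [this, map_zero, norm_zero] at hx0
        exact hx0 rfl
      · exact h0
    have h1 := h t _ (S.om_mem hx hx)
    have h2 := HSys.norm_om_le x x
    have h3 : act T 1 (HSys.om x x) (HSys.ro x (T x)) = ((‖T x‖ ^ 2 * ‖x‖ ^ 2 : ℝ) : ℂ) := by
      rw [act_apply, HSys.om_apply, one_mul, mul_apply_eq_comp, HSys.ro_apply,
        inner_smul_right, inner_self_eq_norm_sq_to_K, inner_self_eq_norm_sq_to_K]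
      push_cast
      rfl
    have h4 := (act T 1 (HSys.om x x)).le_opNorm (HSys.ro x (T x))
    rw [h3, Complex.norm_real, Real.norm_of_nonneg (by positivity)] at h4
    have h5 := HSys.norm_ro_le x (T x)
    have h6 : ‖T x‖ ^ 2 * ‖x‖ ^ 2 ≤ (M * (‖x‖ * ‖x‖)) * (‖x‖ * ‖T x‖) := by
      refine h4.trans ?_
      gcongr
      exact h1.trans (by gcongr)
    have h7 : (‖T x‖ * (‖T x‖ * ‖x‖ ^ 2)) ≤ (M * ‖x‖) * (‖T x‖ * ‖x‖ ^ 2) := by nlinarith
    exact le_of_mul_le_mul_right h7 (by positivity)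
  refine ContinuousLinearMap.opNorm_le_bound _ hM fun x => ?_
  have h1 : Tendsto (fun t => ‖T (S.Q t x)‖) atTop (𝓝 ‖T x‖) :=
    ((T.continuous.tendsto _).comp (S.lim x)).norm
  refine le_of_tendsto h1 (Eventually.of_forall fun t => ?_)
  have h2 := key t (S.Q t x) (DFunLike.congr_fun (S.QQ t) x)
  refine h2.trans ?_
  have h3 : ‖S.Q t x‖ ≤ ‖x‖ := by
    refine ((S.Q t).le_opNorm x).trans ?_
    have := S.norm t
    have := norm_nonneg x
    nlinarith
  gcongr

end lam

/-- Every separable unital C*-algebra is the quotient of `L(Y)` by the compact operators, for some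
Banach space `Y`. -/
theorem main {A : Type u} [CStarAlgebra A] [TopologicalSpace.SeparableSpace A] [Nontrivial A] :
    ∃ (Y : Type u) (_ : NormedAddCommGroup Y) (_ : NormedSpace ℂ Y) (_ : CompleteSpace Y)
      (φ : (Y →L[ℂ] Y) →ₐ[ℂ] A), Continuous φ ∧ Function.Surjective φ ∧
      ∀ T, φ T = 0 ↔ IsCompactOperator T := by
  obtain ⟨H, i1, i2, i3, i4, π, v, hπ, hv, hcomm⟩ := RP.exists_rep (A := A)
  obtain ⟨gA, hsa, hgen⟩ := RP.exists_gen (A := A)
  obtain ⟨F, hFg, hFv⟩ := FR.exists_frame (fun i => π (gA i)) v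
    (by
      intro i x y
      have h1 : star (π (gA i)) = π (gA i) := by rw [← map_star, (hsa i).star_eq]
      rw [ContinuousLinearMap.star_eq_adjoint] at h1
      conv_lhs => rw [← h1]
      rw [ContinuousLinearMap.adjoint_inner_left])
    hv (fun i j => hcomm i (gA j))
  obtain ⟨ρ, hρ, hbi⟩ := F.bicomm
  obtain ⟨G⟩ := exists_stages
  obtain ⟨r⟩ := exists_rad ρ G
  obtain ⟨D, hD, hE⟩ := (sys F r).exists_D G
  have hk := (sys F r).kit G
  have hmono : Monotone (sys F r).UU := (sys F r).UU_mono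
  have hX : CompleteSpace (XX hD) := complete_XX hD hk.fin
  have hZ : Y0 (bd hD hk.mono) (cut F r) ≤ Zc (bd hD hk.mono) (cut F r) :=
    Submodule.le_topologicalClosure _
  have hW := win hmono hD hE (bd hD hk.mono) (cut F r)
  have hZcl : IsClosed (Zc (bd hD hk.mono) (cut F r) : Set (XX hD)) :=
    Submodule.isClosed_topologicalClosure _
  have hZc : CompleteSpace (Zc (bd hD hk.mono) (cut F r)) := hZcl.completeSpace_coe
  -- operators have a symbol in the algebra
  have H1 : ∀ T : Zc (bd hD hk.mono) (cut F r) →L[ℂ] Zc (bd hD hk.mono) (cut F r),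
      ∃ a, Rel (bd hD hk.mono) (cut F r) T (lam π a) := by
    intro T
    obtain ⟨s, hs, hs1, hs2⟩ := (sys F r).exists_symbol hD (bd hD hk.mono) hW hZ
      ((Zc (bd hD hk.mono) (cut F r)).subtypeL.comp T)
    -- `s` is in the range of `π`
    have hmem : s ∈ closure (Algebra.adjoin ℂ (Set.range F.g) : Set (H →L[ℂ] H)) := by
      refine hbi s fun δ hδ N => ?_
      obtain ⟨N1, hN1⟩ := hs2 (δ / 2) (half_pos hδ)
      obtain ⟨γ, h1, h2, h3, h4⟩ := hW.wt N1 N
      refine ⟨γ, h1, fun W hWW => ?_⟩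
      obtain ⟨w, hw, hWw⟩ := sys_W_dense F r hWW (ε := δ / (4 * (‖s‖ + 1))) (by positivity)
      have h5 := hN1 γ h3 h2 h4 w hw
      have h6 : F.q (r.R (G.st γ)) * F.q (ρ γ) = F.q (ρ γ) := by
        rw [F.q_mul, min_eq_right (r.R_rho γ)]
      have h7 : (s * W - W * s) * F.q (ρ γ) = (s * (W - w) - (W - w) * s) * F.q (ρ γ) +
          (s * w - w * s) * F.q (r.R (G.st γ)) * F.q (ρ γ) := by
        rw [mul_assoc (s * w - w * s), h6, ← add_mul]
        congr 1
        simp only [mul_sub, sub_mul]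
        abel
      have hq := F.q_opNorm_le (ρ γ)
      have h8 : ‖(s * w - w * s) * F.q (r.R (G.st γ)) * F.q (ρ γ)‖ ≤ δ / 2 := by
        refine (norm_mul_le _ _).trans ?_
        have := norm_nonneg (F.q (ρ γ))
        have h9 : ‖(s * w - w * s) * F.q (r.R (G.st γ))‖ ≤ δ / 2 := h5
        nlinarith [norm_nonneg ((s * w - w * s) * F.q (r.R (G.st γ)))]
      have h9 : ‖(s * (W - w) - (W - w) * s) * F.q (ρ γ)‖ ≤ δ / 2 := by
        have a1 := norm_mul_le s (W - w)
        have a2 := norm_mul_le (W - w) s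
        have a3 := norm_sub_le (s * (W - w)) ((W - w) * s)
        have a4 := norm_nonneg s
        have a5 : ‖s‖ * ‖W - w‖ ≤ δ / 4 := by
          calc ‖s‖ * ‖W - w‖ ≤ ‖s‖ * (δ / (4 * (‖s‖ + 1))) := by gcongr
            _ = δ / 4 * (‖s‖ / (‖s‖ + 1)) := by field_simp
            _ ≤ δ / 4 * 1 := by
                gcongr
                rw [div_le_one (by positivity)]
                linarith
            _ = δ / 4 := mul_one _
        refine (norm_mul_le _ _).trans ?_
        have a6 : ‖s * (W - w) - (W - w) * s‖ ≤ δ / 2 := by nlinarith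
        nlinarith [norm_nonneg (s * (W - w) - (W - w) * s), norm_nonneg (F.q (ρ γ))]
      rw [h7]
      refine (norm_add_le _ _).trans ?_
      linarith
    have hran : s ∈ Set.range π := by
      have hcl : IsClosed (Set.range π) := hπ.isClosedEmbedding.isClosed_range
      have hsub : (Algebra.adjoin ℂ (Set.range F.g) : Set (H →L[ℂ] H)) ⊆ Set.range π := by
        have h1 : Algebra.adjoin ℂ (Set.range F.g) ≤ (π : A →ₐ[ℂ] (H →L[ℂ] H)).range := by
          rw [Algebra.adjoin_le_iff]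
          rintro _ ⟨i, rfl⟩
          rw [hFg]
          exact ⟨gA i, rfl⟩
        intro x hx
        obtain ⟨a, ha⟩ := h1 hx
        exact ⟨a, ha⟩
      exact (closure_minimal hsub hcl) hmem
    obtain ⟨a, rfl⟩ := hran
    refine ⟨a, fun ε hε => ?_⟩
    obtain ⟨N, hN⟩ := (bd hD hk.mono).tail_of_sv hD hk hW hZ
      ((Zc (bd hD hk.mono) (cut F r)).subtypeL.comp T) (act (π a) 1) hs1 hε
    exact ⟨N, fun x hx hx2 γ => hN x hx hx2 γ⟩
  have H2 : ∀ g ∈ Set.range gA, ∃ T : Zc (bd hD hk.mono) (cut F r) →L[ℂ]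
      Zc (bd hD hk.mono) (cut F r), Rel (bd hD hk.mono) (cut F r) T (lam π g) := by
    rintro _ ⟨i, rfl⟩
    have h1 := good F r i
    have h2 : act (F.g i) 1 = lam π (gA i) := by rw [hFg]; rfl
    rw [h2] at h1
    exact exists_mult hmono hD hE (bd hD hk.mono) (cut F r) (lam π (gA i)) i _
      (by positivity) h1
  obtain ⟨φ, h1, h2, h3⟩ := calkin_iso hmono hD hE (B := bd hD hk.mono) (J := cut F r)
    (fun n => (sys F r).fin_UU n) (lam π) (norm_lam π)
    (fun a M hM h => by
      have h4 := norm_of_act (sys F r) (π a) hM h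
      rwa [hπ.norm_map_of_map_zero (map_zero π)] at h4)
    H1 (Set.range gA) hgen H2
  exact ⟨Zc (bd hD hk.mono) (cut F r), inferInstance, inferInstance, hZc, φ, h1, h2, h3⟩

end Pool.Agent.Helper509.AH
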