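import Pool.Agent.Helper509.AH.HKit2
import Pool.Agent.Helper509.FR.Bicomm

/-! The instance given by a frame: slow cutoffs and parameter spaces. -/

namespace Pool.Agent.Helper509.AH

open Filter Topology Pool.Agent.Helper509.FR

variable {H : Type*} [NormedAddCommGroup H] [InnerProductSpace ℂ H] [CompleteSpace H]

/-- The choice of the radii. -/
structure Rad (ρ : ℕ → ℕ) (G : Stages) where
  R : ℕ → ℕ
  L : ℕ → ℕ
  R_ge : ∀ t, t ≤ R t
  R_succ : ∀ t, R t + L t + 1 ≤ R (t + 1)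
  L_ge : ∀ t, 2 ^ ((t + 2) ^ 2) ≤ L t
  R_rho : ∀ n, ρ n ≤ R (G.st n)

theorem exists_rad (ρ : ℕ → ℕ) (G : Stages) : Nonempty (Rad ρ G) := by
  let A : ℕ → ℕ := fun t => ∑ n ∈ Finset.range ((t + 1) ^ 2 + 1), ρ n
  obtain ⟨E, hE⟩ : ∃ E : ℕ → ℕ, ∀ t, E t = 2 ^ ((t + 2) ^ 2) := ⟨fun t => 2 ^ ((t + 2) ^ 2), fun _ => rfl⟩
  let R : ℕ → ℕ := fun t => Nat.rec (A 0) (fun t r => r + E t + 1 + A (t + 1)) t
  have hR0 : R 0 = A 0 := rfl
  have hRs : ∀ t, R (t + 1) = R t + E t + 1 + A (t + 1) := fun t => rfl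
  refine ⟨⟨R, E, ?_, ?_, fun t => (hE t).ge, ?_⟩⟩
  · intro t
    induction t with
    | zero => exact Nat.zero_le _
    | succ t ih => rw [hRs]; omega
  · intro t
    rw [hRs]; omega
  · intro n
    have h1 : ρ n ≤ A (G.st n) :=
      Finset.single_le_sum (f := ρ) (fun _ _ => Nat.zero_le _)
        (Finset.mem_range.2 (by have := G.le_sq n; omega))
    refine h1.trans ?_
    cases h : G.st n with
    | zero => rw [hR0]
    | succ t => rw [hRs]; omega

variable {ρ : ℕ → ℕ} {G : Stages}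

namespace Rad

lemma L_pos (r : Rad ρ G) (t : ℕ) : 0 < r.L t :=
  lt_of_lt_of_le (by positivity) (r.L_ge t)

lemma R_mono (r : Rad ρ G) : Monotone r.R :=
  monotone_nat_of_le_succ fun t => by have := r.R_succ t; omega

lemma R_lt (r : Rad ρ G) {s t : ℕ} (h : s < t) : r.R s + r.L s + 1 ≤ r.R t :=
  (r.R_succ s).trans (r.R_mono h)

end Rad

/-- an auxiliary system -/
noncomputable def sys0 (F : Frame H) : HSys H where
  Q := F.q
  W _ := {1}
  sa := F.q_sa
  mul := F.q_mul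
  norm := F.q_opNorm_le
  fin := F.q_fin
  W_count _ := Set.countable_singleton _
  W_norm := by
    rintro n w rfl
    exact ContinuousLinearMap.norm_id_le
  W_one _ := rfl
  W_map := by
    rintro n m w rfl
    exact ⟨m, by rw [one_mul, F.q_mul, min_self]⟩
  lim := F.q_lim

/-- a countable dense subset of the admissible operators -/
lemma exists_WWc (F : Frame H) (n : ℕ) : ∃ C : Set (H →L[ℂ] H), C.Countable ∧ C ⊆ F.WW n ∧
    ∀ W ∈ F.WW n, ∀ ε > 0, ∃ w ∈ C, ‖W - w‖ ≤ ε := by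
  have hs : TopologicalSpace.IsSeparable (F.WW n) := by
    have h1 : TopologicalSpace.IsSeparable (⋃ M, ((sys0 F).SS M : Set (H →L[ℂ] H))) := by
      refine TopologicalSpace.IsSeparable.iUnion fun M => ?_
      have : ProperSpace ((sys0 F).SS M) := FiniteDimensional.proper ℂ _
      have : TopologicalSpace.SeparableSpace ((sys0 F).SS M) := inferInstance
      exact TopologicalSpace.IsSeparable.of_subtype _
    refine h1.mono fun W hW => ?_
    obtain ⟨-, ⟨M, hM⟩, -⟩ := hW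
    exact Set.mem_iUnion.2 ⟨M, hM⟩
  obtain ⟨C, hC1, hC2, hC3⟩ := hs.exists_countable_dense_subset
  refine ⟨C, hC2, hC1, fun W hW ε hε => ?_⟩
  obtain ⟨w, hw, hWw⟩ := Metric.mem_closure_iff.1 (hC3 hW) ε hε
  refine ⟨w, hw, ?_⟩
  rw [dist_eq_norm] at hWw
  exact hWw.le

/-- the countable dense set -/
noncomputable def WWc (F : Frame H) (n : ℕ) : Set (H →L[ℂ] H) := (exists_WWc F n).choose

/-- The system of a frame. -/
noncomputable def sys (F : Frame H) (r : Rad ρ G) : HSys H where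
  Q t := F.q (r.R t)
  W n := insert 1 (WWc F n)
  sa t := F.q_sa _
  mul s t := by
    rw [F.q_mul]
    congr 1
    rcases le_total s t with h | h
    · rw [min_eq_left h, min_eq_left (r.R_mono h)]
    · rw [min_eq_right h, min_eq_right (r.R_mono h)]
  norm t := F.q_opNorm_le _
  fin t := F.q_fin _
  W_count n := (exists_WWc F n).choose_spec.1.insert _
  W_norm := by
    rintro n w (rfl | hw)
    · exact ContinuousLinearMap.norm_id_le
    · exact ((exists_WWc F n).choose_spec.2.1 hw).1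
  W_one n := Set.mem_insert _ _
  W_map := by
    rintro n m w (rfl | hw)
    · exact ⟨m, by rw [one_mul, F.q_mul, min_self]⟩
    · obtain ⟨-, ⟨M, hM⟩, -⟩ := (exists_WWc F n).choose_spec.2.1 hw
      refine ⟨M, ?_⟩
      have h1 : F.q (r.R M) * w = w := by
        calc F.q (r.R M) * w = F.q (r.R M) * (F.q M * w * F.q M) := by rw [hM]
          _ = (F.q (r.R M) * F.q M) * w * F.q M := by simp only [mul_assoc]
          _ = w := by rw [F.q_mul, min_eq_right (r.R_ge M), hM]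
      rw [← mul_assoc, h1]
  lim x := (F.q_lim x).comp (tendsto_atTop_mono r.R_ge tendsto_id)

lemma sys_Q (F : Frame H) (r : Rad ρ G) (t : ℕ) : (sys F r).Q t = F.q (r.R t) := rfl

lemma sys_W_mem (F : Frame H) (r : Rad ρ G) {n : ℕ} {w : H →L[ℂ] H} (h : w ∈ (sys F r).W n) :
    w = 1 ∨ w ∈ F.WW n := by
  rcases h with rfl | h
  · exact Or.inl rfl
  · exact Or.inr ((exists_WWc F n).choose_spec.2.1 h)

lemma sys_W_dense (F : Frame H) (r : Rad ρ G) {n : ℕ} {W : H →L[ℂ] H} (h : W ∈ F.WW n)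
    {ε : ℝ} (hε : 0 < ε) : ∃ w ∈ (sys F r).W n, ‖W - w‖ ≤ ε := by
  obtain ⟨w, hw, h2⟩ := (exists_WWc F n).choose_spec.2.2 W h ε hε
  exact ⟨w, Set.mem_insert_of_mem _ hw, h2⟩

/-- the slow cutoffs -/
noncomputable def JJ (F : Frame H) (r : Rad ρ G) (t : ℕ) : H →L[ℂ] H := F.J (r.R t) (r.L t)

section JJ

variable (F : Frame H) (r : Rad ρ G)

lemma JJ_mul_q {t m : ℕ} (h : m ≤ r.R t) : JJ F r t * F.q m = F.q m :=
  F.J_mul_q (r.L_pos t) h

lemma JJ_mul_q' {t m : ℕ} (h : r.R t + r.L t ≤ m) : JJ F r t * F.q m = JJ F r t :=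
  F.J_mul_q' h

lemma q_mul_JJ' {t m : ℕ} (h : r.R t + r.L t ≤ m) : F.q m * JJ F r t = JJ F r t :=
  F.q_mul_J h

lemma q_comm (m n : ℕ) : F.q m * F.q n = F.q n * F.q m := by
  rw [F.q_mul, F.q_mul, min_comm]

lemma q_comm_JJ (m t : ℕ) : F.q m * JJ F r t = JJ F r t * F.q m := by
  unfold JJ Frame.J
  rw [mul_smul_comm, smul_mul_assoc, Finset.mul_sum, Finset.sum_mul]
  congr 1
  exact Finset.sum_congr rfl fun k _ => q_comm F _ _

lemma JJ_JJ {s t : ℕ} (h : s < t) : JJ F r s * JJ F r t = JJ F r s := by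
  have h1 := r.R_lt h
  calc JJ F r s * JJ F r t = JJ F r s * F.q (r.R t) * JJ F r t := by
        rw [JJ_mul_q' F r (by omega)]
    _ = JJ F r s * (JJ F r t * F.q (r.R t)) := by rw [mul_assoc, q_comm_JJ]
    _ = JJ F r s := by rw [JJ_mul_q F r le_rfl, JJ_mul_q' F r (by omega)]

lemma JJ_JJ' {s t : ℕ} (h : s < t) : JJ F r t * JJ F r s = JJ F r s := by
  have h1 := r.R_lt h
  calc JJ F r t * JJ F r s = JJ F r t * F.q (r.R t) * JJ F r s := by
        rw [mul_assoc, q_mul_JJ' F r (t := s) (by omega)]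
    _ = JJ F r s := by rw [JJ_mul_q F r le_rfl, q_mul_JJ' F r (by omega)]

lemma norm_JJ (t : ℕ) : ‖JJ F r t‖ ≤ 1 :=
  (F.J_avg (K := r.R t) (D := r.L t) (j := 0) (r.L_pos t) (Nat.zero_le _)).1

lemma norm_one_sub_JJ (t : ℕ) : ‖1 - JJ F r t‖ ≤ 1 := by
  have hL : (0 : ℝ) < r.L t := by exact_mod_cast r.L_pos t
  have hL' : ((r.L t : ℕ) : ℂ) ≠ 0 := by exact_mod_cast (r.L_pos t).ne'
  have h1 : 1 - JJ F r t = ((r.L t : ℕ) : ℂ)⁻¹ • ∑ k ∈ Finset.range (r.L t), (1 - F.q (r.R t + k)) := by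
    rw [Finset.sum_sub_distrib, smul_sub]
    unfold JJ Frame.J
    congr 1
    rw [Finset.sum_const, Finset.card_range, ← Nat.cast_smul_eq_nsmul ℂ, smul_smul,
      inv_mul_cancel₀ hL', one_smul]
  have h2 : ∀ m, ‖(1 : H →L[ℂ] H) - F.q m‖ ≤ 1 := by
    intro m
    refine ContinuousLinearMap.opNorm_le_bound _ zero_le_one fun x => ?_
    rw [one_mul, sub_apply, one_apply_eq_self]
    have h3 : inner ℂ (F.q m x) (x - F.q m x) = 0 := by
      rw [F.q_sa, map_sub, ← mul_apply_eq_comp, F.q_mul, min_self, sub_self, inner_zero_right]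
    have h4 : ‖x‖ * ‖x‖ = ‖F.q m x‖ * ‖F.q m x‖ + ‖x - F.q m x‖ * ‖x - F.q m x‖ := by
      have := norm_add_sq_eq_norm_sq_add_norm_sq_of_inner_eq_zero (F.q m x) (x - F.q m x) h3
      rw [add_sub_cancel] at this
      exact this
    nlinarith [norm_nonneg x, norm_nonneg (x - F.q m x), norm_nonneg (F.q m x)]
  rw [h1, norm_smul, norm_inv, Complex.norm_natCast, inv_mul_le_iff₀ hL, mul_one]
  refine (norm_sum_le _ _).trans ?_
  refine (Finset.sum_le_sum fun k _ => h2 _).trans ?_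
  simp

lemma JJ_sa (t : ℕ) (x y : H) : inner ℂ (JJ F r t x) y = inner ℂ x (JJ F r t y) := by
  unfold JJ Frame.J
  simp only [smul_apply, ContinuousLinearMap.sum_apply]
  rw [inner_smul_left, inner_smul_right, sum_inner, inner_sum]
  have h1 : (starRingEnd ℂ) (((r.L t : ℕ) : ℂ)⁻¹) = ((r.L t : ℕ) : ℂ)⁻¹ := by
    rw [map_inv₀]; simp
  rw [h1]
  congr 1
  exact Finset.sum_congr rfl fun k _ => F.q_sa _ _ _

/-- propagation of the generators -/
lemma q_g_q {i k m : ℕ} (hk : k + 1 ≤ m) (hi : i + 1 ≤ m) : F.q m * (F.g i * F.q k) = F.g i * F.q k := by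
  obtain ⟨l, hl⟩ : ∃ l, l = max i k := ⟨_, rfl⟩
  have h1 : F.q l * F.q k = F.q k := by rw [F.q_mul, min_eq_right (by omega)]
  have h2 := F.g_prop i l (by omega)
  calc F.q m * (F.g i * F.q k) = F.q m * (F.g i * F.q l) * F.q k := by
        rw [mul_assoc, mul_assoc, h1]
    _ = F.q m * (F.q (l + 1) * (F.g i * F.q l)) * F.q k := by rw [h2]
    _ = (F.q m * F.q (l + 1)) * (F.g i * F.q l) * F.q k := by simp only [mul_assoc]
    _ = F.g i * F.q k := by
        rw [F.q_mul, min_eq_right (by omega), h2, mul_assoc, h1]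

lemma q_g_JJ {i t m : ℕ} (hk : r.R t + r.L t + 1 ≤ m) (hi : i + 1 ≤ m) :
    F.q m * (F.g i * JJ F r t) = F.g i * JJ F r t := by
  calc F.q m * (F.g i * JJ F r t) = F.q m * (F.g i * F.q (r.R t + r.L t)) * JJ F r t := by
        rw [mul_assoc, mul_assoc, q_mul_JJ' F r le_rfl]
    _ = F.g i * JJ F r t := by
        rw [q_g_q F hk hi, mul_assoc, q_mul_JJ' F r le_rfl]

end JJ

end Pool.Agent.Helper509.AH
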