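import Pool.Agent.Helper509.AH.WinDef

namespace Pool.Agent.Helper509.AH

open Filter Topology

variable {E : Type*} [NormedAddCommGroup E] [NormedSpace ℂ E]
variable {X : Type*} [NormedAddCommGroup X] [NormedSpace ℂ X]
variable {D : Nodes E} {ok : ℕ → (E →L[ℂ] E) → Prop}
variable {S : Stages} {UU : ℕ → Submodule ℂ E}

section rel

variable (hmono : Monotone UU) (hD : D.Ok (VV UU S) ok)
    (hE : D.Ext (VV UU S) (UV UU S) S.isB) {B : BD D (VV UU S) X} {J : Cut UU}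

/-! PROOF IN WORDS.
add, smul, one: immediate from the definition (take the maximum of the two N, ε/2 each; for smul treat
c = 0 or use ε / (‖c‖ + 1)). lim: choose n with ‖T n - T'‖ ≤ ε/3, ‖Φ n - Φ'‖ ≤ ε/3 and N for T n, ε/3;
‖co γ (T' x) - Φ' (co γ x)‖ ≤ ‖T' - T n‖ ‖x‖ + ε/3 ‖x‖ + ‖Φ n - Φ'‖ ‖x‖ (norm_co).
bound: let v ∈ UU t, ε > 0, N from the relation. By hE.rich there is a birth node γ ≠ 0 with
γ ≥ max N ((t+2)^2): since γ ≤ (st γ + 1)^2, st γ ≥ t, so v ∈ UU (st γ) = UV UU S γ ≤ VV UU S γ. Let x = B.sv γ v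
(sv_spec): P γ x = 0, P (γ+1) x = x, co γ x = v, ‖x‖ ≤ 2 ‖v‖. It is in Y0 B J with the parameters
ξ c = v for c = cp γ = st γ (≥ 1) and 0 otherwise: dd γ x = v = J.j (st γ) v (j_U), dd n x = 0 for n ≠ γ
(dd_eq_zero_of_P_zero, dd_eq_zero_of_P_eq), and J.w S n v = v - v = 0 if cp n = cp γ, st n > st γ
(j_U and hmono). P N x = 0 since N ≤ γ (P_of_P_zero). So
‖Φ v‖ ≤ ‖co γ (T x)‖ + ε ‖x‖ ≤ (‖T‖ + ε) 2 ‖v‖; let ε → 0.
-/

theorem Rel.add {T T' : Zc B J →L[ℂ] Zc B J} {Φ Φ' : E →L[ℂ] E} (h : Rel B J T Φ)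
    (h' : Rel B J T' Φ') : Rel B J (T + T') (Φ + Φ') := by
  intro ε hε
  obtain ⟨N1, h1⟩ := h (ε / 2) (by positivity)
  obtain ⟨N2, h2⟩ := h' (ε / 2) (by positivity)
  refine ⟨max N1 N2, fun x hx hP γ => ?_⟩
  have e1 := h1 x hx (B.P_of_P_zero hP (le_max_left _ _)) γ
  have e2 := h2 x hx (B.P_of_P_zero hP (le_max_right _ _)) γ
  have e3 : B.co γ (((T + T') x : Zc B J) : X) - (Φ + Φ') (B.co γ (x : X)) =
      (B.co γ (T x : X) - Φ (B.co γ (x : X))) + (B.co γ (T' x : X) - Φ' (B.co γ (x : X))) := by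
    rw [add_apply, add_apply, Submodule.coe_add, map_add]
    abel
  rw [e3]
  refine (norm_add_le _ _).trans ?_
  linarith

theorem Rel.smul {T : Zc B J →L[ℂ] Zc B J} {Φ : E →L[ℂ] E} (c : ℂ) (h : Rel B J T Φ) :
    Rel B J (c • T) (c • Φ) := by
  intro ε hε
  have hc : 0 < ‖c‖ + 1 := by positivity
  obtain ⟨N, h1⟩ := h (ε / (‖c‖ + 1)) (by positivity)
  refine ⟨N, fun x hx hP γ => ?_⟩
  have e1 := h1 x hx hP γ
  have e3 : B.co γ (((c • T) x : Zc B J) : X) - (c • Φ) (B.co γ (x : X)) =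
      c • (B.co γ (T x : X) - Φ (B.co γ (x : X))) := by
    rw [smul_apply, smul_apply, Submodule.coe_smul,
      map_smul, smul_sub]
  rw [e3, norm_smul]
  calc ‖c‖ * ‖B.co γ (T x : X) - Φ (B.co γ (x : X))‖
      ≤ (‖c‖ + 1) * (ε / (‖c‖ + 1) * ‖x‖) := by
        apply mul_le_mul (by linarith) e1 (norm_nonneg _) hc.le
    _ = ε * ‖x‖ := by field_simp

theorem Rel.one : Rel B J 1 (ContinuousLinearMap.id ℂ E) := by
  intro ε hε
  refine ⟨0, fun x hx hP γ => ?_⟩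
  have e3 : B.co γ (((1 : Zc B J →L[ℂ] Zc B J) x : Zc B J) : X) -
      (ContinuousLinearMap.id ℂ E) (B.co γ (x : X)) = 0 := by
    simp
  rw [e3, norm_zero]
  positivity

lemma Rel.lim_aux {Y : Type*} [NormedAddCommGroup Y] [NormedSpace ℂ Y] {T : ℕ → Y →L[ℂ] Y}
    {T' : Y →L[ℂ] Y} (hT : Tendsto T atTop (𝓝 T')) :
    Tendsto (fun n => ‖T n - T'‖) atTop (𝓝 0) := tendsto_iff_norm_sub_tendsto_zero.1 hT

theorem Rel.lim {T : ℕ → Zc B J →L[ℂ] Zc B J} {T' : Zc B J →L[ℂ] Zc B J} {Φ : ℕ → E →L[ℂ] E}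
    {Φ' : E →L[ℂ] E} (h : ∀ n, Rel B J (T n) (Φ n)) (hT : Tendsto T atTop (𝓝 T'))
    (hΦ : Tendsto Φ atTop (𝓝 Φ')) : Rel B J T' Φ' := by
  intro ε hε
  have hT1 := Rel.lim_aux hT
  have hΦ1 := Rel.lim_aux hΦ
  have t1 := (hT1.eventually_le_const (show (0 : ℝ) < ε / 3 by positivity)).and
    (hΦ1.eventually_le_const (show (0 : ℝ) < ε / 3 by positivity))
  obtain ⟨n, hn1, hn2⟩ := t1.exists
  obtain ⟨N, h1⟩ := h n (ε / 3) (by positivity)
  refine ⟨N, fun x hx hP γ => ?_⟩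
  have e1 := h1 x hx hP γ
  have e3 : B.co γ (T' x : X) - Φ' (B.co γ (x : X)) =
      -B.co γ (((T n - T') x : Zc B J) : X) + (B.co γ (T n x : X) - Φ n (B.co γ (x : X))) +
        (Φ n - Φ') (B.co γ (x : X)) := by
    rw [sub_apply, sub_apply, Submodule.coe_sub, map_sub]
    abel
  have e4 : ‖-B.co γ (((T n - T') x : Zc B J) : X)‖ ≤ ε / 3 * ‖x‖ := by
    rw [norm_neg]
    refine (B.norm_co _ _).trans ?_
    refine le_trans (show ‖(((T n - T') x : Zc B J) : X)‖ ≤ ‖T n - T'‖ * ‖x‖ from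
      (T n - T').le_opNorm x) ?_
    gcongr
  have e5 : ‖(Φ n - Φ') (B.co γ (x : X))‖ ≤ ε / 3 * ‖x‖ := by
    refine ((Φ n - Φ').le_opNorm _).trans ?_
    refine mul_le_mul hn2 ?_ (norm_nonneg _) (by positivity)
    exact B.norm_co _ _
  rw [e3]
  refine (norm_add₃_le).trans ?_
  linarith

include hmono hD hE in
theorem Rel.bound {T : Zc B J →L[ℂ] Zc B J} {Φ : E →L[ℂ] E} (h : Rel B J T Φ) :
    ∀ t, ∀ v ∈ UU t, ‖Φ v‖ ≤ 2 * ‖T‖ * ‖v‖ := by
  intro t v hv
  have key : ∀ ε > 0, ‖Φ v‖ ≤ 2 * ‖T‖ * ‖v‖ + ε * (2 * ‖v‖) := by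
    intro ε hε
    obtain ⟨N, hN⟩ := h ε hε
    obtain ⟨γ, hγN, hγ0, hγB, -⟩ := hE.rich 0 (max N ((t + 2) ^ 2))
    have hst : t ≤ S.st γ := by
      by_contra hc
      push Not at hc
      have h1 := S.le_sq γ
      have h2 : (t + 2) ^ 2 ≤ (S.st γ + 1) ^ 2 := ((le_max_right _ _).trans hγN).trans h1
      have h3 : (S.st γ + 1) ^ 2 < (t + 2) ^ 2 := Nat.pow_lt_pow_left (by omega) (by norm_num)
      omega
    have hγB' : S.cp γ = S.st γ := hγB
    have hc0 : S.cp γ ≠ 0 := by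
      rw [hγB']
      intro h0
      have h1 := S.le_sq γ
      have h2 : (t + 2) ^ 2 ≤ (S.st γ + 1) ^ 2 := ((le_max_right _ _).trans hγN).trans h1
      rw [h0] at h2
      have h3 : 2 ^ 2 ≤ (t + 2) ^ 2 := Nat.pow_le_pow_left (by omega) 2
      norm_num at h2
      omega
    have hvU : v ∈ UU (S.st γ) := hmono hst hv
    have hvV : v ∈ VV UU S γ := hmono (Nat.le_succ _) hvU
    obtain ⟨g1, g2, g3, g4⟩ := B.sv_spec hγ0 hvV
    have hY : B.sv γ v ∈ Y0 B J := by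
      refine ⟨fun c => if c = S.cp γ then v else 0, ⟨γ + 1, g2⟩, fun c => ?_, fun n hn => ?_⟩
      · by_cases hc : c = S.cp γ
        · simp only [hc, if_true]
          exact J.U_Ξ _ hc0 (by rw [hγB']; exact hvU)
        · simp only [hc, if_false]
          exact Submodule.zero_mem _
      · rcases lt_trichotomy n γ with hlt | heq | hgt
        · rw [B.dd_eq_zero_of_P_zero g1 hlt]
          by_cases hc : S.cp n = S.cp γ
          · exfalso
            have h1 : S.st n ≤ S.st γ := S.mono hlt.le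
            have h2 := S.cp_le n
            have h3 : S.st n = S.st γ := by omega
            have h4 := S.ix_st n
            rw [h3, hc, S.ix_st γ] at h4
            omega
          · simp only [hc, if_false, map_zero]
        · rw [heq]
          simp only [if_true]
          have h1 : B.dd γ (B.sv γ v) = v := by
            unfold BD.dd
            rw [g1, sub_zero, g3]
          rw [h1]
          unfold Cut.w
          rw [if_pos hγB', J.j_U _ v hvU]
        · rw [B.dd_eq_zero_of_P_eq g2 (by omega)]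
          by_cases hc : S.cp n = S.cp γ
          · simp only [hc, if_true]
            have h1 : S.st γ ≤ S.st n := S.mono hgt.le
            have h2 : S.st γ ≠ S.st n := by
              intro h3
              have h4 := S.ix_st n
              rw [← h3, hc, S.ix_st γ] at h4
              omega
            have h5 : S.cp n ≠ S.st n := by omega
            unfold Cut.w
            rw [if_neg h5, sub_apply, J.j_U _ v (hmono (by omega) hvU),
              J.j_U _ v (hmono (by omega) hvU), sub_self]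
          · simp only [hc, if_false, map_zero]
    have hP : B.P N (B.sv γ v) = 0 := B.P_of_P_zero g1 ((le_max_left _ _).trans hγN)
    set xz : Zc B J := ⟨B.sv γ v, subset_closure hY⟩ with hxz
    have e1 : ‖B.co γ (T xz : X) - Φ (B.co γ (B.sv γ v))‖ ≤ ε * ‖xz‖ := hN xz hY hP γ
    rw [g3] at e1
    have e2 : ‖xz‖ ≤ 2 * ‖v‖ := g4
    have e3 : ‖B.co γ (T xz : X)‖ ≤ ‖T‖ * ‖xz‖ := (B.norm_co _ _).trans (T.le_opNorm xz)
    have e4 : Φ v = B.co γ (T xz : X) - (B.co γ (T xz : X) - Φ v) := by abel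
    have e5 : ‖Φ v‖ ≤ ‖B.co γ (T xz : X)‖ + ‖B.co γ (T xz : X) - Φ v‖ := by
      rw [e4]
      refine (norm_sub_le _ _).trans ?_
      rw [← e4]
    have e6 : ‖T‖ * ‖xz‖ ≤ ‖T‖ * (2 * ‖v‖) := by gcongr
    have e7 : ε * ‖xz‖ ≤ ε * (2 * ‖v‖) := by gcongr
    linarith
  refine le_of_forall_pos_le_add fun δ hδ => ?_
  have h1 := key (δ / (2 * ‖v‖ + 1)) (by positivity)
  refine h1.trans (add_le_add le_rfl ?_)
  rw [div_mul_eq_mul_div, div_le_iff₀ (by positivity)]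
  nlinarith [norm_nonneg v]

end rel

end Pool.Agent.Helper509.AH
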