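import Pool.Agent.Helper509.AH.HKit2

/-! The symbol of an operator. -/

namespace Pool.Agent.Helper509.AH

open Filter Topology

variable {H : Type*} [NormedAddCommGroup H] [InnerProductSpace ℂ H] [CompleteSpace H]

lemma repr_aux {F G : Type*} [AddCommGroup F] [Module ℂ F] [AddCommGroup G] [Module ℂ G]
    [FiniteDimensional ℂ F] [FiniteDimensional ℂ G] (j : G →ₗ[ℂ] F →ₗ[ℂ] ℂ)
    (h1 : ∀ s, (∀ h, j s h = 0) → s = 0) (h2 : ∀ h, (∀ s, j s h = 0) → h = 0) (φ : F →ₗ[ℂ] ℂ) :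
    ∃ s, ∀ h, φ h = j s h := by
  have hj : Function.Injective j := by
    refine (injective_iff_map_eq_zero j).2 fun s hs => h1 s fun h => ?_
    rw [hs]; rfl
  have hi : Function.Injective j.flip := by
    refine (injective_iff_map_eq_zero _).2 fun s hs => h2 s fun h => ?_
    exact DFunLike.congr_fun hs h
  have g1 := LinearMap.finrank_le_finrank_of_injective hj
  have g2 := LinearMap.finrank_le_finrank_of_injective hi
  have e1 : Module.finrank ℂ (F →ₗ[ℂ] ℂ) = Module.finrank ℂ F := Subspace.dual_finrank_eq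
  have e2 : Module.finrank ℂ (G →ₗ[ℂ] ℂ) = Module.finrank ℂ G := Subspace.dual_finrank_eq
  have h3 : Module.finrank ℂ G = Module.finrank ℂ (F →ₗ[ℂ] ℂ) := by omega
  have hsurj := (LinearMap.injective_iff_surjective_of_finrank_eq_finrank h3).1 hj
  obtain ⟨s, hs⟩ := hsurj φ
  exact ⟨s, fun h => by rw [← hs]⟩

/-- on the range of a finite rank operator pointwise convergence is uniform -/
lemma tendsto_mul_fin (T : ℕ → (H →L[ℂ] H)) (T' Q : H →L[ℂ] H)
    (hQ : FiniteDimensional ℂ (LinearMap.range (Q : H →ₗ[ℂ] H)))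
    (h : ∀ x, Tendsto (fun k => T k x) atTop (𝓝 (T' x))) :
    Tendsto (fun k => T k * Q) atTop (𝓝 (T' * Q)) := by
  set R := LinearMap.range (Q : H →ₗ[ℂ] H) with hR
  let b := Module.finBasis ℂ R
  let Q' : H →L[ℂ] R := Q.codRestrict R (fun x => ⟨x, rfl⟩)
  let f : Fin (Module.finrank ℂ R) → (H →L[ℂ] ℂ) := fun i =>
    (LinearMap.toContinuousLinearMap (b.coord i)).comp Q'
  have hQx : ∀ x, Q x = ∑ i, f i x • ((b i : R) : H) := by
    intro x
    have h1 : ∑ i, (b.repr (Q' x)) i • b i = Q' x := b.sum_repr (Q' x)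
    have h2 : (Q' x : H) = Q x := rfl
    rw [← h2, ← h1]
    simp only [Submodule.coe_sum, Submodule.coe_smul]
    simp only [f, h1]
    rfl
  have hdec : ∀ S : H →L[ℂ] H, S * Q = ∑ i, (f i).smulRight (S ((b i : R) : H)) := by
    intro S
    ext x
    simp only [ContinuousLinearMap.mul_apply, hQx x, map_sum, map_smul,
      ContinuousLinearMap.sum_apply, ContinuousLinearMap.smulRight_apply]
  rw [hdec T']
  have : (fun k => T k * Q) = fun k => ∑ i, (f i).smulRight (T k ((b i : R) : H)) := by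
    funext k; exact hdec (T k)
  rw [this]
  apply tendsto_finsetSum
  intro i _
  have hc : Continuous (fun y : H => (f i).smulRight y) := by
    have := (ContinuousLinearMap.smulRightL ℂ H H (f i)).continuous
    exact this
  exact (hc.tendsto _).comp (h _)

namespace HSys

variable (S : HSys H)

lemma corner_V (n : ℕ) (v : EE H) : act (S.Q n) (S.Q n) v ∈ S.UU n := by
  rw [mem_UU]; intro b
  rw [act_apply, act_apply]
  congr 1
  calc S.Q n * (S.Q n * b * S.Q n) * S.Q n = (S.Q n * S.Q n) * b * (S.Q n * S.Q n) := by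
        simp only [mul_assoc]
    _ = _ := by rw [S.QQ]

lemma norm_corner_V (n : ℕ) (v : EE H) : ‖act (S.Q n) (S.Q n) v‖ ≤ ‖v‖ := by
  refine ContinuousLinearMap.opNorm_le_bound _ (norm_nonneg _) fun b => ?_
  rw [act_apply]
  refine (v.le_opNorm _).trans ?_
  gcongr
  exact S.norm_corner n b

lemma corner_apply {n : ℕ} {s : H →L[ℂ] H} (hs : s ∈ S.SS n) (v : EE H) :
    act (S.Q n) (S.Q n) v s = v s := by
  rw [act_apply, S.mem_SS.1 hs]

/-- Reflexivity of the coordinate spaces. -/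
lemma exists_repr (n : ℕ) (φ : S.UU n →ₗ[ℂ] ℂ) : ∃ s ∈ S.SS n, ∀ h : S.UU n, φ h = h.1 s := by
  let j : S.SS n →ₗ[ℂ] (S.UU n →ₗ[ℂ] ℂ) :=
    { toFun := fun s =>
        { toFun := fun h => h.1 s.1
          map_add' := fun h h' => rfl
          map_smul' := fun c h => rfl }
      map_add' := fun s s' => by ext h; exact map_add h.1 s.1 s'.1
      map_smul' := fun c s => by ext h; exact map_smul h.1 c s.1 }
  have h1 : ∀ s : S.SS n, (∀ h : S.UU n, j s h = 0) → s = 0 := by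
    intro s hs
    by_contra hne
    have hne' : (s : H →L[ℂ] H) ≠ 0 := fun h => hne (Subtype.ext h)
    obtain ⟨v, hv1, hv2⟩ := exists_dual_vector ℂ (s : H →L[ℂ] H) (norm_ne_zero_iff.2 hne')
    have h1 := hs ⟨_, S.corner_V n v⟩
    have h2 : act (S.Q n) (S.Q n) v s.1 = 0 := h1
    rw [S.corner_apply s.2, hv2] at h2
    exact hne' (by simpa using h2)
  have h2 : ∀ h : S.UU n, (∀ s : S.SS n, j s h = 0) → h = 0 := by
    intro h hh
    apply Subtype.ext
    ext b
    have h1 := hh ⟨_, S.corner_mem n b⟩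
    have h2 : h.1 (S.Q n * b * S.Q n) = 0 := h1
    rw [← S.mem_UU.1 h.2, h2]; rfl
  obtain ⟨s, hs⟩ := repr_aux (F := S.UU n) (G := S.SS n) j h1 h2 φ
  exact ⟨s.1, s.2, fun h => hs h⟩

/-- rank one operator `x ↦ ⟨b, x⟩ a` -/
noncomputable def ro (a b : H) : H →L[ℂ] H := (innerSL ℂ b).smulRight a

lemma ro_apply (a b x : H) : ro a b x = (inner ℂ b x) • a := rfl

lemma norm_ro_le (a b : H) : ‖ro a b‖ ≤ ‖a‖ * ‖b‖ := by
  refine ContinuousLinearMap.opNorm_le_bound _ (by positivity) fun x => ?_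
  rw [ro_apply, norm_smul]
  have := norm_inner_le_norm (𝕜 := ℂ) b x
  have h2 := norm_nonneg a
  nlinarith

lemma ro_mem {n : ℕ} {a b : H} (ha : S.Q n a = a) (hb : S.Q n b = b) : ro a b ∈ S.SS n := by
  rw [mem_SS]
  ext x
  simp only [mul_apply_eq_comp, ro_apply, map_smul, ha]
  rw [← S.sa, hb]

/-- vector state -/
noncomputable def om (x y : H) : EE H := (innerSL ℂ x).comp (ContinuousLinearMap.apply ℂ H y)

lemma om_apply (x y : H) (b : H →L[ℂ] H) : om x y b = inner ℂ x (b y) := rfl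

lemma norm_om_le (x y : H) : ‖om x y‖ ≤ ‖x‖ * ‖y‖ := by
  refine ContinuousLinearMap.opNorm_le_bound _ (by positivity) fun b => ?_
  rw [om_apply]
  refine (norm_inner_le_norm _ _).trans ?_
  have := b.le_opNorm y
  have h2 := norm_nonneg x
  nlinarith

lemma om_mem {n : ℕ} {x y : H} (hx : S.Q n x = x) (hy : S.Q n y = y) : om x y ∈ S.UU n := by
  rw [mem_UU]; intro b
  simp only [om_apply, mul_apply_eq_comp, hy]
  rw [← S.sa, hx]

variable {X : Type*} [NormedAddCommGroup X] [NormedSpace ℂ X] {D : Nodes (EE H)} {G : Stages}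
variable {Y0 Z : Submodule ℂ X}

/-- The symbols of the diagonal parts. -/
lemma exists_sym (B : BD D (VV S.UU G) X)
    (hW : Win B (UV S.UU G) G.isB Y0) (hZ : Y0 ≤ Z) (T : Z →L[ℂ] X) :
    ∃ s : ℕ → (H →L[ℂ] H), (∀ γ, s γ ∈ S.SS (G.st γ)) ∧ (∀ γ, ‖s γ‖ ≤ 2 * ‖T‖) ∧
      ∀ γ, G.isB γ → γ ≠ 0 → ∀ h ∈ UV S.UU G γ, B.F T γ h 1 = h (s γ) := by
  have h1 : ∀ γ, ∃ s ∈ S.SS (G.st γ), ‖s‖ ≤ 2 * ‖T‖ ∧
      (G.isB γ → γ ≠ 0 → ∀ h ∈ UV S.UU G γ, B.F T γ h 1 = h s) := by
    intro γ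
    by_cases hγ : G.isB γ ∧ γ ≠ 0
    swap
    · exact ⟨0, Submodule.zero_mem _, by rw [norm_zero]; positivity,
        fun h1 h2 => absurd ⟨h1, h2⟩ hγ⟩
    obtain ⟨hB, hγ⟩ := hγ
    have hk := S.kit G
    obtain ⟨s, hs, hs2⟩ := S.exists_repr (G.st γ)
      { toFun := fun h => B.F T γ h.1 1
        map_add' := fun h h' => by
          change B.F T γ (h.1 + h'.1) 1 = _
          rw [B.F_add hk hW hZ T hB hγ h.2 h'.2]; rfl
        map_smul' := fun c h => by
          change B.F T γ (c • h.1) 1 = _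
          rw [B.F_smul hk hW hZ T hB hγ c h.2]; rfl }
    refine ⟨s, hs, ?_, fun _ _ h hh => hs2 ⟨h, hh⟩⟩
    by_cases hs0 : ‖s‖ = 0
    · rw [hs0]; positivity
    obtain ⟨v, hv1, hv2⟩ := exists_dual_vector ℂ s hs0
    have h2 := hs2 ⟨_, S.corner_V (G.st γ) v⟩
    have h3 : B.F T γ (act (S.Q (G.st γ)) (S.Q (G.st γ)) v) 1 =
      act (S.Q (G.st γ)) (S.Q (G.st γ)) v s := h2
    rw [S.corner_apply hs, hv2] at h3
    have h4 : ‖B.F T γ (act (S.Q (G.st γ)) (S.Q (G.st γ)) v) 1‖ ≤ 2 * ‖T‖ := by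
      refine ((B.F T γ (act (S.Q (G.st γ)) (S.Q (G.st γ)) v)).le_opNorm _).trans ?_
      have a1 := B.norm_F hk T hγ (S.corner_V (G.st γ) v)
      have a2 := S.norm_corner_V (G.st γ) v
      rw [hv1] at a2
      have a3 := norm_one_le (H := H)
      have a4 := norm_nonneg (B.F T γ (act (S.Q (G.st γ)) (S.Q (G.st γ)) v))
      have a5 := norm_nonneg T
      nlinarith
    rw [h3] at h4
    simpa using h4
  choose s hs1 hs2 hs3 using h1
  exact ⟨s, hs1, hs2, hs3⟩

end HSys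

end Pool.Agent.Helper509.AH
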