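import Pool.Agent.Helper509.AH.SymBase

namespace Pool.Agent.Helper509.AH

open Filter Topology

variable {H : Type*} [NormedAddCommGroup H] [InnerProductSpace ℂ H] [CompleteSpace H]

namespace HSys

variable (S : HSys H)

variable {X : Type*} [NormedAddCommGroup X] [NormedSpace ℂ X] {D : Nodes (EE H)} {G : Stages}
variable {Y0 Z : Submodule ℂ X}

/-- `Q n` fixes what a smaller projection fixes -/
lemma Q_fix {m n : ℕ} (h : m ≤ n) {α : H} (hα : S.Q m α = α) : S.Q n α = α := by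
  have := DFunLike.congr_fun (S.QQ_ge h) α
  rw [mul_apply_eq_comp, hα] at this
  exact this

lemma Q_zero {m n : ℕ} (h : m ≤ n) {α : H} (hα : S.Q n α = 0) : S.Q m α = 0 := by
  have := DFunLike.congr_fun (S.QQ_le h) α
  rw [mul_apply_eq_comp, hα, map_zero] at this
  exact this.symm

lemma om_ro {α : H} (hα : ‖α‖ = 1) (y : H) (t : H →L[ℂ] H) :
    om α α (ro α y * t) = inner ℂ y (t α) := by
  rw [om_apply, mul_apply_eq_comp, ro_apply, inner_smul_right,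
    inner_self_eq_norm_sq_to_K, hα]
  simp

lemma sym_cauchy_one (B : BD D (VV S.UU G) X) (T : Z →L[ℂ] X)
    {s : ℕ → (H →L[ℂ] H)} (hs1 : ∀ γ, s γ ∈ S.SS (G.st γ)) {δ : ℝ} (hδ : 0 < δ) {N : ℕ}
    (hN : ∀ γ γ', G.isB γ → G.isB γ' → γ ≠ 0 → γ' ≠ 0 → N ≤ D.wt γ → N ≤ D.wt γ' →
      G.st γ ≤ G.st γ' → ∀ h ∈ UV S.UU G γ, ‖h‖ ≤ 1 → ∀ b ∈ S.SS (G.st γ'), ‖b‖ ≤ 1 →
        ‖B.F T γ h b - h (b * s γ')‖ ≤ δ) :
    ∀ γ γ' γ'', G.isB γ → G.isB γ' → G.isB γ'' → γ ≠ 0 → γ' ≠ 0 → γ'' ≠ 0 → N ≤ D.wt γ →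
      N ≤ D.wt γ' → N ≤ D.wt γ'' → G.st γ + 1 ≤ G.st γ' → G.st γ' ≤ G.st γ'' →
      ∀ α, S.Q (G.st γ) α = α → ‖α‖ = 1 → ‖(s γ' - s γ'') α‖ ≤ 3 * δ := by
  intro γ γ' γ'' b1 b2 b3 n1 n2 n3 w1 w2 w3 h1 h2 α hα hα1
  set h : EE H := om α α with hh
  have hmem : h ∈ UV S.UU G γ := S.om_mem hα hα
  have hnorm : ‖h‖ ≤ 1 := by
    have := norm_om_le α α
    rw [hα1, mul_one] at this
    exact this
  have hro : ∀ y : H, ‖y‖ ≤ 1 → ‖ro α y‖ ≤ 1 := fun y hy => by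
    have := norm_ro_le α y
    rw [hα1, one_mul] at this
    exact this.trans hy
  -- (1)
  have p1 : ∀ y : H, S.Q (G.st γ') y = y → ‖y‖ ≤ 1 → ‖(inner ℂ y ((s γ' - s γ'') α) : ℂ)‖ ≤ 2 * δ := by
    intro y hy hy1
    have e1 := hN γ γ' b1 b2 n1 n2 w1 w2 (by omega) h hmem hnorm (ro α y)
      (S.ro_mem (S.Q_fix (by omega) hα) hy) (hro y hy1)
    have e2 := hN γ γ'' b1 b3 n1 n3 w1 w3 (by omega) h hmem hnorm (ro α y)
      (S.ro_mem (S.Q_fix (by omega) hα) (S.Q_fix h2 hy)) (hro y hy1)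
    rw [hh, om_ro hα1] at e1 e2
    rw [sub_apply, inner_sub_right]
    have e3 : (inner ℂ y (s γ' α) : ℂ) - inner ℂ y (s γ'' α) =
        (B.F T γ (om α α) (ro α y) - inner ℂ y (s γ'' α)) -
          (B.F T γ (om α α) (ro α y) - inner ℂ y (s γ' α)) := by ring
    rw [e3]
    refine (norm_sub_le _ _).trans ?_
    linarith
  -- (2)
  have p2 : ∀ y : H, S.Q (G.st γ'') y = y → S.Q (G.st γ') y = 0 → ‖y‖ ≤ 1 →
      ‖(inner ℂ y (s γ'' α) : ℂ)‖ ≤ δ := by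
    intro y hy hy0 hy1
    have e2 := hN γ γ'' b1 b3 n1 n3 w1 w3 (by omega) h hmem hnorm (ro α y)
      (S.ro_mem (S.Q_fix (by omega) hα) hy) (hro y hy1)
    have hF : B.F T γ h (ro α y) = 0 := by
      have hm : B.F T γ h ∈ S.UU (G.st γ + 1) := B.F_mem T γ h
      rw [← S.mem_UU.1 hm (ro α y)]
      have : ro α y * S.Q (G.st γ + 1) = 0 := by
        ext x
        rw [mul_apply_eq_comp, ro_apply, ← S.sa, S.Q_zero h1 hy0,
          inner_zero_left, zero_smul]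
        rfl
      rw [mul_assoc, this, mul_zero, map_zero]
    rw [hF, hh, om_ro hα1, zero_sub, norm_neg] at e2
    exact e2
  -- (3)
  set z : H := (s γ' - s γ'') α with hz
  set Q := S.Q (G.st γ') with hQ
  have q1 : S.Q (G.st γ'') z = z := by
    have a1 := DFunLike.congr_fun (S.left_of_mem (S.SS_mono h2 (hs1 γ'))) α
    have a2 := DFunLike.congr_fun (S.left_of_mem (hs1 γ'')) α
    rw [mul_apply_eq_comp] at a1 a2
    rw [hz, sub_apply, map_sub, a1, a2]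
  have q2 : Q (Q z) = Q z := DFunLike.congr_fun (S.QQ (G.st γ')) z
  have q3 : Q (s γ' α) = s γ' α := DFunLike.congr_fun (S.left_of_mem (hs1 γ')) α
  have r1 : ‖Q z‖ ≤ 2 * δ := by
    by_cases h0 : ‖Q z‖ = 0
    · rw [h0]; positivity
    have hpos : 0 < ‖Q z‖ := lt_of_le_of_ne (norm_nonneg _) (Ne.symm h0)
    have := p1 (((‖Q z‖⁻¹ : ℝ) : ℂ) • Q z) (by rw [map_smul, q2]) (by
      rw [norm_smul, Complex.norm_real, norm_inv, norm_norm, inv_mul_cancel₀ h0])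
    rw [inner_smul_left, norm_mul, Complex.conj_ofReal, Complex.norm_real, norm_inv,
      norm_norm] at this
    have e : (inner ℂ (Q z) z : ℂ) = inner ℂ (Q z) (Q z) := by
      rw [← S.sa, q2]
    rw [e, inner_self_eq_norm_sq_to_K, norm_pow] at this
    simp only [Complex.coe_algebraMap, Complex.norm_real, norm_norm] at this
    rw [inv_mul_le_iff₀ hpos] at this
    nlinarith
  have r2 : ‖z - Q z‖ ≤ δ := by
    set z2 := z - Q z with hz2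
    by_cases h0 : ‖z2‖ = 0
    · rw [h0]; positivity
    have hpos : 0 < ‖z2‖ := lt_of_le_of_ne (norm_nonneg _) (Ne.symm h0)
    have t1 : Q z2 = 0 := by rw [hz2, map_sub, q2, sub_self]
    have t2 : S.Q (G.st γ'') z2 = z2 := by
      rw [hz2, map_sub, q1, S.Q_fix h2 q2]
    have := p2 (((‖z2‖⁻¹ : ℝ) : ℂ) • z2) (by rw [map_smul, t2]) (by
      rw [map_smul, t1, smul_zero]) (by
      rw [norm_smul, Complex.norm_real, norm_inv, norm_norm, inv_mul_cancel₀ h0])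
    rw [inner_smul_left, norm_mul, Complex.conj_ofReal, Complex.norm_real, norm_inv,
      norm_norm] at this
    have e1 : (inner ℂ z2 (s γ' α) : ℂ) = 0 := by
      rw [← q3, ← S.sa, t1, inner_zero_left]
    have e2 : (inner ℂ z2 (Q z) : ℂ) = 0 := by
      rw [← S.sa, t1, inner_zero_left]
    have e3 : (inner ℂ z2 z2 : ℂ) = - inner ℂ z2 (s γ'' α) := by
      have : (inner ℂ z2 z : ℂ) = inner ℂ z2 z2 := by
        conv_rhs => rw [hz2]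
        rw [← hz2, inner_sub_right, e2, sub_zero]
      rw [← this, hz, sub_apply, inner_sub_right, e1, zero_sub]
    have e4 : ‖(inner ℂ z2 (s γ'' α) : ℂ)‖ = ‖z2‖ ^ 2 := by
      rw [← norm_neg, ← e3, inner_self_eq_norm_sq_to_K, norm_pow]
      simp
    rw [e4, inv_mul_le_iff₀ hpos] at this
    nlinarith
  calc ‖z‖ = ‖Q z + (z - Q z)‖ := by congr 1; abel
    _ ≤ ‖Q z‖ + ‖z - Q z‖ := norm_add_le _ _
    _ ≤ 3 * δ := by linarith

/-- the symbols converge on the vectors of finite support -/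
lemma sym_cauchy (B : BD D (VV S.UU G) X) (T : Z →L[ℂ] X)
    {s : ℕ → (H →L[ℂ] H)} (hs1 : ∀ γ, s γ ∈ S.SS (G.st γ)) {δ : ℝ} (hδ : 0 < δ) {N : ℕ}
    (hN : ∀ γ γ', G.isB γ → G.isB γ' → γ ≠ 0 → γ' ≠ 0 → N ≤ D.wt γ → N ≤ D.wt γ' →
      G.st γ ≤ G.st γ' → ∀ h ∈ UV S.UU G γ, ‖h‖ ≤ 1 → ∀ b ∈ S.SS (G.st γ'), ‖b‖ ≤ 1 →
        ‖B.F T γ h b - h (b * s γ')‖ ≤ δ) :
    ∀ γ γ' γ'', G.isB γ → G.isB γ' → G.isB γ'' → γ ≠ 0 → γ' ≠ 0 → γ'' ≠ 0 → N ≤ D.wt γ →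
      N ≤ D.wt γ' → N ≤ D.wt γ'' → G.st γ + 1 ≤ G.st γ' → G.st γ' ≤ G.st γ'' →
      ∀ α, S.Q (G.st γ) α = α → ‖(s γ' - s γ'') α‖ ≤ 3 * δ * ‖α‖ := by
  intro γ γ' γ'' b1 b2 b3 n1 n2 n3 w1 w2 w3 h1 h2 α hα
  by_cases h0 : ‖α‖ = 0
  · rw [norm_eq_zero] at h0
    rw [h0, map_zero, norm_zero, mul_zero]
  have := S.sym_cauchy_one B T hs1 hδ hN γ γ' γ'' b1 b2 b3 n1 n2 n3 w1 w2 w3 h1 h2
    (((‖α‖⁻¹ : ℝ) : ℂ) • α) (by rw [map_smul, hα]) (by
      rw [norm_smul, Complex.norm_real, norm_inv, norm_norm, inv_mul_cancel₀ h0])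
  have hpos : 0 < ‖α‖ := lt_of_le_of_ne (norm_nonneg _) (Ne.symm h0)
  rw [map_smul, norm_smul, Complex.norm_real, norm_inv, norm_norm, inv_mul_le_iff₀ hpos] at this
  linarith

end HSys

end Pool.Agent.Helper509.AH
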