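import Pool.Agent.Helper509.AH.SymBase

namespace Pool.Agent.Helper509.AH

open Filter Topology

variable {H : Type*} [NormedAddCommGroup H] [InnerProductSpace ℂ H] [CompleteSpace H]

namespace HSys

variable (S : HSys H)

variable {X : Type*} [NormedAddCommGroup X] [NormedSpace ℂ X] {D : Nodes (EE H)} {G : Stages}
variable {Y0 Z : Submodule ℂ X}

/-! PROOF IN WORDS.
Take N from B.comm hD (S.kit G) hW hZ T (δ := δ). Let γ, γ', h, b be as in the statement. First let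
b = c ∈ S.C, c ∈ S.SS (st γ') (‖c‖ ≤ 1 is not needed). k = act 1 c ∈ S.K γ (with w = 1 ∈ S.W γ by W_one). k h ∈ UV S.UU G γ' =
S.UU (st γ') by S.act_mem (m = st γ, M = st γ'): Q m * c * Q M = Q m * c since c * Q M = c
(right_of_mem), and Q M * (1 * Q m) = 1 * Q m as m ≤ M (QQ_ge). So
‖B.F T γ' (k h) - k (B.F T γ h)‖ ≤ δ. Evaluate at 1 : H →L[ℂ] H (norm ≤ 1, norm_one_le):
B.F T γ' (k h) 1 = (k h) (s γ') = h (c * s γ') (hs3, act_apply) and k (B.F T γ h) 1 = B.F T γ h c. So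
‖B.F T γ h c - h (c * s γ')‖ ≤ δ. General b ∈ S.SS (st γ') with ‖b‖ ≤ 1: for every ε > 0 take c by
S.C_dense with ‖c - b‖ ≤ ε; then ‖B.F T γ h b - h (b * s γ')‖ ≤ δ + (‖B.F T γ h‖ + ‖h‖ ‖s γ'‖) ε; let
ε → 0 (le_of_forall_pos_le_add or the like; choose ε = η / (‖B.F T γ h‖ + ‖h‖ ‖s γ'‖ + 1)).
-/

/-- comparison with the symbols of later nodes -/
lemma sym_cmp (hD : D.Ok (VV S.UU G) S.ok) (B : BD D (VV S.UU G) X)
    (hW : Win B (UV S.UU G) G.isB Y0) (hZ : Y0 ≤ Z) (T : Z →L[ℂ] X)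
    {s : ℕ → (H →L[ℂ] H)} (hs1 : ∀ γ, s γ ∈ S.SS (G.st γ)) (hs2 : ∀ γ, ‖s γ‖ ≤ 2 * ‖T‖)
    (hs3 : ∀ γ, G.isB γ → γ ≠ 0 → ∀ h ∈ UV S.UU G γ, B.F T γ h 1 = h (s γ)) {δ : ℝ} (hδ : 0 < δ) :
    ∃ N, ∀ γ γ', G.isB γ → G.isB γ' → γ ≠ 0 → γ' ≠ 0 → N ≤ D.wt γ → N ≤ D.wt γ' →
      G.st γ ≤ G.st γ' → ∀ h ∈ UV S.UU G γ, ‖h‖ ≤ 1 → ∀ b ∈ S.SS (G.st γ'), ‖b‖ ≤ 1 →
        ‖B.F T γ h b - h (b * s γ')‖ ≤ δ := by
  obtain ⟨N, hN⟩ := B.comm hD (S.kit G) hW hZ T hδ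
  refine ⟨N, fun γ γ' hB hB' hγ hγ' hw hw' hst h hh hh1 b hb hb1 => ?_⟩
  -- the case of the dense set
  have key : ∀ c ∈ S.C, c ∈ S.SS (G.st γ') → ‖B.F T γ h c - h (c * s γ')‖ ≤ δ := by
    intro c hc hcS
    have hk : act 1 c ∈ S.K γ := ⟨1, S.W_one γ, c, Or.inl hc, rfl⟩
    have hmem : act 1 c h ∈ UV S.UU G γ' := by
      refine S.act_mem (m := G.st γ) (M := G.st γ') ?_ ?_ hh
      · rw [mul_assoc, S.right_of_mem hcS]
      · rw [one_mul, S.QQ_ge hst]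
    have h1 := hN γ γ' hB hB' hγ hγ' hw hw' h hh hh1 _ hk hmem
    have h2 : (B.F T γ' (act 1 c h) - act 1 c (B.F T γ h)) 1 = h (c * s γ') - B.F T γ h c := by
      rw [sub_apply, hs3 γ' hB' hγ' _ hmem, act_apply, act_apply, mul_one, mul_one, mul_one]
    rw [norm_sub_rev, ← h2]
    refine (ContinuousLinearMap.le_opNorm _ _).trans ?_
    have h3 := norm_one_le (H := H)
    have h4 := norm_nonneg (B.F T γ' (act 1 c h) - act 1 c (B.F T γ h))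
    have h5 := norm_nonneg (1 : H →L[ℂ] H)
    nlinarith
  have hA := norm_nonneg (B.F T γ h)
  have hS := norm_nonneg (s γ')
  refine le_of_forall_pos_le_add fun ε hε => ?_
  have hpos : 0 < ‖B.F T γ h‖ + ‖s γ'‖ + 1 := by positivity
  obtain ⟨c, hc, hcS, hcb⟩ := S.C_dense hb hb1 (ε := ε / (‖B.F T γ h‖ + ‖s γ'‖ + 1))
    (by positivity)
  have h1 := key c hc hcS
  have h2 : ‖B.F T γ h (c - b)‖ ≤ ‖B.F T γ h‖ * ‖c - b‖ := (B.F T γ h).le_opNorm _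
  have h3 : ‖h ((c - b) * s γ')‖ ≤ ‖c - b‖ * ‖s γ'‖ := by
    refine (h.le_opNorm _).trans ?_
    have h5 := norm_nonneg ((c - b) * s γ')
    have h6 : ‖(c - b) * s γ'‖ ≤ ‖c - b‖ * ‖s γ'‖ := norm_mul_le _ _
    nlinarith
  have h4 : B.F T γ h b - h (b * s γ') = (B.F T γ h c - h (c * s γ')) -
      (B.F T γ h (c - b) - h ((c - b) * s γ')) := by
    rw [sub_mul, map_sub, map_sub]; ring
  have h5 : ‖c - b‖ * (‖B.F T γ h‖ + ‖s γ'‖ + 1) ≤ ε := by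
    rwa [le_div_iff₀ hpos] at hcb
  have h6 := norm_nonneg (c - b)
  rw [h4]
  calc _ ≤ ‖B.F T γ h c - h (c * s γ')‖ + ‖B.F T γ h (c - b) - h ((c - b) * s γ')‖ :=
        norm_sub_le _ _
    _ ≤ δ + (‖B.F T γ h (c - b)‖ + ‖h ((c - b) * s γ')‖) := by
        gcongr; exact norm_sub_le _ _
    _ ≤ δ + (‖B.F T γ h‖ * ‖c - b‖ + ‖c - b‖ * ‖s γ'‖) := by gcongr
    _ ≤ δ + ε := by nlinarith

end HSys

end Pool.Agent.Helper509.AH
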