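import Pool.Agent.Helper509.AH.SymCmp
import Pool.Agent.Helper509.AH.SymCauchy

namespace Pool.Agent.Helper509.AH

open Filter Topology

variable {H : Type*} [NormedAddCommGroup H] [InnerProductSpace ℂ H] [CompleteSpace H]

namespace HSys

variable (S : HSys H)

variable {X : Type*} [NormedAddCommGroup X] [NormedSpace ℂ X] {D : Nodes (EE H)} {G : Stages}
variable {Y0 Z : Submodule ℂ X}

/-! PROOF IN WORDS.
hW.wt l N gives nodes ≥ N; as n ≤ (st n + 1)^2 (G.le_sq), N = (k + 2)^2 gives st ≥ k: choose g k with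
isB, g k ≠ 0, wt ≥ k, st (g k) ≥ k. Claim: for every x the sequence s (g k) x is Cauchy. Given
ε > 0 choose t with ‖x - S.Q t x‖ ≤ ε / (8 (‖T‖ + 1)) (S.lim) and put α = S.Q t x; choose δ > 0 with
3 δ ‖α‖ ≤ ε / 4 and N from sym_cmp; choose a birth node γ with wt ≥ N and st γ ≥ t (so
S.Q (st γ) α = α); for k, l ≥ max N (st γ + 1) we get ‖(s (g k) - s (g l)) α‖ ≤ 3 δ ‖α‖ by sym_cauchy
(order k, l so that st (g k) ≤ st (g l)), and ‖(s (g k) - s (g l)) (x - α)‖ ≤ 4 ‖T‖ ‖x - α‖. So the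
limit exists (H is complete); it is linear in x and bounded by 2 ‖T‖ ‖x‖, giving s' (for instance
continuousLinearMapOfTendsto, or LinearMap.mkContinuous of the pointwise limit).
-/

/-- the limit of the symbols -/
lemma sym_lim (hD : D.Ok (VV S.UU G) S.ok) (B : BD D (VV S.UU G) X)
    (hW : Win B (UV S.UU G) G.isB Y0) (hZ : Y0 ≤ Z) (T : Z →L[ℂ] X)
    {s : ℕ → (H →L[ℂ] H)} (hs1 : ∀ γ, s γ ∈ S.SS (G.st γ)) (hs2 : ∀ γ, ‖s γ‖ ≤ 2 * ‖T‖)
    (hs3 : ∀ γ, G.isB γ → γ ≠ 0 → ∀ h ∈ UV S.UU G γ, B.F T γ h 1 = h (s γ)) :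
    ∃ (g : ℕ → ℕ) (s' : H →L[ℂ] H), (∀ k, G.isB (g k) ∧ g k ≠ 0 ∧ k ≤ D.wt (g k) ∧
      k ≤ G.st (g k)) ∧ ‖s'‖ ≤ 2 * ‖T‖ ∧
      ∀ x, Tendsto (fun k => s (g k) x) atTop (𝓝 (s' x)) := by
  classical
  have hex : ∀ k : ℕ, ∃ γ, G.isB γ ∧ γ ≠ 0 ∧ k ≤ D.wt γ ∧ k ≤ G.st γ := by
    intro k
    obtain ⟨γ, h1, h2, h3, h4⟩ := hW.wt k ((k + 2) ^ 2)
    refine ⟨γ, h3, h2, h4, ?_⟩
    have h5 := G.le_sq γ
    by_contra hlt
    have hlt' : G.st γ + 1 ≤ k := by omega
    have h6 : (G.st γ + 1) ^ 2 ≤ k ^ 2 := Nat.pow_le_pow_left hlt' 2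
    nlinarith
  choose g hg using hex
  have hTn : 0 ≤ ‖T‖ := norm_nonneg T
  have hcauchy : ∀ x, CauchySeq (fun k => s (g k) x) := by
    intro x
    rw [Metric.cauchySeq_iff]
    intro ε hε
    have h1 : 0 < ε / (8 * (‖T‖ + 1)) := by positivity
    obtain ⟨t, ht⟩ := ((tendsto_iff_norm_sub_tendsto_zero.1 (S.lim x)).eventually
      (gt_mem_nhds h1)).exists
    set α : H := S.Q t x with hα
    have hδ : 0 < ε / (12 * (‖α‖ + 1)) := by positivity
    obtain ⟨N, hN⟩ := S.sym_cmp hD B hW hZ T hs1 hs2 hs3 hδ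
    have hC := S.sym_cauchy (D := D) B T hs1 hδ hN
    set γ := g (max N t) with hγ
    obtain ⟨hb, hne, hwt, hst⟩ := hg (max N t)
    have hγt : t ≤ G.st γ := (le_max_right _ _).trans hst
    have hγN : N ≤ D.wt γ := (le_max_left _ _).trans hwt
    have hfix : S.Q (G.st γ) α = α := by
      have := congrArg (fun f : H →L[ℂ] H => f x) (S.mul (G.st γ) t)
      simp only [mul_apply_eq_comp, min_eq_right hγt] at this
      rw [hα]; exact this
    have key : ∀ k l, max N (G.st γ + 1) ≤ k → max N (G.st γ + 1) ≤ l →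
        G.st (g k) ≤ G.st (g l) → ‖s (g k) x - s (g l) x‖ < ε := by
      intro k l hk hl hkl
      obtain ⟨hbk, hnek, hwtk, hstk⟩ := hg k
      obtain ⟨hbl, hnel, hwtl, hstl⟩ := hg l
      have e1 := hC γ (g k) (g l) hb hbk hbl hne hnek hnel hγN
        ((le_max_left _ _).trans (hk.trans hwtk)) ((le_max_left _ _).trans (hl.trans hwtl))
        ((le_max_right _ _).trans (hk.trans hstk)) hkl α hfix
      have e2 : ‖(s (g k) - s (g l)) (x - α)‖ ≤ 4 * ‖T‖ * ‖x - α‖ := by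
        refine ((s (g k) - s (g l)).le_opNorm _).trans ?_
        have : ‖s (g k) - s (g l)‖ ≤ 4 * ‖T‖ := by
          refine (norm_sub_le _ _).trans ?_
          have := hs2 (g k)
          have := hs2 (g l)
          linarith
        exact mul_le_mul_of_nonneg_right this (norm_nonneg _)
      have e3 : s (g k) x - s (g l) x = (s (g k) - s (g l)) α + (s (g k) - s (g l)) (x - α) := by
        rw [← map_add, add_sub_cancel]; rfl
      have e4 : ‖x - α‖ < ε / (8 * (‖T‖ + 1)) := by rw [norm_sub_rev]; exact ht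
      have e5 : 4 * ‖T‖ * ‖x - α‖ ≤ ε / 2 := by
        have : 4 * ‖T‖ * ‖x - α‖ ≤ 4 * (‖T‖ + 1) * (ε / (8 * (‖T‖ + 1))) := by
          apply mul_le_mul _ e4.le (norm_nonneg _) (by positivity)
          linarith
        refine this.trans (le_of_eq ?_)
        field_simp
        ring
      have e6 : 3 * (ε / (12 * (‖α‖ + 1))) * ‖α‖ ≤ ε / 4 := by
        have h7 : ‖α‖ ≤ ‖α‖ + 1 := by linarith
        have : 3 * (ε / (12 * (‖α‖ + 1))) * ‖α‖ ≤ 3 * (ε / (12 * (‖α‖ + 1))) * (‖α‖ + 1) :=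
          mul_le_mul_of_nonneg_left h7 (by positivity)
        refine this.trans (le_of_eq ?_)
        field_simp
        ring
      rw [e3]
      calc ‖(s (g k) - s (g l)) α + (s (g k) - s (g l)) (x - α)‖
          ≤ ‖(s (g k) - s (g l)) α‖ + ‖(s (g k) - s (g l)) (x - α)‖ := norm_add_le _ _
        _ ≤ ε / 4 + ε / 2 := by linarith
        _ < ε := by linarith
    refine ⟨max N (G.st γ + 1), fun k hk l hl => ?_⟩
    rw [dist_eq_norm]
    rcases le_total (G.st (g k)) (G.st (g l)) with h | h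
    · exact key k l hk hl h
    · rw [norm_sub_rev]; exact key l k hl hk h
  choose L hL using fun x => cauchySeq_tendsto_of_complete (hcauchy x)
  have hbound : ∀ x, ‖L x‖ ≤ 2 * ‖T‖ * ‖x‖ := by
    intro x
    refine le_of_tendsto ((hL x).norm) (Eventually.of_forall fun k => ?_)
    exact ((s (g k)).le_opNorm x).trans
      (mul_le_mul_of_nonneg_right (hs2 _) (norm_nonneg _))
  let f : H →ₗ[ℂ] H :=
    { toFun := L
      map_add' := fun x y => by
        refine tendsto_nhds_unique (hL (x + y)) ?_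
        simpa only [map_add] using (hL x).add (hL y)
      map_smul' := fun c x => by
        refine tendsto_nhds_unique (hL (c • x)) ?_
        simpa only [map_smul, RingHom.id_apply] using (hL x).const_smul c }
  refine ⟨g, f.mkContinuous (2 * ‖T‖) hbound, hg, ?_, fun x => hL x⟩
  exact f.mkContinuous_norm_le (by positivity) hbound

end HSys

end Pool.Agent.Helper509.AH
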