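import Pool.Agent.Helper509.AH.SymCmp

namespace Pool.Agent.Helper509.AH

open Filter Topology

variable {H : Type*} [NormedAddCommGroup H] [InnerProductSpace ℂ H] [CompleteSpace H]

namespace HSys

variable (S : HSys H)

variable {X : Type*} [NormedAddCommGroup X] [NormedSpace ℂ X] {D : Nodes (EE H)} {G : Stages}
variable {Y0 Z : Submodule ℂ X}

/-! PROOF IN WORDS.
Take N from sym_cmp for δ. Let γ, h be as in the statement, Q = S.Q (st γ) and let b : H →L[ℂ] H, ‖b‖ ≤ 1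
(enough: opNorm_le_bound by scaling b). For m ≥ st γ + 1 put b_m = S.Q m * b * S.Q m ∈ S.SS m
(corner_mem), ‖b_m‖ ≤ 1 (norm_corner). For k ≥ max m N: b_m ∈ S.SS (st (g k)) (SS_mono) so by sym_cmp
‖B.F T γ h b_m - h (b_m * s (g k))‖ ≤ δ. B.F T γ h b_m = B.F T γ h b since B.F T γ h ∈
S.UU (st γ + 1) (F_mem) and q * b_m * q = q * b * q for q = S.Q (st γ + 1) (QQ_le, QQ_ge).
Let k → ∞: h (b_m * s (g k)) = h (Q * (b_m * s (g k)) * Q) (h ∈ S.UU (st γ)) tends to
h (Q * (b_m * s') * Q) = h (b_m * s') since s (g k) * Q → s' * Q (tendsto_mul_fin, S.fin). So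
‖B.F T γ h b - h (b_m * s')‖ ≤ δ. Let m → ∞: h (b_m * s') = h (Q * (b_m * s') * Q) and Q * b_m =
Q * b * S.Q m for m ≥ st γ, and S.Q m * (s' * Q) → s' * Q in norm (tendsto_mul_fin applied to
T k = S.Q k * s', T' = s': S.lim), so h (b_m * s') → h (Q * (b * s') * Q) = h (b * s') =
act s' 1 h b (act_apply, one_mul). So ‖(B.F T γ h - act s' 1 h) b‖ ≤ δ.
-/

/-- first property of the limit -/
lemma sym_one (hD : D.Ok (VV S.UU G) S.ok) (B : BD D (VV S.UU G) X)
    (hW : Win B (UV S.UU G) G.isB Y0) (hZ : Y0 ≤ Z) (T : Z →L[ℂ] X)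
    {s : ℕ → (H →L[ℂ] H)} (hs1 : ∀ γ, s γ ∈ S.SS (G.st γ)) (hs2 : ∀ γ, ‖s γ‖ ≤ 2 * ‖T‖)
    (hs3 : ∀ γ, G.isB γ → γ ≠ 0 → ∀ h ∈ UV S.UU G γ, B.F T γ h 1 = h (s γ))
    (g : ℕ → ℕ) (s' : H →L[ℂ] H) (hg : ∀ k, G.isB (g k) ∧ g k ≠ 0 ∧ k ≤ D.wt (g k) ∧
      k ≤ G.st (g k)) (hlim : ∀ x, Tendsto (fun k => s (g k) x) atTop (𝓝 (s' x)))
    {δ : ℝ} (hδ : 0 < δ) :
    ∃ N, ∀ γ, G.isB γ → γ ≠ 0 → N ≤ D.wt γ → ∀ h ∈ UV S.UU G γ, ‖h‖ ≤ 1 →
      ‖B.F T γ h - act s' 1 h‖ ≤ δ := by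
  obtain ⟨N, hN⟩ := S.sym_cmp hD B hW hZ T hs1 hs2 hs3 hδ
  refine ⟨N, fun γ hB hγ hNγ h hh hh1 => ?_⟩
  have hUh : ∀ b, h (S.Q (G.st γ) * b * S.Q (G.st γ)) = h b := S.mem_UU.1 hh
  have hUF : ∀ b, B.F T γ h (S.Q (G.st γ + 1) * b * S.Q (G.st γ + 1)) = B.F T γ h b :=
    S.mem_UU.1 (B.F_mem T γ h)
  have key : ∀ b : H →L[ℂ] H, ‖b‖ ≤ 1 → ‖(B.F T γ h - act s' 1 h) b‖ ≤ δ := by
    intro b hb
    have h1 : ∀ m, G.st γ + 1 ≤ m →
        ‖B.F T γ h b - h (S.Q m * b * S.Q m * s')‖ ≤ δ := by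
      intro m hm
      have hbm1 := S.corner_mem m b
      have hbm2 := (S.norm_corner m b).trans hb
      have hF : B.F T γ h (S.Q m * b * S.Q m) = B.F T γ h b := by
        rw [← hUF (S.Q m * b * S.Q m), ← hUF b]
        congr 1
        calc S.Q (G.st γ + 1) * (S.Q m * b * S.Q m) * S.Q (G.st γ + 1)
            = (S.Q (G.st γ + 1) * S.Q m) * b * (S.Q m * S.Q (G.st γ + 1)) := by
              simp only [mul_assoc]
          _ = _ := by rw [S.QQ_le hm, S.QQ_ge hm]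
      have h2 : ∀ᶠ k in atTop, ‖B.F T γ h b - h (S.Q m * b * S.Q m * s (g k))‖ ≤ δ := by
        filter_upwards [eventually_ge_atTop (max m N)] with k hk
        obtain ⟨g1, g2, g3, g4⟩ := hg k
        have hk1 : m ≤ k := (le_max_left _ _).trans hk
        have hk2 : N ≤ k := (le_max_right _ _).trans hk
        have := hN γ (g k) hB g1 hγ g2 hNγ (hk2.trans g3) (by omega) h hh hh1 _
          (S.SS_mono (hk1.trans g4) hbm1) hbm2
        rwa [hF] at this
      have h3 : Tendsto (fun k => h (S.Q m * b * S.Q m * s (g k))) atTop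
          (𝓝 (h (S.Q m * b * S.Q m * s'))) := by
        have e : ∀ t : H →L[ℂ] H, h (S.Q m * b * S.Q m * t)
            = h ((S.Q (G.st γ) * (S.Q m * b * S.Q m)) * (t * S.Q (G.st γ))) := by
          intro t
          rw [← hUh (S.Q m * b * S.Q m * t)]
          congr 1
        simp only [e]
        exact (h.continuous.tendsto _).comp
          ((tendsto_mul_fin (fun k => s (g k)) s' (S.Q (G.st γ)) (S.fin _) hlim).const_mul _)
      exact le_of_tendsto ((tendsto_const_nhds.sub h3).norm) h2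
    have h4 : Tendsto (fun m => h (S.Q m * b * S.Q m * s')) atTop (𝓝 (h (b * s'))) := by
      have e1 : h (b * s') = h ((S.Q (G.st γ) * b) * (s' * S.Q (G.st γ))) := by
        rw [← hUh (b * s')]
        congr 1
      have e2 : (fun m => h ((S.Q (G.st γ) * b) * (S.Q m * s' * S.Q (G.st γ))))
          =ᶠ[atTop] fun m => h (S.Q m * b * S.Q m * s') := by
        filter_upwards [eventually_ge_atTop (G.st γ)] with m hm
        rw [← hUh (S.Q m * b * S.Q m * s')]
        congr 1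
        calc (S.Q (G.st γ) * b) * (S.Q m * s' * S.Q (G.st γ))
            = ((S.Q (G.st γ) * S.Q m) * b) * (S.Q m * s' * S.Q (G.st γ)) := by
              rw [S.QQ_le hm]
          _ = _ := by simp only [mul_assoc]
      rw [e1]
      refine Tendsto.congr' e2 ?_
      refine (h.continuous.tendsto _).comp (Tendsto.const_mul _ ?_)
      exact tendsto_mul_fin (fun m => S.Q m * s') s' (S.Q (G.st γ)) (S.fin _)
        (fun x => S.lim (s' x))
    have h5 : ‖B.F T γ h b - h (b * s')‖ ≤ δ := by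
      refine le_of_tendsto ((tendsto_const_nhds.sub h4).norm) ?_
      filter_upwards [eventually_ge_atTop (G.st γ + 1)] with m hm
      exact h1 m hm
    have h6 : (B.F T γ h - act s' 1 h) b = B.F T γ h b - h (b * s') := by
      rw [sub_apply, act_apply, one_mul]
    rw [h6]
    exact h5
  refine ContinuousLinearMap.opNorm_le_bound _ hδ.le fun b => ?_
  by_cases hb : ‖b‖ = 0
  · rw [norm_eq_zero] at hb
    rw [hb]; simp
  have hpos : 0 < ‖b‖ := lt_of_le_of_ne (norm_nonneg _) (Ne.symm hb)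
  have h7 := key (((‖b‖ : ℝ) : ℂ)⁻¹ • b) (by
    rw [norm_smul, norm_inv, Complex.norm_real, norm_norm, inv_mul_cancel₀ hb])
  rw [map_smul, norm_smul, norm_inv, Complex.norm_real, norm_norm, inv_mul_le_iff₀ hpos] at h7
  linarith

end HSys

end Pool.Agent.Helper509.AH
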