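import Pool.Agent.Helper509.AH.SymBase

namespace Pool.Agent.Helper509.AH

open Filter Topology

variable {H : Type*} [NormedAddCommGroup H] [InnerProductSpace ℂ H] [CompleteSpace H]

namespace HSys

variable (S : HSys H)

variable {X : Type*} [NormedAddCommGroup X] [NormedSpace ℂ X] {D : Nodes (EE H)} {G : Stages}
variable {Y0 Z : Submodule ℂ X}

/-! PROOF IN WORDS.
Let N1 from h1 for δ / 8 and N2 from B.comm hD (S.kit G) hW hZ T (δ := δ / 8), N = max N1 N2. Let γ, w be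
as in the statement, d = s' * w - w * s'. It suffices to show ‖d α‖ ≤ δ for α with S.Q (st γ) α = α, ‖α‖ = 1
(then ‖d (S.Q (st γ) x)‖ ≤ δ ‖S.Q (st γ) x‖ ≤ δ ‖x‖ by scaling, S.norm). Put h = om α α ∈ S.UU (st γ),
‖h‖ ≤ 1. Let D0 = ‖d‖ and c ∈ S.C, c ∈ S.SS (st γ), ‖c - ro α α‖ ≤ δ / (8 (D0 + 1)) (C_dense). k = act w c ∈ S.K γ.
By S.W_map (st γ) there is M with S.Q M * (w * S.Q (st γ)) = w * S.Q (st γ); it then holds for all
larger M. Take a birth node γ' ≠ 0 with wt γ' ≥ N and st γ' ≥ max M (st γ) (hW.wt, n ≤ (st n + 1)^2).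
Then k h ∈ S.UU (st γ') = UV S.UU G γ' (act_mem) and ‖k h‖ ≤ 1, so
‖B.F T γ' (k h) - k (B.F T γ h)‖ ≤ δ/8 (comm), ‖B.F T γ' (k h) - act s' 1 (k h)‖ ≤ δ/8 (h1 for γ'),
‖k (B.F T γ h - act s' 1 h)‖ ≤ δ/8 (h1 for γ, norm of act w c ≤ 1). Hence
‖act d c h‖ = ‖act s' 1 (act w c h) - act w c (act s' 1 h)‖ ≤ 3 δ / 8 (act_act, act_sub_left).
Evaluate at b = ro α (d α / ‖d α‖) (if d α ≠ 0), ‖b‖ ≤ 1: act d c (om α α) b = ⟨α, c (b (d α))⟩ =
‖d α‖ ⟨α, c α⟩ = ‖d α‖ + ‖d α‖ ⟨α, (c - ro α α) α⟩ (as ro α α α = α, ‖α‖ = 1), and the last term is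
at most D0 * δ / (8 (D0 + 1)) ≤ δ / 8. So ‖d α‖ ≤ 3 δ / 8 + δ / 8 ≤ δ.
-/

/-- second property of the limit -/
lemma sym_two (hD : D.Ok (VV S.UU G) S.ok) (B : BD D (VV S.UU G) X)
    (hW : Win B (UV S.UU G) G.isB Y0) (hZ : Y0 ≤ Z) (T : Z →L[ℂ] X)
    (s' : H →L[ℂ] H)
    (h1 : ∀ δ > 0, ∃ N, ∀ γ, G.isB γ → γ ≠ 0 → N ≤ D.wt γ → ∀ h ∈ UV S.UU G γ, ‖h‖ ≤ 1 →
      ‖B.F T γ h - act s' 1 h‖ ≤ δ) {δ : ℝ} (hδ : 0 < δ) :
    ∃ N, ∀ γ, G.isB γ → γ ≠ 0 → N ≤ D.wt γ → ∀ w ∈ S.W γ,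
      ‖(s' * w - w * s') * S.Q (G.st γ)‖ ≤ δ := by
  obtain ⟨N1, hN1⟩ := h1 (δ / 8) (by positivity)
  obtain ⟨N2, hN2⟩ := B.comm hD (S.kit G) hW hZ T (δ := δ / 8) (by positivity)
  refine ⟨max N1 N2, fun γ hB hγ hwt w hw => ?_⟩
  set m := G.st γ with hm
  set d : H →L[ℂ] H := s' * w - w * s' with hd
  -- the main estimate
  have key : ∀ α : H, S.Q m α = α → ‖α‖ = 1 → ‖d α‖ ≤ δ := by
    intro α hα hα1
    by_cases hd0 : d α = 0
    · rw [hd0, norm_zero]; exact hδ.le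
    have hdpos : 0 < ‖d α‖ := norm_pos_iff.2 hd0
    have hhU : om α α ∈ S.UU m := S.om_mem hα hα
    have hh1 : ‖om α α‖ ≤ 1 := by
      refine (norm_om_le α α).trans ?_
      rw [hα1]; norm_num
    have hεpos : 0 < δ / (8 * (‖d‖ + 1)) := by positivity
    obtain ⟨c, hcC, hcS, hcn⟩ := S.C_dense (m := m) (b := ro α α) (S.ro_mem hα hα)
      (by refine (norm_ro_le α α).trans ?_; rw [hα1]; norm_num) hεpos
    obtain ⟨M, hM⟩ := S.W_map γ m w hw
    obtain ⟨γ', hγ'1, hγ'0, hγ'B, hγ'w⟩ := hW.wt (max N1 N2) ((max M m + 1) ^ 2)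
    have hst : max M m ≤ G.st γ' := by
      have h2 : (max M m + 1) ^ 2 ≤ (G.st γ' + 1) ^ 2 := hγ'1.trans (G.le_sq γ')
      have h3 := (Nat.pow_le_pow_iff_left (two_ne_zero)).1 h2
      omega
    have hMst : M ≤ G.st γ' := (le_max_left _ _).trans hst
    have hmst : m ≤ G.st γ' := (le_max_right _ _).trans hst
    have hkh : act w c (om α α) ∈ S.UU (G.st γ') := by
      refine S.act_mem (m := m) ?_ ?_ hhU
      · rw [mul_assoc, S.right_of_mem (S.SS_mono hmst hcS)]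
      · calc S.Q (G.st γ') * (w * S.Q m) = S.Q (G.st γ') * (S.Q M * (w * S.Q m)) := by rw [hM]
          _ = (S.Q (G.st γ') * S.Q M) * (w * S.Q m) := by simp only [mul_assoc]
          _ = w * S.Q m := by rw [S.QQ_ge hMst, hM]
    have hc1 : ‖c‖ ≤ 1 := S.C_norm hcC
    have hw1 : ‖w‖ ≤ 1 := S.W_norm γ w hw
    have hwc : ‖w‖ * ‖c‖ ≤ 1 := by
      have := norm_nonneg w; have := norm_nonneg c; nlinarith
    have hact : ∀ v : EE H, ‖act w c v‖ ≤ ‖v‖ := by
      intro v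
      refine (norm_act_apply w c v).trans ?_
      have := norm_nonneg v
      nlinarith
    have e1 := hN2 γ γ' hB hγ'B hγ hγ'0 ((le_max_right _ _).trans hwt)
      ((le_max_right _ _).trans hγ'w) (om α α) hhU hh1 (act w c)
      ⟨w, hw, c, Or.inl hcC, rfl⟩ hkh
    have e2 := hN1 γ' hγ'B hγ'0 ((le_max_left _ _).trans hγ'w) (act w c (om α α)) hkh
      ((hact _).trans hh1)
    have e3 := hN1 γ hB hγ ((le_max_left _ _).trans hwt) (om α α) hhU hh1
    have e4 : ‖act w c (B.F T γ (om α α) - act s' 1 (om α α))‖ ≤ δ / 8 := (hact _).trans e3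
    have e5 : act d c (om α α) = (B.F T γ' (act w c (om α α)) - act w c (B.F T γ (om α α))) -
        (B.F T γ' (act w c (om α α)) - act s' 1 (act w c (om α α))) +
        act w c (B.F T γ (om α α) - act s' 1 (om α α)) := by
      rw [map_sub, hd, act_sub_left, act_act, act_act, mul_one, one_mul]
      abel
    have e6 : ‖act d c (om α α)‖ ≤ 3 * δ / 8 := by
      rw [e5]
      refine (norm_add_le _ _).trans ?_
      have := norm_sub_le (B.F T γ' (act w c (om α α)) - act w c (B.F T γ (om α α)))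
        (B.F T γ' (act w c (om α α)) - act s' 1 (act w c (om α α)))
      linarith
    -- evaluate
    set u : H := ((‖d α‖ : ℂ)⁻¹) • d α with hu
    have hu1 : ‖u‖ = 1 := by
      rw [hu, norm_smul, norm_inv, Complex.norm_real, norm_norm, inv_mul_cancel₀ hdpos.ne']
    have hud : inner ℂ u (d α) = (‖d α‖ : ℂ) := by
      rw [hu, inner_smul_left, map_inv₀, Complex.conj_ofReal, inner_self_eq_norm_sq_to_K]
      have : (‖d α‖ : ℂ) ≠ 0 := by exact_mod_cast hdpos.ne'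
      field_simp
      rfl
    have hb1 : ‖ro α u‖ ≤ 1 := by
      refine (norm_ro_le α u).trans ?_
      rw [hα1, hu1]; norm_num
    have e7 : act d c (om α α) (ro α u) = (‖d α‖ : ℂ) * inner ℂ α (c α) := by
      rw [act_apply, om_apply]
      simp only [mul_apply_eq_comp, ro_apply, map_smul]
      rw [hud, inner_smul_right]
    have e8 : inner ℂ α (c α) = (1 : ℂ) + inner ℂ α ((c - ro α α) α) := by
      have h3 : (ro α α) α = α := by
        rw [ro_apply, inner_self_eq_norm_sq_to_K, hα1]; simp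
      have h4 : inner ℂ α α = (1 : ℂ) := by
        rw [inner_self_eq_norm_sq_to_K, hα1]; simp
      rw [sub_apply, h3, inner_sub_right, h4]; ring
    have e9 : ‖act d c (om α α) (ro α u)‖ ≤ 3 * δ / 8 := by
      refine ((act d c (om α α)).le_opNorm _).trans ?_
      have := norm_nonneg (act d c (om α α))
      have := norm_nonneg (ro α u)
      nlinarith
    have e10 : ‖inner ℂ α ((c - ro α α) α)‖ ≤ δ / (8 * (‖d‖ + 1)) := by
      refine (norm_inner_le_norm _ _).trans ?_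
      rw [hα1, one_mul]
      refine ((c - ro α α).le_opNorm α).trans ?_
      rw [hα1, mul_one]; exact hcn
    have e11 : ‖d α‖ ≤ ‖d‖ := by
      have := d.le_opNorm α
      rwa [hα1, mul_one] at this
    have e12 : (‖d α‖ : ℂ) = act d c (om α α) (ro α u) -
        (‖d α‖ : ℂ) * inner ℂ α ((c - ro α α) α) := by
      rw [e7, e8]; ring
    have e13 : ‖(‖d α‖ : ℂ) * inner ℂ α ((c - ro α α) α)‖ ≤ δ / 8 := by
      rw [norm_mul, Complex.norm_real, norm_norm]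
      have h5 : ‖d α‖ * ‖inner ℂ α ((c - ro α α) α)‖ ≤ (‖d‖ + 1) * (δ / (8 * (‖d‖ + 1))) := by
        gcongr
        linarith
      refine h5.trans (le_of_eq ?_)
      field_simp
    have e14 : ‖(‖d α‖ : ℂ)‖ ≤ 3 * δ / 8 + δ / 8 := by
      rw [e12]
      exact (norm_sub_le _ _).trans (add_le_add e9 e13)
    rw [Complex.norm_real, norm_norm] at e14
    linarith
  refine ContinuousLinearMap.opNorm_le_bound _ hδ.le fun x => ?_
  change ‖d (S.Q m x)‖ ≤ δ * ‖x‖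
  have hQx : S.Q m (S.Q m x) = S.Q m x := by
    have := DFunLike.congr_fun (S.QQ m) x
    exact this
  have hle : ‖S.Q m x‖ ≤ ‖x‖ := by
    refine ((S.Q m).le_opNorm x).trans ?_
    have := S.norm m
    have := norm_nonneg x
    nlinarith
  by_cases hy : ‖S.Q m x‖ = 0
  · rw [norm_eq_zero.1 hy, map_zero, norm_zero]; positivity
  have hypos : 0 < ‖S.Q m x‖ := lt_of_le_of_ne (norm_nonneg _) (Ne.symm hy)
  have h3 := key (((‖S.Q m x‖ : ℂ)⁻¹) • S.Q m x) (by rw [map_smul, hQx])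
    (by rw [norm_smul, norm_inv, Complex.norm_real, norm_norm, inv_mul_cancel₀ hy])
  rw [map_smul, norm_smul, norm_inv, Complex.norm_real, norm_norm, inv_mul_le_iff₀ hypos] at h3
  calc ‖d (S.Q m x)‖ ≤ ‖S.Q m x‖ * δ := h3
    _ ≤ ‖x‖ * δ := by gcongr
    _ = δ * ‖x‖ := mul_comm _ _

end HSys

end Pool.Agent.Helper509.AH
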