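import Pool.Agent.Helper509.AH.SymLim
import Pool.Agent.Helper509.AH.SymOne
import Pool.Agent.Helper509.AH.SymTwo

/-! The symbol of an operator. -/

namespace Pool.Agent.Helper509.AH

open Filter Topology

variable {H : Type*} [NormedAddCommGroup H] [InnerProductSpace ℂ H] [CompleteSpace H]

namespace HSys

variable (S : HSys H)

variable {X : Type*} [NormedAddCommGroup X] [NormedSpace ℂ X] {D : Nodes (EE H)} {G : Stages}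
variable {Y0 Z : Submodule ℂ X}

/-- The symbol of an operator. -/
theorem exists_symbol (hD : D.Ok (VV S.UU G) S.ok) (B : BD D (VV S.UU G) X)
    (hW : Win B (UV S.UU G) G.isB Y0) (hZ : Y0 ≤ Z) (T : Z →L[ℂ] X) :
    ∃ s : H →L[ℂ] H, ‖s‖ ≤ 2 * ‖T‖ ∧
      (∀ δ > 0, ∃ N, ∀ γ, G.isB γ → γ ≠ 0 → N ≤ D.wt γ → ∀ h ∈ UV S.UU G γ, ‖h‖ ≤ 1 →
        ‖B.F T γ h - act s 1 h‖ ≤ δ) ∧
      (∀ δ > 0, ∃ N, ∀ γ, G.isB γ → γ ≠ 0 → N ≤ D.wt γ → ∀ w ∈ S.W γ,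
        ‖(s * w - w * s) * S.Q (G.st γ)‖ ≤ δ) := by
  obtain ⟨s, hs1, hs2, hs3⟩ := S.exists_sym B hW hZ T
  obtain ⟨g, s', hg, hs', hlim⟩ := S.sym_lim hD B hW hZ T hs1 hs2 hs3
  have h1 : ∀ δ > 0, ∃ N, ∀ γ, G.isB γ → γ ≠ 0 → N ≤ D.wt γ → ∀ h ∈ UV S.UU G γ, ‖h‖ ≤ 1 →
      ‖B.F T γ h - act s' 1 h‖ ≤ δ := fun δ hδ =>
    S.sym_one hD B hW hZ T hs1 hs2 hs3 g s' hg hlim hδ
  exact ⟨s', hs', h1, fun δ hδ => S.sym_two hD B hW hZ T s' h1 hδ⟩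

end HSys

end Pool.Agent.Helper509.AH
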