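import Pool.Agent.Helper509.AH.Defs

/-! Upper estimates for sums of rapid block vectors. -/

namespace Pool.Agent.Helper509.AH

open Filter Topology

variable {E : Type*} [NormedAddCommGroup E] [NormedSpace ℂ E]
variable {X : Type*} [NormedAddCommGroup X] [NormedSpace ℂ X]
variable {D : Nodes E} {V : ℕ → Submodule ℂ E} {ok : ℕ → (E →L[ℂ] E) → Prop}

lemma norm_sum_le_of_unique {F : Type*} [NormedAddCommGroup F] (S : Finset ℕ) (f : ℕ → F)
    (M : ℝ) (hM : 0 ≤ M) (hf : ∀ k ∈ S, ‖f k‖ ≤ M)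
    (h1 : ∀ k ∈ S, ∀ l ∈ S, k < l → f k ≠ 0 → f l ≠ 0 → False) : ‖∑ k ∈ S, f k‖ ≤ M := by
  by_cases h : ∃ k ∈ S, f k ≠ 0
  · obtain ⟨k, hk, hk0⟩ := h
    rw [Finset.sum_eq_single_of_mem k hk]
    · exact hf k hk
    · intro l hl hlk
      by_contra hl0
      rcases lt_or_gt_of_ne hlk with h | h
      · exact h1 l hl k hk h hl0 hk0
      · exact h1 k hk l hl h hk0 hl0
  · push Not at h
    rw [Finset.sum_eq_zero h, norm_zero]; exact hM

namespace BD

/-- A rapid block sequence of length `N`. -/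
structure RSeq (B : BD D V X) (C : ℝ) (N : ℕ) (p q : ℕ → ℕ) (x : ℕ → X) : Prop where
  rv : ∀ k < N, B.RV C (p k) (q k) (x k)
  sep : ∀ k l, k < l → l < N → q k ≤ p l

variable {B : BD D V X} {C : ℝ} {N : ℕ} {p q : ℕ → ℕ} {x : ℕ → X}

lemma RV.nonneg {a b : ℕ} {y : X} (h : B.RV C a b y) : 0 ≤ C := (norm_nonneg y).trans h.2.2.2.1

/-- cutting -/
lemma RSeq.cut (h : B.RSeq C N p q x) (hC : 0 ≤ C) {S : Finset ℕ} (hS : ∀ k ∈ S, k < N)
    (s η : ℕ) :
    ‖B.co η (∑ k ∈ S, x k - B.P s (∑ k ∈ S, x k))‖ ≤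
      3 * C + ‖∑ k ∈ S.filter (fun k => s ≤ p k ∧ p k ≤ η), x k‖ := by
  have h0 : B.co η (∑ k ∈ S, x k - B.P s (∑ k ∈ S, x k)) =
      ∑ k ∈ S, B.co η (x k - B.P s (x k)) := by
    simp only [map_sub, map_sum, Finset.sum_sub_distrib]
  rw [h0, ← Finset.sum_filter_add_sum_filter_not S (fun k => s ≤ p k ∧ p k ≤ η)]
  have h1 : ∑ k ∈ S.filter (fun k => s ≤ p k ∧ p k ≤ η), B.co η (x k - B.P s (x k)) =
      B.co η (∑ k ∈ S.filter (fun k => s ≤ p k ∧ p k ≤ η), x k) := by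
    rw [map_sum]
    refine Finset.sum_congr rfl fun k hk => ?_
    rw [Finset.mem_filter] at hk
    rw [B.P_of_P_zero (h.rv k (hS k hk.1)).2.1 hk.2.1, sub_zero]
  rw [h1]
  have key : ∀ k ∈ S, ¬ (s ≤ p k ∧ p k ≤ η) → B.co η (x k - B.P s (x k)) ≠ 0 →
      p k < s ∧ s < q k := by
    intro k hk hn h0
    have hr := h.rv k (hS k hk)
    constructor
    · by_contra hs
      push Not at hs
      have : η < p k := by
        by_contra h'
        exact hn ⟨hs, not_lt.1 h'⟩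
      exact h0 (B.co_sub_P_eq_zero hr.2.1 this)
    · by_contra hs
      push Not at hs
      apply h0
      rw [B.P_of_P_eq hr.2.2.1 hs]; simp
  have h2 : ‖∑ k ∈ S.filter (fun k => ¬ (s ≤ p k ∧ p k ≤ η)), B.co η (x k - B.P s (x k))‖
      ≤ 3 * C := by
    refine norm_sum_le_of_unique _ _ _ (by positivity) ?_ ?_
    · intro k hk
      rw [Finset.mem_filter] at hk
      refine (B.norm_co _ _).trans ((B.norm_sub_P _ _).trans ?_)
      have := (h.rv k (hS k hk.1)).2.2.2.1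
      linarith
    · intro k hk l hl hkl hk0 hl0
      rw [Finset.mem_filter] at hk hl
      have a1 := key k hk.1 hk.2 hk0
      have a2 := key l hl.1 hl.2 hl0
      have := h.sep k l hkl (hS l hl.1)
      omega
  calc _ ≤ ‖B.co η (∑ k ∈ S.filter (fun k => s ≤ p k ∧ p k ≤ η), x k)‖ +
        ‖∑ k ∈ S.filter (fun k => ¬ (s ≤ p k ∧ p k ≤ η)), B.co η (x k - B.P s (x k))‖ :=
        norm_add_le _ _
    _ ≤ ‖∑ k ∈ S.filter (fun k => s ≤ p k ∧ p k ≤ η), x k‖ + 3 * C :=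
        add_le_add (B.norm_co _ _) h2
    _ = _ := by ring

/-- cutting, in terms of the whole norm: `x - P_s x` -/
lemma RSeq.cut_dd (h : B.RSeq C N p q x) (hC : 0 ≤ C) {S : Finset ℕ} (hS : ∀ k ∈ S, k < N)
    (γ : ℕ) : ‖B.dd γ (∑ k ∈ S, x k)‖ ≤ 3 * C := by
  rw [dd_sum]
  have key : ∀ k ∈ S, B.dd γ (x k) ≠ 0 → p k ≤ γ ∧ γ < q k := by
    intro k hk h0
    have hr := h.rv k (hS k hk)
    constructor
    · by_contra h'
      exact h0 (B.dd_eq_zero_of_P_zero hr.2.1 (not_le.1 h'))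
    · by_contra h'
      exact h0 (B.dd_eq_zero_of_P_eq hr.2.2.1 (not_lt.1 h'))
  refine norm_sum_le_of_unique _ _ _ (by positivity) ?_ ?_
  · intro k hk
    refine (B.norm_dd _ _).trans ?_
    have := (h.rv k (hS k hk)).2.2.2.1
    linarith
  · intro k hk l hl hkl hk0 hl0
    have a1 := key k hk hk0
    have a2 := key l hl hl0
    have := h.sep k l hkl (hS l hl)
    omega

/-- Estimate for low weights. -/
lemma RSeq.low (hD : D.Ok V ok) (h : B.RSeq C N p q x) (hC : 0 ≤ C) {S : Finset ℕ}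
    (hS : ∀ k ∈ S, k < N) {α b : ℝ} (hα : 0 ≤ α) (_hb : 0 ≤ b)
    (hyp : ∀ S' ⊆ S, ‖∑ k ∈ S', x k‖ ≤ α * (S'.card : ℝ) + b) :
    ∀ γ, γ ≠ 0 → ‖B.co γ (∑ k ∈ S, x k)‖ ≤
      β (D.wt γ) * α * ((S.filter (fun k => p k ≤ γ)).card : ℝ) +
        (D.age γ : ℝ) * (4 * C + β (D.wt γ) * b) := by
  intro γ
  induction γ using Nat.strong_induction_on with
  | _ γ ih =>
    intro hγ
    set y := ∑ k ∈ S, x k with hy
    have hβ := β_pos (D.wt γ)
    have hβ4 := β_le (D.wt γ)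
    set n2 : ℝ := ((S.filter (fun k => D.par γ < p k ∧ p k ≤ γ)).card : ℝ) with hn2
    have hfn : ‖B.fn γ y‖ ≤ 3 * C + (α * n2 + b) := by
      refine B.norm_fn_le hD hγ fun i => ?_
      refine (h.cut hC hS (D.s γ i) (D.η γ i)).trans ?_
      gcongr
      refine (hyp _ (Finset.filter_subset _ _)).trans ?_
      gcongr
      rw [hn2]
      refine Nat.cast_le.2 (Finset.card_le_card ?_)
      intro k hk
      rw [Finset.mem_filter] at hk ⊢
      have h1 := hD.s_gt γ i hγ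
      have h2 := hD.η_lt γ i hγ
      exact ⟨hk.1, by omega, by omega⟩
    have hdd : ‖B.dd γ y‖ ≤ 3 * C := h.cut_dd hC hS γ
    have hmain : ‖B.co γ y‖ ≤ ‖B.co (D.par γ) y‖ + (β (D.wt γ) * α * n2 +
        (4 * C + β (D.wt γ) * b)) := by
      rw [B.co_eq γ y hγ]
      calc _ ≤ ‖B.co (D.par γ) y‖ + ‖(β (D.wt γ) : ℂ) • B.fn γ y‖ + ‖B.dd γ y‖ := norm_add₃_le
        _ ≤ ‖B.co (D.par γ) y‖ + β (D.wt γ) * (3 * C + (α * n2 + b)) +
            ((4 - 3 * β (D.wt γ)) * C) := by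
            gcongr
            · rw [norm_smul, Complex.norm_real, Real.norm_eq_abs, abs_of_pos hβ]
              gcongr
            · refine hdd.trans ?_
              gcongr
              linarith
        _ = _ := by ring
    have hage := hD.age_succ γ hγ
    by_cases hp0 : D.par γ = 0
    · rw [hp0, hD.age_zero] at hage
      rw [hp0, B.co_zero, norm_zero, zero_add] at hmain
      refine hmain.trans ?_
      rw [hage]
      push_cast
      rw [one_mul]
      gcongr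
      rw [hn2]
      refine Nat.cast_le.2 (Finset.card_le_card ?_)
      intro k hk
      rw [Finset.mem_filter] at hk ⊢
      exact ⟨hk.1, hk.2.2⟩
    · have hlt := hD.par_lt γ hγ
      have hih := ih _ hlt hp0
      rw [hD.wt_par γ hγ hp0] at hih
      refine hmain.trans ((add_le_add_left hih _).trans ?_)
      rw [hage]
      push_cast
      have hcard : ((S.filter (fun k => p k ≤ D.par γ)).card : ℝ) + n2 ≤
          ((S.filter (fun k => p k ≤ γ)).card : ℝ) := by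
        rw [hn2, ← Nat.cast_add, ← Finset.card_union_of_disjoint]
        · refine Nat.cast_le.2 (Finset.card_le_card ?_)
          intro k hk
          rw [Finset.mem_union, Finset.mem_filter, Finset.mem_filter] at hk
          rw [Finset.mem_filter]
          rcases hk with hk | hk
          · exact ⟨hk.1, by omega⟩
          · exact ⟨hk.1, hk.2.2⟩
        · rw [Finset.disjoint_left]
          intro k hk hk'
          rw [Finset.mem_filter] at hk hk'
          omega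
      have hmul := mul_le_mul_of_nonneg_left hcard (mul_nonneg hβ.le hα)
      nlinarith [hmul]

/-- Estimate for high weights. -/
lemma RSeq.high (hD : D.Ok V ok) (h : B.RSeq C N p q x) (hC : 0 ≤ C) {S : Finset ℕ}
    (hS : ∀ k ∈ S, k < N) (γ : ℕ) (hγ : γ ≠ 0) :
    ‖B.co γ (∑ k ∈ S, x k)‖ ≤ C + 4 * C * β (D.wt γ) * (S.card : ℝ) := by
  set w := D.wt γ with hw
  have hβ := β_pos w
  -- three parts
  have e1 : ∑ k ∈ S, x k = ∑ k ∈ S.filter (fun k => q k ≤ w), x k +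
      (∑ k ∈ S.filter (fun k => w < p k ∧ ¬ q k ≤ w), x k +
       ∑ k ∈ S.filter (fun k => ¬ w < p k ∧ ¬ q k ≤ w), x k) := by
    rw [← Finset.sum_filter_add_sum_filter_not S (fun k => q k ≤ w)]
    congr 1
    rw [← Finset.sum_filter_add_sum_filter_not (S.filter (fun k => ¬ q k ≤ w))
      (fun k => w < p k)]
    rw [Finset.filter_filter, Finset.filter_filter]
    congr 1
    · apply Finset.sum_congr _ (fun _ _ => rfl)
      ext k; simp only [Finset.mem_filter]; tauto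
    · apply Finset.sum_congr _ (fun _ _ => rfl)
      ext k; simp only [Finset.mem_filter]; tauto
  have b1 : ‖B.co γ (∑ k ∈ S.filter (fun k => q k ≤ w), x k)‖ ≤ 3 * β w * (C * (S.card : ℝ)) := by
    have hP : B.P w (∑ k ∈ S.filter (fun k => q k ≤ w), x k) =
        ∑ k ∈ S.filter (fun k => q k ≤ w), x k := by
      rw [map_sum]
      refine Finset.sum_congr rfl fun k hk => ?_
      rw [Finset.mem_filter] at hk
      exact B.P_of_P_eq (h.rv k (hS k hk.1)).2.2.1 hk.2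
    have := B.local_weight hD (w := w) hP (fun γ' h1 h2 h3 => by
      have := hD.wt_le γ' h2
      omega) γ hγ hw.symm
    refine this.trans ?_
    gcongr
    calc ‖∑ k ∈ S.filter (fun k => q k ≤ w), x k‖ ≤
        ∑ k ∈ S.filter (fun k => q k ≤ w), ‖x k‖ := norm_sum_le _ _
      _ ≤ ∑ k ∈ S.filter (fun k => q k ≤ w), C := Finset.sum_le_sum fun k hk => by
          rw [Finset.mem_filter] at hk
          exact (h.rv k (hS k hk.1)).2.2.2.1
      _ = ((S.filter (fun k => q k ≤ w)).card : ℝ) * C := by rw [Finset.sum_const, nsmul_eq_mul]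
      _ ≤ (S.card : ℝ) * C := by
          gcongr
          exact Finset.filter_subset _ _
      _ = _ := mul_comm _ _
  have b2 : ‖B.co γ (∑ k ∈ S.filter (fun k => w < p k ∧ ¬ q k ≤ w), x k)‖ ≤
      (S.card : ℝ) * (C * β w) := by
    rw [map_sum]
    calc _ ≤ ∑ k ∈ S.filter (fun k => w < p k ∧ ¬ q k ≤ w), ‖B.co γ (x k)‖ := norm_sum_le _ _
      _ ≤ ∑ k ∈ S.filter (fun k => w < p k ∧ ¬ q k ≤ w), C * β w :=
          Finset.sum_le_sum fun k hk => by
            rw [Finset.mem_filter] at hk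
            exact (h.rv k (hS k hk.1)).2.2.2.2 γ hγ hk.2.1
      _ = ((S.filter (fun k => w < p k ∧ ¬ q k ≤ w)).card : ℝ) * (C * β w) := by
          rw [Finset.sum_const, nsmul_eq_mul]
      _ ≤ (S.card : ℝ) * (C * β w) := by
          gcongr
          exact Finset.filter_subset _ _
  have b3 : ‖B.co γ (∑ k ∈ S.filter (fun k => ¬ w < p k ∧ ¬ q k ≤ w), x k)‖ ≤ C := by
    rw [map_sum]
    refine norm_sum_le_of_unique _ _ _ hC ?_ ?_
    · intro k hk
      rw [Finset.mem_filter] at hk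
      exact (B.norm_co _ _).trans (h.rv k (hS k hk.1)).2.2.2.1
    · intro k hk l hl hkl _ _
      rw [Finset.mem_filter] at hk hl
      have := h.sep k l hkl (hS l hl.1)
      omega
  rw [e1, map_add, map_add]
  calc _ ≤ 3 * β w * (C * (S.card : ℝ)) + ((S.card : ℝ) * (C * β w) + C) :=
        (norm_add_le _ _).trans (add_le_add b1 ((norm_add_le _ _).trans (add_le_add b2 b3)))
    _ = _ := by ring

/-- The iteration. -/
lemma RSeq.iter (hD : D.Ok V ok) (h : B.RSeq C N p q x) (hC : 0 ≤ C) {S : Finset ℕ}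
    (hS : ∀ k ∈ S, k < N) {C1 θ : ℝ} (hC1 : C ≤ C1) (hθ : 0 ≤ θ) (j : ℕ)
    (hw : ∀ S' ⊆ S, ∀ γ, γ ≠ 0 → j + 1 ≤ D.wt γ →
      ‖B.co γ (∑ k ∈ S', x k)‖ ≤ C1 + 4 * C1 * θ * (S'.card : ℝ)) (t : ℕ) :
    ∀ S' ⊆ S, ‖∑ k ∈ S', x k‖ ≤ (((1/4 : ℝ)) ^ t + 4 * θ) * C1 * (S'.card : ℝ) +
      4 * C1 * (((nn j : ℝ) + 1) ^ t - 1) := by
  have hC1' : 0 ≤ C1 := hC.trans hC1
  have hnn : (1 : ℝ) ≤ nn j := by exact_mod_cast nn_pos j
  induction t with
  | zero =>
    intro S' hS'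
    simp only [pow_zero, sub_self, mul_zero, add_zero]
    calc ‖∑ k ∈ S', x k‖ ≤ ∑ k ∈ S', ‖x k‖ := norm_sum_le _ _
      _ ≤ ∑ k ∈ S', C1 := Finset.sum_le_sum fun k hk =>
          ((h.rv k (hS k (hS' hk))).2.2.2.1).trans hC1
      _ = (S'.card : ℝ) * C1 := by rw [Finset.sum_const, nsmul_eq_mul]
      _ ≤ _ := by
        have : 0 ≤ 4 * θ * C1 * (S'.card : ℝ) := by positivity
        nlinarith
  | succ t ih =>
    intro S' hS'
    have hpow : (1 : ℝ) ≤ ((nn j : ℝ) + 1) ^ t := one_le_pow₀ (by linarith)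
    set b := 4 * C1 * (((nn j : ℝ) + 1) ^ t - 1) with hb
    have hb0 : 0 ≤ b := by
      rw [hb]; apply mul_nonneg (by positivity); linarith
    set α := (((1/4 : ℝ)) ^ t + 4 * θ) * C1 with hα
    have hα0 : 0 ≤ α := by positivity
    have hb' : 4 * C1 * (((nn j : ℝ) + 1) ^ (t+1) - 1) = (nn j : ℝ) * (4 * C1 + b) + b := by
      rw [hb, pow_succ]; ring
    rw [hb']
    refine B.norm_le _ _ (by positivity) ?_
    intro γ
    by_cases hγ : γ = 0
    · rw [hγ, B.co_zero, norm_zero]; positivity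
    · by_cases hwγ : j + 1 ≤ D.wt γ
      · refine (hw S' hS' γ hγ hwγ).trans ?_
        have h1 : 0 ≤ ((1/4 : ℝ)) ^ (t+1) * C1 * (S'.card : ℝ) := by positivity
        have h2 : C1 ≤ (nn j : ℝ) * (4 * C1 + b) := by nlinarith
        nlinarith
      · push Not at hwγ
        have hlow := h.low hD hC (fun k hk => hS k (hS' hk)) hα0 hb0
          (fun S'' hS'' => ih S'' (hS''.trans hS')) γ hγ
        refine hlow.trans ?_
        have hβ := β_pos (D.wt γ)
        have hβ4 := β_le (D.wt γ)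
        have hage : (D.age γ : ℝ) ≤ nn j := by
          have := (hD.age_le γ hγ).trans (nn_mono (by omega : D.wt γ ≤ j))
          exact_mod_cast this
        have t1 : β (D.wt γ) * α * ((S'.filter (fun k => p k ≤ γ)).card : ℝ) ≤
            (((1/4 : ℝ)) ^ (t+1) + 4 * θ) * C1 * (S'.card : ℝ) := by
          calc _ ≤ (1/4) * α * (S'.card : ℝ) := by
                gcongr
                exact Finset.filter_subset _ _
            _ ≤ _ := by
                rw [hα, pow_succ]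
                have : 0 ≤ θ * C1 * (S'.card : ℝ) := by positivity
                nlinarith
        have t2 : (D.age γ : ℝ) * (4 * C + β (D.wt γ) * b) ≤ (nn j : ℝ) * (4 * C1 + b) := by
          gcongr
          have : β (D.wt γ) ≤ 1 := β_le_one _
          nlinarith
        linarith

/-- General form of the upper estimate. -/
lemma RSeq.upper_gen (hD : D.Ok V ok) (h : B.RSeq C N p q x) (hC : 0 ≤ C) {S : Finset ℕ}
    (hS : ∀ k ∈ S, k < N) {C1 θ : ℝ} (hC1 : C ≤ C1) (j : ℕ)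
    (hθ : β (j + 1) ^ 2 ≤ θ) (hcard : S.card ≤ nn (j + 1))
    (hw : ∀ S' ⊆ S, ∀ γ, γ ≠ 0 → j + 1 ≤ D.wt γ →
      ‖B.co γ (∑ k ∈ S', x k)‖ ≤ C1 + 4 * C1 * θ * (S'.card : ℝ)) :
    ‖∑ k ∈ S, x k‖ ≤ 9 * C1 * θ * (nn (j + 1) : ℝ) ∧
    ∀ γ, γ ≠ 0 → D.wt γ < j + 1 → ‖B.co γ (∑ k ∈ S, x k)‖ ≤
      5 * C1 * θ * β (D.wt γ) * (nn (j + 1) : ℝ) + 4 * C1 * β (j + 1) ^ 2 * (nn (j + 1) : ℝ) := by
  have hC1' : 0 ≤ C1 := hC.trans hC1
  have hβ := β_pos (j + 1)
  have hθ0 : 0 ≤ θ := (by positivity : (0:ℝ) ≤ β (j+1) ^ 2).trans hθ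
  have hnn : (1 : ℝ) ≤ nn j := by exact_mod_cast nn_pos j
  have hnn1 : (0 : ℝ) ≤ nn (j + 1) := Nat.cast_nonneg _
  have hcard' : (S.card : ℝ) ≤ nn (j + 1) := by exact_mod_cast hcard
  set T := 2 ^ (j + 2) with hT
  have hit := h.iter hD hC hS hC1 hθ0 j hw T
  have hpow4 : (1/4 : ℝ) ^ T ≤ θ := by
    rw [hT, ← β_sq_eq]; exact hθ
  have hpw : ((nn j : ℝ) + 1) ^ (T + 1) = β (j + 1) ^ 2 * (nn (j + 1) : ℝ) := (β_sq_nn j).symm
  have hpw1 : (1 : ℝ) ≤ ((nn j : ℝ) + 1) ^ T := one_le_pow₀ (by linarith)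
  have hit' : ∀ S' ⊆ S, ‖∑ k ∈ S', x k‖ ≤ (5 * θ * C1) * (S'.card : ℝ) +
      4 * C1 * (((nn j : ℝ) + 1) ^ T - 1) := by
    intro S' hS'
    refine (hit S' hS').trans ?_
    gcongr
    linarith
  constructor
  · refine (hit' S subset_rfl).trans ?_
    have h1 : (5 * θ * C1) * (S.card : ℝ) ≤ (5 * θ * C1) * (nn (j + 1) : ℝ) := by gcongr
    have h2 : ((nn j : ℝ) + 1) ^ T ≤ θ * (nn (j + 1) : ℝ) := by
      calc ((nn j : ℝ) + 1) ^ T ≤ ((nn j : ℝ) + 1) ^ (T + 1) :=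
            pow_le_pow_right₀ (by linarith) (Nat.le_succ _)
        _ = β (j + 1) ^ 2 * (nn (j + 1) : ℝ) := hpw
        _ ≤ θ * (nn (j + 1) : ℝ) := by gcongr
    have h3 : 4 * C1 * (((nn j : ℝ) + 1) ^ T - 1) ≤ 4 * C1 * (θ * (nn (j + 1) : ℝ)) := by
      gcongr
      linarith
    nlinarith
  · intro γ hγ hwγ
    have hlow := h.low hD hC hS (α := 5 * θ * C1) (by positivity)
      (b := 4 * C1 * (((nn j : ℝ) + 1) ^ T - 1))
      (mul_nonneg (by positivity) (by linarith)) hit' γ hγ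
    refine hlow.trans ?_
    have hβγ := β_pos (D.wt γ)
    have hage : (D.age γ : ℝ) ≤ nn j := by
      have := (hD.age_le γ hγ).trans (nn_mono (by omega : D.wt γ ≤ j))
      exact_mod_cast this
    have t1 : β (D.wt γ) * (5 * θ * C1) * ((S.filter (fun k => p k ≤ γ)).card : ℝ) ≤
        5 * C1 * θ * β (D.wt γ) * (nn (j + 1) : ℝ) := by
      calc _ ≤ β (D.wt γ) * (5 * θ * C1) * (nn (j + 1) : ℝ) := by
            gcongr
            exact le_trans (Finset.card_le_card (Finset.filter_subset _ _)) hcard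
        _ = _ := by ring
    have t2 : (D.age γ : ℝ) * (4 * C + β (D.wt γ) * (4 * C1 * (((nn j : ℝ) + 1) ^ T - 1))) ≤
        4 * C1 * β (j + 1) ^ 2 * (nn (j + 1) : ℝ) := by
      have hb0 : 0 ≤ 4 * C1 * (((nn j : ℝ) + 1) ^ T - 1) :=
        mul_nonneg (by positivity) (by linarith)
      calc _ ≤ (nn j : ℝ) * (4 * C1 + 1 * (4 * C1 * (((nn j : ℝ) + 1) ^ T - 1))) := by
            gcongr
            exact β_le_one _
        _ = 4 * C1 * ((nn j : ℝ) * ((nn j : ℝ) + 1) ^ T) := by ring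
        _ ≤ 4 * C1 * (((nn j : ℝ) + 1) ^ (T + 1)) := by
            gcongr
            rw [pow_succ]
            nlinarith
        _ = _ := by rw [hpw]; ring
    linarith

/-- Averages of length `n_j` of rapid block sequences. -/
lemma RSeq.upper (hD : D.Ok V ok) (h : B.RSeq C N p q x) (hC : 0 ≤ C) {S : Finset ℕ}
    (hS : ∀ k ∈ S, k < N) {j : ℕ} (hj : j ≠ 0) (hcard : S.card ≤ nn j) :
    ‖∑ k ∈ S, x k‖ ≤ 9 * C * β j * (nn j : ℝ) ∧
    ∀ γ, γ ≠ 0 → D.wt γ < j → ‖B.co γ (∑ k ∈ S, x k)‖ ≤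
      9 * C * β j * β (D.wt γ) * (nn j : ℝ) := by
  obtain ⟨i, rfl⟩ := Nat.exists_eq_succ_of_ne_zero hj
  have hβ := β_pos (i + 1)
  have hβ1 := β_le_one (i + 1)
  obtain ⟨h1, h2⟩ := h.upper_gen hD hC hS (le_refl C) (θ := β (i + 1)) i (by nlinarith) hcard
    (by
      intro S' hS' γ hγ hw
      refine (h.high hD hC (fun k hk => hS k (hS' hk)) γ hγ).trans ?_
      gcongr
      exact β_anti hw)
  refine ⟨h1, fun γ hγ hw => (h2 γ hγ hw).trans ?_⟩
  have hle : β (i + 1) ≤ β (D.wt γ) := β_anti (by omega)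
  have : 4 * C * β (i + 1) ^ 2 * (nn (i + 1) : ℝ) ≤
      4 * C * (β (i + 1) * β (D.wt γ)) * (nn (i + 1) : ℝ) := by
    rw [pow_two]; gcongr
  have hs : (Nat.succ i) = i + 1 := rfl
  rw [hs]
  linarith

/-- Averages of length `n_j` of rapid block sequences on which nodes of weight `j` act badly. -/
lemma RSeq.upper' (hD : D.Ok V ok) (h : B.RSeq C N p q x) (hC : 0 ≤ C) {S : Finset ℕ}
    (hS : ∀ k ∈ S, k < N) {C1 : ℝ} (hC1 : C ≤ C1) {j : ℕ} (hj : j ≠ 0) (hcard : S.card ≤ nn j)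
    (hsp : ∀ S' ⊆ S, ∀ γ, γ ≠ 0 → D.wt γ = j → ‖B.co γ (∑ k ∈ S', x k)‖ ≤ C1) :
    ‖∑ k ∈ S, x k‖ ≤ 9 * C1 * β j ^ 2 * (nn j : ℝ) := by
  have hC1' : 0 ≤ C1 := hC.trans hC1
  obtain ⟨i, rfl⟩ := Nat.exists_eq_succ_of_ne_zero hj
  have hβ := β_pos (i + 1)
  refine (h.upper_gen hD hC hS hC1 (θ := β (i + 1) ^ 2) i le_rfl hcard ?_).1
  intro S' hS' γ hγ hw
  rcases hw.eq_or_lt with hw | hw
  · refine (hsp S' hS' γ hγ hw.symm).trans ?_
    have : 0 ≤ 4 * C1 * β (i + 1) ^ 2 * (S'.card : ℝ) := by positivity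
    linarith
  · refine (h.high hD hC (fun k hk => hS k (hS' hk)) γ hγ).trans ?_
    have hle : β (D.wt γ) ≤ β (i + 1) ^ 2 := by rw [← β_succ]; exact β_anti hw
    have hβγ := β_pos (D.wt γ)
    gcongr

end BD

end Pool.Agent.Helper509.AH
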