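import Pool.Agent.Helper509.AH.WinDef

namespace Pool.Agent.Helper509.AH

open Filter Topology

variable {E : Type*} [NormedAddCommGroup E] [NormedSpace ℂ E]
variable {X : Type*} [NormedAddCommGroup X] [NormedSpace ℂ X]
variable {D : Nodes E} {ok : ℕ → (E →L[ℂ] E) → Prop}
variable {S : Stages} {UU : ℕ → Submodule ℂ E}

/-! PROOF IN WORDS.
Write y_s = x - P s x, e s γ = co γ (x' - P s x') - Φ (co γ y_s). Strong induction on γ for all s.
If γ < s: co γ (x - P s x) = 0 (co_P), so e = 0. If γ = 0: co_zero. Let s ≤ γ, γ ≠ 0. By co_eq for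
y = x - P s x: co γ y = co (par γ) y + β • fn γ y + dd γ y, where dd γ y = dd γ x (dd γ (P s x) = 0 by
dd_eq_zero_of_P_eq since P s (P s x) = P s x, s ≤ γ), and fn γ y = sum_i A_i (co η_i (y - P s_i y)),
y - P s_i y = x - P (max s s_i) x (P_P). So, with m_i = max s s_i (s_i > par γ):
e s γ = e s (par γ) + β sum_i (A_i (e m_i η_i) - (Φ (A_i t_i) - A_i (Φ t_i))) + (dd γ x' - Φ (dd γ x)),
t_i = co η_i (x - P m_i x), which is 0 if η_i < m_i, otherwise h2 (s := m_i) bounds the bracket by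
r (η_i). Let R = sum over Ico (max s (par γ + 1)) γ of r. By induction ‖e m_i η_i‖ ≤ 2 R (η_i + 1 ≤ γ,
m_i ≥ max s (par γ + 1)), r (η_i) ≤ R when m_i ≤ η_i; ‖A_0‖ + ‖A_1‖ ≤ 1, β ≤ 1/4. So the middle part is
≤ (1/4)(2 R + 2 R) = R, and ‖e s (par γ)‖ ≤ 2 * sum over Ico s (par γ + 1). Total
≤ 2 sum_{Ico s (par γ+1)} r + R + r γ ≤ 2 sum_{Ico s (γ+1)} r (if s ≥ par γ + 1 the first sum is empty).
-/

theorem approx_mult {V : ℕ → Submodule ℂ E} (hD : D.Ok V ok) (B : BD D V X) (Φ : E →L[ℂ] E)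
    (x x' : X) (r : ℕ → ℝ) (hr : ∀ n, 0 ≤ r n)
    (h1 : ∀ n, n ≠ 0 → ‖B.dd n x' - Φ (B.dd n x)‖ ≤ r n)
    (h2 : ∀ γ i s, γ ≠ 0 → s ≤ D.η γ i →
      ‖Φ (D.A γ i (B.co (D.η γ i) (x - B.P s x))) - D.A γ i (Φ (B.co (D.η γ i) (x - B.P s x)))‖ ≤
        r (D.η γ i)) :
    ∀ γ s, ‖B.co γ (x' - B.P s x') - Φ (B.co γ (x - B.P s x))‖ ≤
      2 * ∑ k ∈ Finset.Ico s (γ + 1), r k := by
  intro γ
  induction γ using Nat.strong_induction_on with
  | _ γ ih =>
  intro s
  have hsum0 : ∀ T : Finset ℕ, 0 ≤ ∑ k ∈ T, r k := fun T => Finset.sum_nonneg fun k _ => hr k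
  by_cases hlt : γ < s
  · have h3 : ∀ z, B.co γ (z - B.P s z) = 0 := fun z => by rw [map_sub, B.co_P s γ z hlt, sub_self]
    rw [h3, h3, map_zero, sub_zero, norm_zero]
    have := hsum0 (Finset.Ico s (γ + 1))
    positivity
  · push Not at hlt
    by_cases hγ : γ = 0
    · subst hγ
      rw [B.co_zero, B.co_zero, map_zero, sub_zero, norm_zero]
      have := hsum0 (Finset.Ico s (0 + 1))
      positivity
    · have hpar := hD.par_lt γ hγ
      have hdd : ∀ z, B.dd γ (z - B.P s z) = B.dd γ z := by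
        intro z
        rw [B.dd_sub, B.dd_eq_zero_of_P_eq (q := s) (x := B.P s z) ?_ hlt, sub_zero]
        rw [B.P_P, min_self]
      set m : Fin 2 → ℕ := fun i => max s (D.s γ i) with hm
      have hPP : ∀ z i, (z - B.P s z) - B.P (D.s γ i) (z - B.P s z) = z - B.P (m i) z := by
        intro z i
        rw [map_sub, B.P_P, hm]
        rcases le_total s (D.s γ i) with h | h
        · simp only [max_eq_right h, min_eq_right h]
          abel
        · simp only [max_eq_left h, min_eq_left h]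
          abel
      have hfn : ∀ z, B.fn γ (z - B.P s z) = ∑ i, D.A γ i (B.co (D.η γ i) (z - B.P (m i) z)) := by
        intro z
        unfold BD.fn
        refine Finset.sum_congr rfl fun i _ => ?_
        rw [hPP]
      set R : ℝ := ∑ k ∈ Finset.Ico (max s (D.par γ + 1)) γ, r k with hR
      have hR0 : 0 ≤ R := hsum0 _
      set e : Fin 2 → E := fun i => B.co (D.η γ i) (x' - B.P (m i) x') -
        Φ (B.co (D.η γ i) (x - B.P (m i) x)) with he
      set t : Fin 2 → E := fun i => B.co (D.η γ i) (x - B.P (m i) x) with ht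
      have hml : ∀ i, max s (D.par γ + 1) ≤ m i := fun i =>
        max_le_max le_rfl (hD.s_gt γ i hγ)
      have heb : ∀ i, ‖e i‖ ≤ 2 * R := by
        intro i
        refine (ih (D.η γ i) (hD.η_lt γ i hγ) (m i)).trans ?_
        refine mul_le_mul_of_nonneg_left ?_ (by norm_num)
        refine Finset.sum_le_sum_of_subset_of_nonneg ?_ (fun k _ _ => hr k)
        intro k hk
        rw [Finset.mem_Ico] at hk ⊢
        have := hml i
        have := hD.η_lt γ i hγ
        omega
      have hbr : ∀ i, ‖Φ (D.A γ i (t i)) - D.A γ i (Φ (t i))‖ ≤ R := by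
        intro i
        by_cases hmi : m i ≤ D.η γ i
        · refine (h2 γ i (m i) hγ hmi).trans ?_
          refine Finset.single_le_sum (f := r) (fun k _ => hr k) ?_
          rw [Finset.mem_Ico]
          have := hml i
          have := hD.η_lt γ i hγ
          omega
        · have ht0 : t i = 0 := by
            rw [ht]
            simp only
            rw [map_sub, B.co_P _ _ _ (not_le.1 hmi), sub_self]
          rw [ht0]
          simpa using hR0
      have hkey : B.co γ (x' - B.P s x') - Φ (B.co γ (x - B.P s x)) =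
          (B.co (D.par γ) (x' - B.P s x') - Φ (B.co (D.par γ) (x - B.P s x))) +
          ((β (D.wt γ) : ℂ) • ((D.A γ 0 (e 0) - (Φ (D.A γ 0 (t 0)) - D.A γ 0 (Φ (t 0)))) +
            (D.A γ 1 (e 1) - (Φ (D.A γ 1 (t 1)) - D.A γ 1 (Φ (t 1))))) +
          (B.dd γ x' - Φ (B.dd γ x))) := by
        rw [B.co_eq γ (x' - B.P s x') hγ, B.co_eq γ (x - B.P s x) hγ, hdd, hdd, hfn, hfn]
        simp only [he, ht, Fin.sum_univ_two, map_add, map_sub, map_smul, smul_add, smul_sub]
        abel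
      have hβ := β_pos (D.wt γ)
      have hβ4 := β_le (D.wt γ)
      have hA := hD.A_norm γ hγ
      have hmid : ‖(β (D.wt γ) : ℂ) • ((D.A γ 0 (e 0) - (Φ (D.A γ 0 (t 0)) - D.A γ 0 (Φ (t 0)))) +
            (D.A γ 1 (e 1) - (Φ (D.A γ 1 (t 1)) - D.A γ 1 (Φ (t 1)))))‖ ≤ R := by
        rw [norm_smul]
        simp only [Complex.norm_real, Real.norm_eq_abs, abs_of_pos hβ]
        have h5 : ∀ i, ‖D.A γ i (e i) - (Φ (D.A γ i (t i)) - D.A γ i (Φ (t i)))‖ ≤
            ‖D.A γ i‖ * (2 * R) + R := by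
          intro i
          refine (norm_sub_le _ _).trans (add_le_add ?_ (hbr i))
          exact ((D.A γ i).le_opNorm _).trans (mul_le_mul_of_nonneg_left (heb i) (norm_nonneg _))
        have h6 : ‖(D.A γ 0 (e 0) - (Φ (D.A γ 0 (t 0)) - D.A γ 0 (Φ (t 0)))) +
            (D.A γ 1 (e 1) - (Φ (D.A γ 1 (t 1)) - D.A γ 1 (Φ (t 1))))‖ ≤ 4 * R := by
          refine (norm_add_le _ _).trans ((add_le_add (h5 0) (h5 1)).trans ?_)
          nlinarith
        calc β (D.wt γ) * _ ≤ 1 / 4 * (4 * R) :=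
              mul_le_mul hβ4 h6 (norm_nonneg _) (by norm_num)
          _ = R := by ring
      rw [hkey]
      refine (norm_add_le _ _).trans ?_
      have h7 := ih (D.par γ) hpar s
      have h8 := (norm_add_le ((β (D.wt γ) : ℂ) •
        ((D.A γ 0 (e 0) - (Φ (D.A γ 0 (t 0)) - D.A γ 0 (Φ (t 0)))) +
            (D.A γ 1 (e 1) - (Φ (D.A γ 1 (t 1)) - D.A γ 1 (Φ (t 1))))))
          (B.dd γ x' - Φ (B.dd γ x))).trans (add_le_add hmid (h1 γ hγ))
      refine (add_le_add h7 h8).trans ?_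
      have h9 : ∑ k ∈ Finset.Ico s (γ + 1), r k =
          ∑ k ∈ Finset.Ico s (D.par γ + 1), r k + R + r γ := by
        rw [Finset.sum_Ico_succ_top hlt, hR]
        congr 1
        rcases le_total s (D.par γ + 1) with h | h
        · rw [max_eq_right h, Finset.sum_Ico_consecutive _ h (by omega)]
        · rw [max_eq_left h, show Finset.Ico s (D.par γ + 1) = ∅ from Finset.Ico_eq_empty (by omega),
            Finset.sum_empty, zero_add]
      rw [h9]
      have := hr γ
      linarith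

end Pool.Agent.Helper509.AH
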