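import Pool.Agent.Helper509.AH.Asym

/-! Windows: definitions. -/

namespace Pool.Agent.Helper509.AH

open Filter Topology

variable {E : Type*} [NormedAddCommGroup E] [NormedSpace ℂ E]
variable {X : Type*} [NormedAddCommGroup X] [NormedSpace ℂ X]

/-- Stages: the index set is enumerated as the pairs (stage, copy) with copy ≤ stage. -/
structure Stages where
  st : ℕ → ℕ
  cp : ℕ → ℕ
  ix : ℕ → ℕ → ℕ
  cp_le : ∀ n, cp n ≤ st n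
  ix_st : ∀ n, ix (st n) (cp n) = n
  st_ix : ∀ t c, c ≤ t → st (ix t c) = t
  cp_ix : ∀ t c, c ≤ t → cp (ix t c) = c
  mono : Monotone st
  zero : st 0 = 0
  st_le : ∀ n, st n ≤ n
  le_sq : ∀ n, n ≤ (st n + 1) ^ 2

/-- birth nodes -/
def Stages.isB (S : Stages) (n : ℕ) : Prop := S.cp n = S.st n

/-- Slow cutoffs `j t` on the coordinate space, and the parameter spaces `Ξ c` of the copies. -/
structure Cut (UU : ℕ → Submodule ℂ E) where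
  j : ℕ → (E →L[ℂ] E)
  Ξ : ℕ → Submodule ℂ E
  norm_j : ∀ t, ‖j t‖ ≤ 1
  norm_j' : ∀ t, ‖ContinuousLinearMap.id ℂ E - j t‖ ≤ 1
  j_j : ∀ s t, s < t → ∀ v, j s (j t v) = j s v
  j_j' : ∀ s t, s < t → ∀ v, j t (j s v) = j s v
  j_U : ∀ t, ∀ v ∈ UU t, j t v = v
  U_Ξ : ∀ c, c ≠ 0 → UU c ≤ Ξ c
  Ξ_zero : Ξ 0 = ⊥
  j_UU : ∀ s t, ∀ v ∈ UU t, j s v ∈ UU t
  j_Ξ : ∀ t c, ∀ v ∈ Ξ c, j t v ∈ Ξ c
  j_mem : ∀ t c, c ≤ t → ∀ v ∈ Ξ c, j t v ∈ UU (t + 1)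
  j_ev : ∀ c, ∀ v ∈ Ξ c, ∃ t0, ∀ t, t0 ≤ t → j t v = v

/-- Extra rules for the nodes. -/
structure Nodes.Ext (D : Nodes E) (V U : ℕ → Submodule ℂ E) (isB : ℕ → Prop) : Prop where
  cont_par : ∀ γ, ¬ isB γ → D.par γ = 0
  cont_A : ∀ γ i, ¬ isB γ → D.A γ i = 0
  cont_wt : ∀ γ, ¬ isB γ → D.wt γ = 2 * (γ / 2)
  par_U : ∀ γ, γ ≠ 0 → isB γ → V (D.par γ) ≤ U γ
  A_U : ∀ γ i, γ ≠ 0 → isB γ → ∀ v ∈ V (D.η γ i), D.A γ i v ∈ U γ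
  rich : ∀ l N, ∃ γ, N ≤ γ ∧ γ ≠ 0 ∧ isB γ ∧ l ≤ D.wt γ

variable {UU : ℕ → Submodule ℂ E}

/-- the window operator of the node `n` -/
noncomputable def Cut.w (J : Cut UU) (S : Stages) (n : ℕ) : E →L[ℂ] E :=
  if S.cp n = S.st n then J.j (S.st n) else J.j (S.st n) - J.j (S.st n - 1)

/-- coordinate spaces -/
def VV (UU : ℕ → Submodule ℂ E) (S : Stages) (n : ℕ) : Submodule ℂ E := UU (S.st n + 1)

/-- plateau spaces -/
def UV (UU : ℕ → Submodule ℂ E) (S : Stages) (n : ℕ) : Submodule ℂ E := UU (S.st n)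

variable {D : Nodes E} {S : Stages}

/-- The vector `x` has the parameters `ξ`. -/
def HasPar (B : BD D (VV UU S) X) (J : Cut UU) (x : X) (ξ : ℕ → E) : Prop :=
  (∃ q, B.P q x = x) ∧ (∀ c, ξ c ∈ J.Ξ c) ∧ ∀ n, n ≠ 0 → B.dd n x = J.w S n (ξ (S.cp n))

/-- The finitely supported vectors of the space. -/
def Y0 (B : BD D (VV UU S) X) (J : Cut UU) : Submodule ℂ X where
  carrier := {x | ∃ ξ, HasPar B J x ξ}
  add_mem' := by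
    rintro x y ⟨ξ, ⟨q, hq⟩, h2, h3⟩ ⟨ξ', ⟨q', hq'⟩, h2', h3'⟩
    refine ⟨fun c => ξ c + ξ' c, ⟨max q q', ?_⟩, fun c => Submodule.add_mem _ (h2 c) (h2' c), ?_⟩
    · rw [map_add, B.P_of_P_eq hq (le_max_left _ _), B.P_of_P_eq hq' (le_max_right _ _)]
    · intro n hn
      rw [B.dd_add, h3 n hn, h3' n hn, map_add]
  zero_mem' := by
    refine ⟨fun _ => 0, ⟨0, by simp⟩, fun c => Submodule.zero_mem _, fun n _ => ?_⟩
    simp [BD.dd]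
  smul_mem' := by
    rintro c x ⟨ξ, ⟨q, hq⟩, h2, h3⟩
    refine ⟨fun k => c • ξ k, ⟨q, by rw [map_smul, hq]⟩,
      fun k => Submodule.smul_mem _ _ (h2 k), fun n hn => ?_⟩
    rw [B.dd_smul, h3 n hn, map_smul]

/-- The closed subspace spanned by the finitely supported vectors. -/
abbrev Zc (B : BD D (VV UU S) X) (J : Cut UU) : Submodule ℂ X := (Y0 B J).topologicalClosure

/-- `T` acts asymptotically as the coordinatewise application of `Φ`. -/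
def Rel (B : BD D (VV UU S) X) (J : Cut UU) (T : Zc B J →L[ℂ] Zc B J) (Φ : E →L[ℂ] E) : Prop :=
  ∀ ε > 0, ∃ N, ∀ x : Zc B J, (x : X) ∈ Y0 B J → B.P N (x : X) = 0 → ∀ γ,
    ‖B.co γ (T x : X) - Φ (B.co γ (x : X))‖ ≤ ε * ‖x‖

/-- Operators on the coordinate space which almost commute with everything. -/
structure Cut.Good (J : Cut UU) (S : Stages) (ok : ℕ → (E →L[ℂ] E) → Prop) (Φ : E →L[ℂ] E)
    (N0 : ℕ) (K : ℝ) : Prop where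
  map_Ξ : ∀ c, ∀ v ∈ J.Ξ c, Φ v ∈ J.Ξ c
  loc_hi : ∀ t v, J.j t (Φ v) - Φ (J.j t v) =
    J.j t (Φ (J.j (max t N0 + 1) v)) - Φ (J.j t (J.j (max t N0 + 1) v))
  loc_lo : ∀ t, N0 ≤ t → ∀ v, J.j (t + 1) (Φ (J.j t v)) = Φ (J.j t v)
  norm : ∀ t n, N0 ≤ t → S.st n ≤ t + 1 → ∀ v,
    ‖J.j t (Φ v) - Φ (J.j t v)‖ ≤ K * (1 / 2) ^ n * ‖v‖
  comm : ∀ n, N0 ≤ n → ∀ A, ok n A → ∀ v, ‖Φ (A v) - A (Φ v)‖ ≤ K * (1 / 2) ^ n * ‖v‖

end Pool.Agent.Helper509.AH
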