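import Pool.Agent.Helper509.AH.WinPar
import Pool.Agent.Helper509.AH.WinApp

namespace Pool.Agent.Helper509.AH

open Filter Topology

variable {E : Type*} [NormedAddCommGroup E] [NormedSpace ℂ E]
variable {X : Type*} [NormedAddCommGroup X] [NormedSpace ℂ X]
variable {D : Nodes E} {ok : ℕ → (E →L[ℂ] E) → Prop}
variable {S : Stages} {UU : ℕ → Submodule ℂ E}

section
variable {V : ℕ → Submodule ℂ E}

/-- nodes which are not births: the coordinate is the coefficient -/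
lemma dd_eq_co_of_not_birth {UU : ℕ → Submodule ℂ E} (hE : D.Ext (VV UU S) (UV UU S) S.isB)
    (B : BD D (VV UU S) X) {n : ℕ} (hn : n ≠ 0) (hb : ¬ S.isB n) (x : X) :
    B.dd n x = B.co n x := by
  rw [B.co_eq n x hn, hE.cont_par n hb, B.co_zero, zero_add]
  have : B.fn n x = 0 := by
    unfold BD.fn
    refine Finset.sum_eq_zero fun i _ => ?_
    rw [hE.cont_A n i hb]
    rfl
  rw [this, smul_zero, zero_add]

lemma norm_dd_le_of_not_birth {UU : ℕ → Submodule ℂ E} (hE : D.Ext (VV UU S) (UV UU S) S.isB)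
    (B : BD D (VV UU S) X) {n : ℕ} (hn : n ≠ 0) (hb : ¬ S.isB n) (x : X) :
    ‖B.dd n x‖ ≤ ‖x‖ := by
  rw [dd_eq_co_of_not_birth hE B hn hb]
  exact B.norm_co n x

lemma ix_ne (S : Stages) {t c : ℕ} (hc : c ≠ 0) (hct : c ≤ t) : S.ix t c ≠ 0 := by
  intro h
  have h1 := S.st_ix t c hct
  rw [h, S.zero] at h1
  omega

lemma birth_ix (S : Stages) (t : ℕ) : S.isB (S.ix t t) := by
  unfold Stages.isB
  rw [S.cp_ix t t le_rfl, S.st_ix t t le_rfl]

lemma not_birth_ix (S : Stages) {t c : ℕ} (hct : c < t) : ¬ S.isB (S.ix t c) := by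
  unfold Stages.isB
  rw [S.cp_ix t c hct.le, S.st_ix t c hct.le]
  omega

lemma dd_birth {B : BD D (VV UU S) X} {J : Cut UU} {x : X} {ξ : ℕ → E} (h : HasPar B J x ξ)
    {c : ℕ} (hc : c ≠ 0) : B.dd (S.ix c c) x = J.j c (ξ c) := by
  rw [h.2.2 _ (ix_ne S hc le_rfl)]
  unfold Cut.w
  rw [S.cp_ix c c le_rfl, S.st_ix c c le_rfl, if_pos rfl]

lemma dd_cont {B : BD D (VV UU S) X} {J : Cut UU} {x : X} {ξ : ℕ → E} (h : HasPar B J x ξ)
    {c t : ℕ} (hc : c ≠ 0) (hct : c ≤ t) :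
    B.dd (S.ix (t + 1) c) x = J.j (t + 1) (ξ c) - J.j t (ξ c) := by
  rw [h.2.2 _ (ix_ne S hc (by omega))]
  unfold Cut.w
  rw [S.cp_ix (t + 1) c (by omega), S.st_ix (t + 1) c (by omega), if_neg (by omega),
    Nat.add_sub_cancel]
  rfl

/-- the cut vectors vanish if `x` starts late -/
lemma j_zero {B : BD D (VV UU S) X} {J : Cut UU} {x : X} {ξ : ℕ → E} (h : HasPar B J x ξ)
    {N T : ℕ} (hx : B.P N x = 0) (hN : (T + 1) ^ 2 < N) {c : ℕ} (hc : c ≠ 0) :
    ∀ t, c ≤ t → t ≤ T → J.j t (ξ c) = 0 := by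
  have hlt : ∀ t, c ≤ t → t ≤ T → S.ix t c < N := by
    intro t h1 h2
    have h3 := S.le_sq (S.ix t c)
    rw [S.st_ix t c h1] at h3
    have h4 : (t + 1) ^ 2 ≤ (T + 1) ^ 2 := Nat.pow_le_pow_left (by omega) 2
    omega
  intro t
  induction t with
  | zero => intro h1; omega
  | succ t ih =>
    intro h1 h2
    rcases Nat.lt_or_ge t c with h3 | h3
    · have h4 : t + 1 = c := by omega
      rw [h4, ← dd_birth h hc]
      exact B.dd_eq_zero_of_P_zero hx (hlt c le_rfl (by omega))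
    · have h5 := dd_cont h hc h3
      rw [B.dd_eq_zero_of_P_zero hx (hlt (t + 1) h1 h2), ih h3 (by omega), sub_zero] at h5
      exact h5.symm

lemma a_zero {B : BD D (VV UU S) X} {J : Cut UU} {x : X} {ξ : ℕ → E} (h : HasPar B J x ξ)
    {Φ : E →L[ℂ] E} {N0 : ℕ} {K : ℝ} (hΦ : J.Good S ok Φ N0 K)
    {N T : ℕ} (hx : B.P N x = 0) (hN : (T + 1) ^ 2 < N) {c t : ℕ} (hc : c ≠ 0) (hct : c ≤ t)
    (ht : max t N0 + 1 ≤ T) : J.j t (Φ (ξ c)) - Φ (J.j t (ξ c)) = 0 := by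
  have h1 := j_zero h hx hN hc (max t N0 + 1) (by have := le_max_left t N0; omega) ht
  rw [hΦ.loc_hi, h1]
  simp

lemma a_bound {B : BD D (VV UU S) X} {J : Cut UU} (hE : D.Ext (VV UU S) (UV UU S) S.isB)
    {x : X} {ξ : ℕ → E} (h : HasPar B J x ξ)
    {Φ : E →L[ℂ] E} {N0 : ℕ} {K : ℝ} (hK : 0 ≤ K) (hΦ : J.Good S ok Φ N0 K)
    {c t n : ℕ} (hc : c ≠ 0) (hct : c ≤ t)
    (ht : N0 + 1 ≤ t) (hn : S.st n ≤ t + 1) :
    ‖J.j t (Φ (ξ c)) - Φ (J.j t (ξ c))‖ ≤ 4 * K * (1 / 2) ^ n * ‖x‖ := by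
  have hmax : max t N0 = t := max_eq_left (by omega)
  have hpow : (0:ℝ) ≤ K * (1 / 2) ^ n := by positivity
  have e1 := hΦ.loc_hi t (ξ c)
  rw [hmax] at e1
  have hd1 : ‖B.dd (S.ix (t + 1) c) x‖ ≤ ‖x‖ :=
    norm_dd_le_of_not_birth hE B (ix_ne S hc (by omega)) (not_birth_ix S (by omega)) x
  rcases Nat.lt_or_ge c t with h1 | h1
  · obtain ⟨t', rfl⟩ : ∃ t', t = t' + 1 := ⟨t - 1, by omega⟩
    have g1 : J.j (t' + 1) (Φ (J.j t' (ξ c))) = Φ (J.j t' (ξ c)) := hΦ.loc_lo t' (by omega) _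
    have g2 : J.j (t' + 1) (J.j t' (ξ c)) = J.j t' (ξ c) := J.j_j' t' (t' + 1) (by omega) _
    have hv : J.j (t' + 1 + 1) (ξ c) - J.j t' (ξ c) =
        B.dd (S.ix (t' + 1 + 1) c) x + B.dd (S.ix (t' + 1) c) x := by
      rw [dd_cont h hc (by omega : c ≤ t' + 1), dd_cont h hc (by omega : c ≤ t')]
      abel
    have e2 : J.j (t' + 1) (Φ (ξ c)) - Φ (J.j (t' + 1) (ξ c)) =
        J.j (t' + 1) (Φ (J.j (t' + 1 + 1) (ξ c) - J.j t' (ξ c))) -
          Φ (J.j (t' + 1) (J.j (t' + 1 + 1) (ξ c) - J.j t' (ξ c))) := by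
      rw [e1]
      simp only [map_sub]
      rw [g1, g2]
      abel
    rw [e2]
    refine (hΦ.norm (t' + 1) n (by omega) hn _).trans ?_
    rw [hv]
    have hd2 : ‖B.dd (S.ix (t' + 1) c) x‖ ≤ ‖x‖ :=
      norm_dd_le_of_not_birth hE B (ix_ne S hc (by omega)) (not_birth_ix S (by omega)) x
    have h3 : ‖B.dd (S.ix (t' + 1 + 1) c) x + B.dd (S.ix (t' + 1) c) x‖ ≤ 4 * ‖x‖ := by
      refine (norm_add_le _ _).trans ?_
      have := norm_nonneg x
      linarith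
    calc K * (1 / 2) ^ n * ‖B.dd (S.ix (t' + 1 + 1) c) x + B.dd (S.ix (t' + 1) c) x‖
        ≤ K * (1 / 2) ^ n * (4 * ‖x‖) := mul_le_mul_of_nonneg_left h3 hpow
      _ = 4 * K * (1 / 2) ^ n * ‖x‖ := by ring
  · have hct' : c = t := by omega
    subst hct'
    rw [e1]
    refine (hΦ.norm c n (by omega) hn _).trans ?_
    have hv : J.j (c + 1) (ξ c) = B.dd (S.ix (c + 1) c) x + B.dd (S.ix c c) x := by
      rw [dd_cont h hc le_rfl, dd_birth h hc]
      abel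
    have h3 : ‖J.j (c + 1) (ξ c)‖ ≤ 4 * ‖x‖ := by
      rw [hv]
      refine (norm_add_le _ _).trans ?_
      have := B.norm_dd (S.ix c c) x
      linarith
    calc K * (1 / 2) ^ n * ‖J.j (c + 1) (ξ c)‖
        ≤ K * (1 / 2) ^ n * (4 * ‖x‖) := mul_le_mul_of_nonneg_left h3 hpow
      _ = 4 * K * (1 / 2) ^ n * ‖x‖ := by ring

lemma geo_sum (M m : ℕ) : ∑ k ∈ Finset.range m, (if M ≤ k then ((1:ℝ) / 2) ^ k else 0) +
    2 * (1 / 2) ^ (max M m) = 2 * (1 / 2) ^ M := by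
  induction m with
  | zero => simp
  | succ m ih =>
    rw [Finset.sum_range_succ]
    by_cases h : M ≤ m
    · rw [if_pos h, max_eq_right (by omega : M ≤ m + 1), pow_succ]
      rw [max_eq_right h] at ih
      linarith
    · rw [if_neg h, max_eq_left (by omega : m + 1 ≤ M)]
      rw [max_eq_left (by omega : m ≤ M)] at ih
      linarith

end

theorem mult_est (hmono : Monotone UU) (hD : D.Ok (VV UU S) ok)
    (hE : D.Ext (VV UU S) (UV UU S) S.isB) (B : BD D (VV UU S) X) (J : Cut UU)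
    (Φ : E →L[ℂ] E) (N0 : ℕ) (K : ℝ) (hK : 0 ≤ K) (hΦ : J.Good S ok Φ N0 K) :
    ∀ ε > 0, ∃ N, ∀ x x' ξ, HasPar B J x ξ → HasPar B J x' (fun c => Φ (ξ c)) → B.P N x = 0 →
      ∀ γ, ‖B.co γ x' - Φ (B.co γ x)‖ ≤ ε * ‖x‖ := by
  intro ε hε
  obtain ⟨M, hM⟩ : ∃ M : ℕ, 32 * K * (1 / 2) ^ M ≤ ε := by
    have h1 : Tendsto (fun M : ℕ => 32 * K * (1 / 2 : ℝ) ^ M) atTop (𝓝 (32 * K * 0)) :=
      (tendsto_pow_atTop_nhds_zero_of_lt_one (by norm_num) (by norm_num)).const_mul _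
    rw [mul_zero] at h1
    have h2 := h1.eventually (gt_mem_nhds hε)
    obtain ⟨M, hM⟩ := h2.exists
    exact ⟨M, hM.le⟩
  set T : ℕ := max (S.st M) N0 + 1 with hT
  refine ⟨(T + 1) ^ 2 + 1 + N0 + M, ?_⟩
  intro x x' ξ hx hx' hP
  set N : ℕ := (T + 1) ^ 2 + 1 + N0 + M with hN
  have hNT : (T + 1) ^ 2 < N := by omega
  set r : ℕ → ℝ := fun n => if M ≤ n then 8 * K * (1 / 2) ^ n * ‖x‖ else 0 with hr
  have hr0 : ∀ n, 0 ≤ r n := by
    intro n
    rw [hr]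
    simp only
    split_ifs
    · positivity
    · exact le_rfl
  have ha : ∀ c t n, c ≠ 0 → c ≤ t → S.st n ≤ t + 1 → t ≤ S.st n →
      ‖J.j t (Φ (ξ c)) - Φ (J.j t (ξ c))‖ ≤ (if M ≤ n then 4 * K * (1 / 2) ^ n * ‖x‖ else 0) := by
    intro c t n hc hct h1 h2
    by_cases hMn : M ≤ n
    · rw [if_pos hMn]
      by_cases ht : N0 + 1 ≤ t
      · exact a_bound hE hx hK hΦ hc hct ht h1
      · rw [a_zero hx hΦ hP hNT hc hct (by
          rw [max_eq_right (by omega : t ≤ N0), hT]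
          have := le_max_right (S.st M) N0
          omega), norm_zero]
        positivity
    · rw [if_neg hMn]
      rw [a_zero hx hΦ hP hNT hc hct (by
          have h3 : S.st n ≤ S.st M := S.mono (by omega)
          have h4 : max t N0 ≤ max (S.st M) N0 := max_le_max (h2.trans h3) le_rfl
          omega), norm_zero]
  have h1 : ∀ n, n ≠ 0 → ‖B.dd n x' - Φ (B.dd n x)‖ ≤ r n := by
    intro n hn
    rw [hx'.2.2 n hn, hx.2.2 n hn]
    by_cases hc : S.cp n = 0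
    · have h0 : ξ (S.cp n) = 0 := by
        have := hx.2.1 (S.cp n)
        rw [hc, J.Ξ_zero] at this
        rw [hc]
        exact (Submodule.mem_bot ℂ).1 this
      simp only [h0, map_zero, sub_zero, norm_zero]
      exact hr0 n
    · have hrn : (if M ≤ n then 4 * K * (1 / 2) ^ n * ‖x‖ else 0) +
          (if M ≤ n then 4 * K * (1 / 2) ^ n * ‖x‖ else 0) = r n := by
        rw [hr]
        simp only
        split_ifs
        · ring
        · ring
      have hnn : (0:ℝ) ≤ (if M ≤ n then 4 * K * (1 / 2) ^ n * ‖x‖ else 0) := by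
        split_ifs
        · positivity
        · exact le_rfl
      unfold Cut.w
      by_cases hb : S.cp n = S.st n
      · rw [if_pos hb]
        refine (ha (S.cp n) (S.st n) n hc (S.cp_le n) (by omega) le_rfl).trans ?_
        linarith
      · rw [if_neg hb]
        have hlt : S.cp n ≤ S.st n - 1 := by
          have := S.cp_le n
          omega
        have e : (J.j (S.st n) - J.j (S.st n - 1)) (Φ (ξ (S.cp n))) -
            Φ ((J.j (S.st n) - J.j (S.st n - 1)) (ξ (S.cp n))) =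
            (J.j (S.st n) (Φ (ξ (S.cp n))) - Φ (J.j (S.st n) (ξ (S.cp n)))) -
            (J.j (S.st n - 1) (Φ (ξ (S.cp n))) - Φ (J.j (S.st n - 1) (ξ (S.cp n)))) := by
          simp only [sub_apply, map_sub]
          abel
        rw [e]
        refine (norm_sub_le _ _).trans ?_
        rw [← hrn]
        exact add_le_add (ha (S.cp n) (S.st n) n hc (S.cp_le n) (by omega) le_rfl)
          (ha (S.cp n) (S.st n - 1) n hc hlt (by omega) (by omega))
  have h2 : ∀ γ i s, γ ≠ 0 → s ≤ D.η γ i →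
      ‖Φ (D.A γ i (B.co (D.η γ i) (x - B.P s x))) - D.A γ i (Φ (B.co (D.η γ i) (x - B.P s x)))‖ ≤
        r (D.η γ i) := by
    intro γ i s hγ hs
    by_cases hη : D.η γ i < N
    · rw [B.co_sub_P_eq_zero hP hη]
      simp only [map_zero, sub_zero, norm_zero]
      exact hr0 _
    · have hM' : M ≤ D.η γ i := by omega
      have hN0' : N0 ≤ D.η γ i := by omega
      refine (hΦ.comm _ hN0' _ (hD.A_ok γ i hγ) _).trans ?_
      have h3 : ‖B.co (D.η γ i) (x - B.P s x)‖ ≤ 3 * ‖x‖ :=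
        (B.norm_co _ _).trans (B.norm_sub_P _ _)
      rw [hr]
      simp only
      rw [if_pos hM']
      have hpow : (0:ℝ) ≤ K * (1 / 2) ^ (D.η γ i) := by positivity
      calc K * (1 / 2) ^ (D.η γ i) * ‖B.co (D.η γ i) (x - B.P s x)‖
          ≤ K * (1 / 2) ^ (D.η γ i) * (3 * ‖x‖) := mul_le_mul_of_nonneg_left h3 hpow
        _ ≤ 8 * K * (1 / 2) ^ (D.η γ i) * ‖x‖ := by
          have : 0 ≤ K * (1 / 2) ^ (D.η γ i) * ‖x‖ := by positivity
          linarith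
  intro γ
  have h3 := approx_mult hD B Φ x x' r hr0 h1 h2 γ 0
  rw [B.P_zero' hD, B.P_zero' hD, sub_zero, sub_zero] at h3
  refine h3.trans ?_
  have h4 : ∑ k ∈ Finset.Ico 0 (γ + 1), r k =
      8 * K * ‖x‖ * ∑ k ∈ Finset.range (γ + 1), (if M ≤ k then ((1:ℝ) / 2) ^ k else 0) := by
    rw [Finset.mul_sum, Finset.range_eq_Ico]
    refine Finset.sum_congr rfl fun k _ => ?_
    rw [hr]
    simp only
    split_ifs
    · ring
    · ring
  have h5 := geo_sum M (γ + 1)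
  have h6 : (0:ℝ) ≤ 2 * (1 / 2) ^ (max M (γ + 1)) := by positivity
  have h7 : ∑ k ∈ Finset.range (γ + 1), (if M ≤ k then ((1:ℝ) / 2) ^ k else 0) ≤
      2 * (1 / 2) ^ M := by linarith
  rw [h4]
  have h8 : (0:ℝ) ≤ 8 * K * ‖x‖ := by positivity
  calc 2 * (8 * K * ‖x‖ * ∑ k ∈ Finset.range (γ + 1), (if M ≤ k then ((1:ℝ) / 2) ^ k else 0))
      ≤ 2 * (8 * K * ‖x‖ * (2 * (1 / 2) ^ M)) := by
        have := mul_le_mul_of_nonneg_left h7 h8
        linarith
    _ = 32 * K * (1 / 2) ^ M * ‖x‖ := by ring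
    _ ≤ ε * ‖x‖ := mul_le_mul_of_nonneg_right hM (norm_nonneg _)

end Pool.Agent.Helper509.AH
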