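import Pool.Agent.Helper509.AH.WinDef

namespace Pool.Agent.Helper509.AH

open Filter Topology

variable {E : Type*} [NormedAddCommGroup E] [NormedSpace ℂ E]
variable {X : Type*} [NormedAddCommGroup X] [NormedSpace ℂ X]
variable {D : Nodes E} {ok : ℕ → (E →L[ℂ] E) → Prop}
variable {S : Stages} {UU : ℕ → Submodule ℂ E}

/-! PROOF IN WORDS.
exists_dd: induction on q. q = 0: x = 0 (B.P 0 0 = 0). Step: let x be the vector for q; if q = 0 take
x itself (B.P 1 x = x by P_of_P_eq, nothing to check for n ≠ 0, n < 1). Otherwise let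
y = B.sv q (d q) (sv_spec: P q y = 0, P (q+1) y = y, co q y = d q), take x + y.
dd n y = 0 for n < q (dd_eq_zero_of_P_zero), dd q y = co q (y - P q y) = d q,
dd q x = 0 (dd_eq_zero_of_P_eq).
ext_dd: z = x - y, P q z = z, dd n z = 0 for all n ≠ 0 (dd_sub). Show P n z = 0 for all n by
induction: P 0 z = 0 (P_zero'), and if P n z = 0 then co δ z = 0 for δ < n (co_of_P_zero), and
co n z = co n (z - P n z) = dd n z = 0 if n ≠ 0 (co_zero if n = 0), so P (n+1) z = 0
(P_eq_zero_of_co). So z = P q z = 0.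
-/

theorem exists_dd {V : ℕ → Submodule ℂ E} (hD : D.Ok V ok) (hV : Monotone V) (B : BD D V X)
    (q : ℕ) (d : ℕ → E) (hd : ∀ n, d n ∈ V n) :
    ∃ x : X, B.P q x = x ∧ ∀ n, n ≠ 0 → n < q → B.dd n x = d n := by
  induction q with
  | zero => exact ⟨0, by simp, fun n _ h => absurd h (Nat.not_lt_zero n)⟩
  | succ q ih =>
    obtain ⟨x, hx, hxd⟩ := ih
    rcases Nat.eq_zero_or_pos q with rfl | hq
    · exact ⟨x, B.P_of_P_eq hx (Nat.zero_le 1), fun n hn h => by omega⟩
    · have hq0 : q ≠ 0 := hq.ne'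
      obtain ⟨g1, g2, g3, -⟩ := B.sv_spec hq0 (hd q)
      refine ⟨x + B.sv q (d q), ?_, ?_⟩
      · rw [map_add, B.P_of_P_eq hx (Nat.le_succ q), g2]
      · intro n hn hlt
        rw [B.dd_add]
        rcases Nat.lt_succ_iff_lt_or_eq.1 hlt with h' | h'
        · rw [hxd n hn h', B.dd_eq_zero_of_P_zero g1 h', add_zero]
        · subst h'
          rw [B.dd_eq_zero_of_P_eq hx le_rfl, zero_add]
          unfold BD.dd
          rw [g1, sub_zero, g3]

theorem ext_dd {V : ℕ → Submodule ℂ E} (hD : D.Ok V ok) (B : BD D V X)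
    {q : ℕ} {x y : X} (hx : B.P q x = x) (hy : B.P q y = y)
    (h : ∀ n, n ≠ 0 → B.dd n x = B.dd n y) : x = y := by
  have hz : B.P q (x - y) = x - y := by rw [map_sub, hx, hy]
  have key : ∀ n, B.P n (x - y) = 0 := by
    intro n
    induction n with
    | zero => exact B.P_zero' hD _
    | succ n ih =>
      refine B.P_eq_zero_of_co fun γ hγ => ?_
      rcases Nat.lt_succ_iff_lt_or_eq.1 hγ with h' | h'
      · exact B.co_of_P_zero ih h'
      · subst h'
        rcases Nat.eq_zero_or_pos γ with rfl | hp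
        · exact B.co_zero _
        · have h1 : B.dd γ (x - y) = 0 := by rw [B.dd_sub, h γ hp.ne', sub_self]
          unfold BD.dd at h1
          rwa [ih, sub_zero] at h1
  have := key q
  rw [hz] at this
  exact sub_eq_zero.1 this

end Pool.Agent.Helper509.AH
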