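import Pool.Agent.Helper509.AH.WinExt

namespace Pool.Agent.Helper509.AH

open Filter Topology

variable {E : Type*} [NormedAddCommGroup E] [NormedSpace ℂ E]
variable {X : Type*} [NormedAddCommGroup X] [NormedSpace ℂ X]
variable {D : Nodes E} {ok : ℕ → (E →L[ℂ] E) → Prop}
variable {S : Stages} {UU : ℕ → Submodule ℂ E}

/-! PROOF IN WORDS.
Note ix t c ≠ 0 if t ≥ 1, c ≤ t, since st 0 = 0. Let x have the parameters ξ, c ≠ 0.
For t ≥ c: J.j t (ξ c) = sum of B.dd (ix t' c) x over c ≤ t' ≤ t, because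
B.dd (ix c c) x = J.j c (ξ c) and B.dd (ix t c) x = J.j t (ξ c) - J.j (t-1) (ξ c) for t > c (definition
of J.w, cp_ix, st_ix). So J.j t (ξ c) is determined by x (t ≥ c), and by j_ev it equals ξ c for t large.
For c = 0, ξ 0 = 0 since Ξ 0 = ⊥. This is par_unique.
par_fin: P q x = x gives dd n x = 0 for n ≥ q (dd_eq_zero_of_P_eq). If c ≥ q + 1 then all n = ix t c
(t ≥ c) satisfy n ≥ st n = t ≥ q, so J.j t (ξ c) = 0 for all t ≥ c, and ξ c = 0 by j_ev.
exists_theta: d n = J.w S n (ξ (cp n)) is in VV UU S n = UU (st n + 1): j_mem for t = st n, and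
for t - 1 ≥ c when c < t (then UU t ≤ UU (t+1) by hmono). By j_ev and h0 there is t0 such that
J.j t (ξ c) = ξ c for all t ≥ t0 and all c, so d n = 0 when st n ≥ t0 + 1 and cp n < st n, and if
cp n = st n ≥ c0 also d n = 0. As n ≤ (st n + 1)^2, st n is large if n is large; take q with
d n = 0 for n ≥ q and use exists_dd; for n ≥ q both sides are 0 (dd_eq_zero_of_P_eq).
-/

lemma wn3_ix_ne (S : Stages) {t c : ℕ} (hc : c ≤ t) (ht : t ≠ 0) : S.ix t c ≠ 0 := by
  intro h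
  have h1 := S.st_ix t c hc
  rw [h, S.zero] at h1
  exact ht h1.symm

lemma wn3_dd_base (B : BD D (VV UU S) X) (J : Cut UU) {x : X} {ξ : ℕ → E}
    (h : HasPar B J x ξ) {c : ℕ} (hc : c ≠ 0) : B.dd (S.ix c c) x = J.j c (ξ c) := by
  rw [h.2.2 _ (wn3_ix_ne S le_rfl hc), Cut.w, S.st_ix c c le_rfl, S.cp_ix c c le_rfl, if_pos rfl]

lemma wn3_dd_step (B : BD D (VV UU S) X) (J : Cut UU) {x : X} {ξ : ℕ → E}
    (h : HasPar B J x ξ) {c t : ℕ} (hct : c ≤ t) :
    B.dd (S.ix (t + 1) c) x = J.j (t + 1) (ξ c) - J.j t (ξ c) := by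
  have hc' : c ≤ t + 1 := by omega
  rw [h.2.2 _ (wn3_ix_ne S hc' (by omega)), Cut.w, S.st_ix _ c hc', S.cp_ix _ c hc',
    if_neg (by omega), Nat.add_sub_cancel]
  rfl

/-- a parameter is determined by the vector -/
theorem par_unique (B : BD D (VV UU S) X) (J : Cut UU) {x : X} {ξ ξ' : ℕ → E}
    (h : HasPar B J x ξ) (h' : HasPar B J x ξ') : ξ = ξ' := by
  funext c
  by_cases hc : c = 0
  · subst hc
    have h1 := h.2.1 0
    have h2 := h'.2.1 0
    rw [J.Ξ_zero, Submodule.mem_bot] at h1 h2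
    rw [h1, h2]
  · have key : ∀ t, c ≤ t → J.j t (ξ c) = J.j t (ξ' c) := by
      intro t ht
      induction t, ht using Nat.le_induction with
      | base => rw [← wn3_dd_base B J h hc, ← wn3_dd_base B J h' hc]
      | succ t ht ih =>
        have h1 := wn3_dd_step B J h ht
        have h2 := wn3_dd_step B J h' ht
        rw [h1, ih] at h2
        exact sub_left_injective h2
    obtain ⟨t1, ht1⟩ := J.j_ev c (ξ c) (h.2.1 c)
    obtain ⟨t2, ht2⟩ := J.j_ev c (ξ' c) (h'.2.1 c)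
    have h3 := key (max c (max t1 t2)) (le_max_left _ _)
    rw [ht1 _ (by simp), ht2 _ (by simp)] at h3
    exact h3

theorem par_fin (B : BD D (VV UU S) X) (J : Cut UU) {x : X} {ξ : ℕ → E}
    (h : HasPar B J x ξ) : ∃ c0, ∀ c, c0 ≤ c → ξ c = 0 := by
  obtain ⟨q, hq⟩ := h.1
  refine ⟨q + 1, fun c hc => ?_⟩
  have hc0 : c ≠ 0 := by omega
  have hix : ∀ t, c ≤ t → q ≤ S.ix t c := by
    intro t ht
    have h1 := S.st_le (S.ix t c)
    rw [S.st_ix t c ht] at h1
    omega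
  have key : ∀ t, c ≤ t → J.j t (ξ c) = 0 := by
    intro t ht
    induction t, ht using Nat.le_induction with
    | base => rw [← wn3_dd_base B J h hc0, B.dd_eq_zero_of_P_eq hq (hix c le_rfl)]
    | succ t ht ih =>
      have h1 := wn3_dd_step B J h ht
      rw [ih, sub_zero, B.dd_eq_zero_of_P_eq hq (hix _ (by omega))] at h1
      exact h1.symm
  obtain ⟨t1, ht1⟩ := J.j_ev c (ξ c) (h.2.1 c)
  have h3 := key (max c t1) (le_max_left _ _)
  rwa [ht1 _ (le_max_right _ _)] at h3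

theorem exists_theta (hmono : Monotone UU) (hD : D.Ok (VV UU S) ok)
    (B : BD D (VV UU S) X) (J : Cut UU) (ξ : ℕ → E) (hξ : ∀ c, ξ c ∈ J.Ξ c) (c0 : ℕ)
    (h0 : ∀ c, c0 ≤ c → ξ c = 0) : ∃ x : X, HasPar B J x ξ := by
  have hV : Monotone (VV UU S) := by
    intro a b hab
    exact hmono (Nat.succ_le_succ (S.mono hab))
  have hd : ∀ n, J.w S n (ξ (S.cp n)) ∈ VV UU S n := by
    intro n
    unfold VV
    have h1 : J.j (S.st n) (ξ (S.cp n)) ∈ UU (S.st n + 1) :=
      J.j_mem (S.st n) (S.cp n) (S.cp_le n) _ (hξ _)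
    by_cases hn : S.cp n = S.st n
    · rw [Cut.w, if_pos hn]
      exact h1
    · rw [Cut.w, if_neg hn]
      have hlt : S.cp n < S.st n := lt_of_le_of_ne (S.cp_le n) hn
      have h2 : J.j (S.st n - 1) (ξ (S.cp n)) ∈ UU (S.st n - 1 + 1) :=
        J.j_mem (S.st n - 1) (S.cp n) (by omega) _ (hξ _)
      have h3 : UU (S.st n - 1 + 1) ≤ UU (S.st n + 1) := hmono (by omega)
      exact Submodule.sub_mem _ h1 (h3 h2)
  choose τ hτ using fun c => J.j_ev c (ξ c) (hξ c)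
  set t0 := (Finset.range c0).sup τ with ht0
  have hall : ∀ t, t0 ≤ t → ∀ c, J.j t (ξ c) = ξ c := by
    intro t ht c
    by_cases hc : c0 ≤ c
    · rw [h0 c hc, map_zero]
    · refine hτ c t (le_trans ?_ ht)
      exact Finset.le_sup (f := τ) (Finset.mem_range.2 (not_le.1 hc))
  set m := max (t0 + 1) c0 with hm
  have hzero : ∀ n, m ≤ S.st n → J.w S n (ξ (S.cp n)) = 0 := by
    intro n hn
    have hn1 : t0 + 1 ≤ S.st n := (le_max_left _ _).trans hn
    have hn2 : c0 ≤ S.st n := (le_max_right _ _).trans hn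
    by_cases hcn : S.cp n = S.st n
    · rw [h0 (S.cp n) (by omega), map_zero]
    · rw [Cut.w, if_neg hcn]
      have e1 := hall (S.st n) (by omega) (S.cp n)
      have e2 := hall (S.st n - 1) (by omega) (S.cp n)
      have e3 : (J.j (S.st n) - J.j (S.st n - 1)) (ξ (S.cp n)) =
        J.j (S.st n) (ξ (S.cp n)) - J.j (S.st n - 1) (ξ (S.cp n)) := rfl
      rw [e3, e1, e2, sub_self]
  obtain ⟨x, hx1, hx2⟩ := exists_dd hD hV B ((m + 1) ^ 2) (fun n => J.w S n (ξ (S.cp n))) hd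
  refine ⟨x, ⟨_, hx1⟩, hξ, fun n hn => ?_⟩
  by_cases hnq : n < (m + 1) ^ 2
  · exact hx2 n hn hnq
  · rw [not_lt] at hnq
    rw [B.dd_eq_zero_of_P_eq hx1 hnq, hzero n]
    have h1 := S.le_sq n
    by_contra hcon
    rw [not_le] at hcon
    have h2 : (S.st n + 1) ^ 2 < (m + 1) ^ 2 := Nat.pow_lt_pow_left (by omega) (by norm_num)
    omega

end Pool.Agent.Helper509.AH
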